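import Pool.Agent.H64.CHN.Def

/-!
# Chains of copies: the law
-/

set_option autoImplicit false

namespace Pool.CHN

open Finset Real
open Pool.Agent.H49.Ent Pool.Agent.H32.Dense Pool.STK Pool.POT
open Pool.K2S (Pe)

variable {Ω Ω₁ Ω₂ Ω₃ : Type} {τ ι : Type}

/-! ### Glued laws -/

section glued

variable [Fintype Ω₁] [Fintype Ω₂] [Fintype Ω₃]

theorem Pe_Ex (p : Ω₁ → ℝ) (G : Ω₁ → Prop) :
    Pe p G = Ex p (fun ω => open Classical in if G ω then 1 else 0) := by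
  classical
  unfold Pool.K2S.Pe law Ex
  refine Finset.sum_congr rfl fun ω _ => ?_
  by_cases h : G ω
  · simp [h]
  · simp [h]

theorem Im.Pe {q : Ω₁ → ℝ} {p : Ω₂ → ℝ} {f : Ω₁ → Ω₂} (h : Im q p f) (G : Ω₂ → Prop) :
    Pe q (fun w => G (f w)) = Pe p G := by
  rw [Pe_Ex, Pe_Ex]
  exact h.Ex (fun ω => open Classical in if G ω then 1 else 0)

theorem Pe_mono' {p : Ω₁ → ℝ} (hp : ∀ ω, 0 ≤ p ω) {G G' : Ω₁ → Prop}
    (h : ∀ ω, 0 < p ω → G ω → G' ω) : Pe p G ≤ Pe p G' := by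
  classical
  rw [Pe_Ex, Pe_Ex]
  unfold Ex
  refine Finset.sum_le_sum fun ω _ => ?_
  beta_reduce
  rcases (hp ω).eq_or_lt with h0 | h0
  · rw [← h0, zero_mul, zero_mul]
  · by_cases h1 : G ω
    · rw [if_pos h1, if_pos (h ω h0 h1)]
    · rw [if_neg h1, mul_zero]
      split_ifs
      · rw [mul_one]
        exact h0.le
      · rw [mul_zero]

theorem Pe_or {p : Ω₁ → ℝ} (hp : ∀ ω, 0 ≤ p ω) (G G' : Ω₁ → Prop) :
    Pe p (fun ω => G ω ∨ G' ω) ≤ Pe p G + Pe p G' := by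
  classical
  rw [Pe_Ex, Pe_Ex, Pe_Ex]
  unfold Ex
  rw [← Finset.sum_add_distrib]
  refine Finset.sum_le_sum fun ω _ => ?_
  rw [← mul_add]
  refine mul_le_mul_of_nonneg_left ?_ (hp ω)
  by_cases h1 : G ω
  · by_cases h2 : G' ω
    · simp [h1, h2]
    · simp [h1, h2]
  · by_cases h2 : G' ω
    · simp [h1, h2]
    · simp [h1, h2]

theorem Pe_nonneg' {p : Ω₁ → ℝ} (hp : ∀ ω, 0 ≤ p ω) (G : Ω₁ → Prop) : 0 ≤ Pe p G :=
  law_nonneg hp _ _

theorem Pe_not {p : Ω₁ → ℝ} (hp : IsLaw p) (G : Ω₁ → Prop) :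
    Pe p G + Pe p (fun ω => ¬ G ω) = 1 := by
  classical
  rw [Pe_Ex, Pe_Ex]
  unfold Ex
  rw [← Finset.sum_add_distrib]
  refine Eq.trans (Finset.sum_congr rfl fun ω _ => ?_) hp.sum_one
  by_cases h : G ω
  · simp [h]
  · simp [h]

theorem im_of_Ex {q : Ω₁ → ℝ} {p : Ω₂ → ℝ} {f : Ω₁ → Ω₂}
    (h : ∀ F : Ω₂ → ℝ, Ex q (fun w => F (f w)) = Ex p F) : Im q p f := by
  classical
  intro a
  have h1 := h (fun x => if x = a then 1 else 0)
  unfold Ex at h1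
  have e2 : ∑ ω, p ω * (if ω = a then (1 : ℝ) else 0) = p a := by
    rw [Finset.sum_eq_single a]
    · simp
    · intro b _ hb
      simp [hb]
    · intro hc
      exact absurd (Finset.mem_univ _) hc
  rw [e2] at h1
  rw [← h1]
  refine Finset.sum_congr rfl fun w _ => ?_
  beta_reduce
  by_cases h2 : f w = a
  · rw [if_pos h2, if_pos h2, mul_one]
  · rw [if_neg h2, if_neg h2, mul_zero]

omit [Fintype Ω₂] in
theorem im_id (q : Ω₁ → ℝ) : Im q q (fun w => w) := im_of_Ex fun _ => rfl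

/-- The image of a glued law. -/
theorem im_glue_map {q : Ω₁ → ℝ} {q' : Ω₂ → ℝ} {p : Ω₃ → ℝ} {f : Ω₁ → Ω₂} (h : Im q q' f)
    (Z : Ω₂ → τ) (Z₂ : Ω₃ → τ) :
    Im (glue q p (fun w => Z (f w)) Z₂) (glue q' p Z Z₂) (fun w => (f w.1, w.2)) := by
  classical
  refine im_of_Ex fun F => ?_
  have h1 := h.Ex (fun a => ∑ y, (if Z a = Z₂ y then p y / law q' Z (Z a) else 0) * F (a, y))
  unfold Ex at h1 ⊢
  rw [Fintype.sum_prod_type, Fintype.sum_prod_type]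
  refine Eq.trans ?_ (h1.trans ?_)
  · refine Finset.sum_congr rfl fun x _ => ?_
    rw [Finset.mul_sum]
    refine Finset.sum_congr rfl fun y _ => ?_
    unfold glue
    dsimp only
    rw [h.law Z]
    split_ifs <;> ring
  · refine Finset.sum_congr rfl fun x _ => ?_
    rw [Finset.mul_sum]
    refine Finset.sum_congr rfl fun y _ => ?_
    unfold glue
    dsimp only
    split_ifs <;> ring

/-- Associativity. -/
theorem im_assoc {q₁ : Ω₁ → ℝ} {q₂ : Ω₂ → ℝ} {p : Ω₃ → ℝ} {σ : Type} {Z₁ : Ω₁ → τ} {Z₂ : Ω₂ → τ}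
    {Z₃ : Ω₂ → σ} {Z₄ : Ω₃ → σ} (h2 : ∀ ω, 0 ≤ q₂ ω) (hZ : ∀ z, law q₁ Z₁ z = law q₂ Z₂ z) :
    Im (glue (glue q₁ q₂ Z₁ Z₂) p (fun w => Z₃ w.2) Z₄)
      (glue q₁ (glue q₂ p Z₃ Z₄) Z₁ (fun w => Z₂ w.1)) (fun w => (w.1.1, (w.1.2, w.2))) := by
  classical
  refine im_of_Ex fun F => ?_
  unfold Ex
  rw [Fintype.sum_prod_type, Fintype.sum_prod_type, Fintype.sum_prod_type]
  refine Finset.sum_congr rfl fun a _ => ?_
  rw [Fintype.sum_prod_type]
  refine Finset.sum_congr rfl fun b _ => Finset.sum_congr rfl fun x _ => ?_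
  have e1 : law (glue q₁ q₂ Z₁ Z₂) (fun w => Z₃ w.2) (Z₃ b) = law q₂ Z₃ (Z₃ b) :=
    law_glue_snd h2 hZ Z₃ (Z₃ b)
  have e2 : glue (glue q₁ q₂ Z₁ Z₂) p (fun w => Z₃ w.2) Z₄ ((a, b), x) =
      if Z₃ b = Z₄ x then glue q₁ q₂ Z₁ Z₂ (a, b) * p x /
        law (glue q₁ q₂ Z₁ Z₂) (fun w => Z₃ w.2) (Z₃ b) else 0 := rfl
  have e3 : glue q₁ (glue q₂ p Z₃ Z₄) Z₁ (fun w => Z₂ w.1) (a, (b, x)) =
      if Z₁ a = Z₂ b then q₁ a * glue q₂ p Z₃ Z₄ (b, x) / law q₁ Z₁ (Z₁ a) else 0 := rfl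
  have e4 : glue q₁ q₂ Z₁ Z₂ (a, b) =
      if Z₁ a = Z₂ b then q₁ a * q₂ b / law q₁ Z₁ (Z₁ a) else 0 := rfl
  have e5 : glue q₂ p Z₃ Z₄ (b, x) =
      if Z₃ b = Z₄ x then q₂ b * p x / law q₂ Z₃ (Z₃ b) else 0 := rfl
  rw [e2, e3, e1, e4, e5]
  by_cases h3 : Z₃ b = Z₄ x
  · by_cases h4 : Z₁ a = Z₂ b
    · rw [if_pos h3, if_pos h4, if_pos h3, if_pos h4]
      ring
    · rw [if_pos h3, if_neg h4, if_neg h4]
      ring
  · rw [if_neg h3, if_neg h3]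
    split_ifs <;> ring

/-- **Selection.** -/
theorem sel_fst {q₁ : Ω₁ → ℝ} {q₂ : Ω₂ → ℝ} {Z₁ : Ω₁ → τ} {Z₂ : Ω₂ → τ} [Nonempty Ω₂]
    (h1 : ∀ ω, 0 ≤ q₁ ω) (h2 : ∀ ω, 0 ≤ q₂ ω) (hZ : ∀ z, law q₁ Z₁ z = law q₂ Z₂ z)
    (φ : Ω₁ → Ω₂ → Prop) :
    ∃ s : τ → Ω₂, Pe (glue q₁ q₂ Z₁ Z₂) (fun w => φ w.1 w.2) ≤
      Pe q₁ (fun a => φ a (s (Z₁ a))) := by
  classical
  obtain ⟨F, hF⟩ : ∃ F : τ → Ω₂ → ℝ, F = fun z b =>
      ∑ a, if Z₁ a = z then q₁ a * (if φ a b then 1 else 0) else 0 := ⟨_, rfl⟩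
  have hmax : ∀ z, ∃ b, ∀ b', F z b' ≤ F z b := fun z => Finite.exists_max (F z)
  choose s hs using hmax
  refine ⟨s, ?_⟩
  rw [← Im.Pe (im_fst h1 hZ) (fun a => φ a (s (Z₁ a)))]
  have key : ∀ ψ : Ω₁ → Ω₂ → Prop, Pe (glue q₁ q₂ Z₁ Z₂) (fun w => ψ w.1 w.2) =
      ∑ b, q₂ b / law q₁ Z₁ (Z₂ b) *
        ∑ a, if Z₁ a = Z₂ b then q₁ a * (if ψ a b then 1 else 0) else 0 := by
    intro ψ
    rw [Pe_Ex]
    unfold Ex
    rw [Fintype.sum_prod_type, Finset.sum_comm]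
    refine Finset.sum_congr rfl fun b _ => ?_
    rw [Finset.mul_sum]
    refine Finset.sum_congr rfl fun a _ => ?_
    unfold glue
    dsimp only
    by_cases h3 : Z₁ a = Z₂ b
    · rw [if_pos h3, if_pos h3, h3]
      ring
    · rw [if_neg h3, if_neg h3]
      ring
  rw [key φ, key (fun a _ => φ a (s (Z₁ a)))]
  refine Finset.sum_le_sum fun b _ => ?_
  refine mul_le_mul_of_nonneg_left ?_ (div_nonneg (h2 b) (law_nonneg h1 _ _))
  have h3 := hs (Z₂ b) b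
  rw [hF] at h3
  refine h3.trans (le_of_eq ?_)
  refine Finset.sum_congr rfl fun a _ => ?_
  by_cases h4 : Z₁ a = Z₂ b
  · rw [if_pos h4, if_pos h4, h4]
  · rw [if_neg h4, if_neg h4]

/-- The glued law with the roles exchanged. -/
theorem glue_symm {q₁ : Ω₁ → ℝ} {q₂ : Ω₂ → ℝ} {Z₁ : Ω₁ → τ} {Z₂ : Ω₂ → τ}
    (hZ : ∀ z, law q₁ Z₁ z = law q₂ Z₂ z) (a : Ω₁) (b : Ω₂) :
    glue q₁ q₂ Z₁ Z₂ (a, b) = glue q₂ q₁ Z₂ Z₁ (b, a) := by
  unfold glue
  dsimp only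
  by_cases h : Z₁ a = Z₂ b
  · rw [if_pos h, if_pos h.symm, hZ, h]
    ring
  · rw [if_neg h, if_neg (Ne.symm h)]

theorem sel_snd {q₁ : Ω₁ → ℝ} {q₂ : Ω₂ → ℝ} {Z₁ : Ω₁ → τ} {Z₂ : Ω₂ → τ} [Nonempty Ω₁]
    (h1 : ∀ ω, 0 ≤ q₁ ω) (h2 : ∀ ω, 0 ≤ q₂ ω) (hZ : ∀ z, law q₁ Z₁ z = law q₂ Z₂ z)
    (φ : Ω₁ → Ω₂ → Prop) :
    ∃ s : τ → Ω₁, Pe (glue q₁ q₂ Z₁ Z₂) (fun w => φ w.1 w.2) ≤
      Pe q₂ (fun b => φ (s (Z₂ b)) b) := by
  classical
  obtain ⟨s, hs⟩ := sel_fst h2 h1 (fun z => (hZ z).symm) (fun b a => φ a b)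
  refine ⟨s, le_trans (le_of_eq ?_) hs⟩
  rw [Pe_Ex, Pe_Ex]
  unfold Ex
  rw [Fintype.sum_prod_type, Fintype.sum_prod_type, Finset.sum_comm]
  refine Finset.sum_congr rfl fun b _ => Finset.sum_congr rfl fun a _ => ?_
  rw [glue_symm hZ]

end glued

/-! ### Chains -/

/-- Chains of `n + 1` points. -/
def Tn (Ω : Type) : ℕ → Type
  | 0 => Ω
  | n + 1 => Tn Ω n × Ω

instance fintypeTn (Ω : Type) [Fintype Ω] : (n : ℕ) → Fintype (Tn Ω n)
  | 0 => inferInstanceAs (Fintype Ω)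
  | n + 1 => @instFintypeProd (Tn Ω n) Ω (fintypeTn Ω n) _

/-- The points of a chain. -/
def pt : (n : ℕ) → Tn Ω n → ℕ → Ω
  | 0, w, _ => w
  | n + 1, w, i => if i = n + 1 then w.2 else pt n w.1 i

theorem pt_last (n : ℕ) (w : Tn Ω (n + 1)) : pt (n + 1) w (n + 1) = w.2 := by
  simp [pt]

theorem pt_old {n i : ℕ} (h : i ≤ n) (w : Tn Ω (n + 1)) : pt (n + 1) w i = pt n w.1 i := by
  show (if i = n + 1 then w.2 else pt n w.1 i) = _
  rw [if_neg (by omega)]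

/-- The law of the chain; `c i` is the variable which two consecutive points have in common. -/
noncomputable def Qn [Fintype Ω] (p : Ω → ℝ) (c : ℕ → Ω → ι) : (n : ℕ) → Tn Ω n → ℝ
  | 0 => p
  | n + 1 => glue (Qn p c n) p (fun w => c n (pt n w n)) (c n)

section chain

variable [Fintype Ω] {p : Ω → ℝ} {c : ℕ → Ω → ι}

theorem Qn_nonneg (hp : ∀ ω, 0 ≤ p ω) : ∀ (n : ℕ) (w : Tn Ω n), 0 ≤ Qn p c n w
  | 0, w => hp w
  | n + 1, w => glue_nonneg (Qn_nonneg hp n) hp w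

theorem Qn_last (hp : ∀ ω, 0 ≤ p ω) : ∀ n : ℕ, Im (Qn p c n) p (fun w => pt n w n)
  | 0 => im_id p
  | n + 1 => by
    have ih := Qn_last hp n
    have h := im_snd (p₁ := Qn p c n) (Z₁ := fun w => c n (pt n w n)) (Z₂ := c n) hp
      (fun z => ih.law (c n) z)
    have e : (fun w : Tn Ω (n + 1) => pt (n + 1) w (n + 1)) = Prod.snd :=
      funext fun w => pt_last n w
    rw [e]
    exact h

theorem Qn_hZ (hp : ∀ ω, 0 ≤ p ω) (n : ℕ) (z : ι) :
    law (Qn p c n) (fun w => c n (pt n w n)) z = law p (c n) z :=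
  (Qn_last hp n).law (c n) z

theorem Qn_fst (hp : ∀ ω, 0 ≤ p ω) (n : ℕ) : Im (Qn p c (n + 1)) (Qn p c n) Prod.fst :=
  im_fst (Qn_nonneg hp n) (Qn_hZ hp n)

theorem Qn_law (hp : IsLaw p) (n : ℕ) : IsLaw (Qn p c n) :=
  (Qn_last hp.nonneg n).isLaw (Qn_nonneg hp.nonneg n) hp

theorem Qn_pt (hp : ∀ ω, 0 ≤ p ω) : ∀ (n i : ℕ), i ≤ n → Im (Qn p c n) p (fun w => pt n w i)
  | 0, i, h => by
    have : i = 0 := by omega
    subst this
    exact Qn_last hp 0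
  | n + 1, i, h => by
    rcases Nat.lt_or_ge n i with h1 | h1
    · have : i = n + 1 := by omega
      subst this
      exact Qn_last hp (n + 1)
    · have ih := Qn_pt hp n i h1
      have h2 := ih.comp (Qn_fst hp n)
      have e : (fun w : Tn Ω (n + 1) => pt (n + 1) w i) = fun w => pt n w.1 i :=
        funext fun w => pt_old h1 w
      rw [e]
      exact h2

theorem Qn_pos (hp : ∀ ω, 0 ≤ p ω) : ∀ (n : ℕ) (w : Tn Ω n), 0 < Qn p c n w →
    (∀ i, i ≤ n → 0 < p (pt n w i)) ∧ ∀ i, i < n → c i (pt n w i) = c i (pt n w (i + 1))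
  | 0, w, h => ⟨fun _ _ => h, fun i hi => absurd hi (by omega)⟩
  | n + 1, w, h => by
    obtain ⟨h1, h2, h3⟩ := (glue_pos_iff (Qn_nonneg hp n) hp w).1 h
    obtain ⟨h4, h5⟩ := Qn_pos hp n w.1 h1
    refine ⟨fun i hi => ?_, fun i hi => ?_⟩
    · rcases Nat.lt_or_ge n i with h6 | h6
      · have : i = n + 1 := by omega
        subst this
        rw [pt_last]
        exact h2
      · rw [pt_old h6]
        exact h4 i h6
    · rcases Nat.lt_or_ge i n with h6 | h6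
      · rw [pt_old (by omega), pt_old (by omega)]
        exact h5 i h6
      · have : i = n := by omega
        subst this
        rw [pt_old le_rfl, pt_last]
        exact h3

/-- The chain without its first point. -/
def dr : (n : ℕ) → Tn Ω (n + 1) → Tn Ω n
  | 0, w => w.2
  | n + 1, w => (dr n w.1, w.2)

omit [Fintype Ω] in
theorem pt_dr : ∀ (n i : ℕ), i ≤ n → ∀ w : Tn Ω (n + 1), pt n (dr n w) i = pt (n + 1) w (i + 1)
  | 0, i, h, w => by
    have : i = 0 := by omega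
    subst this
    rfl
  | n + 1, i, h, w => by
    rcases Nat.lt_or_ge n i with h1 | h1
    · have : i = n + 1 := by omega
      subst this
      rw [pt_last, pt_last]
      rfl
    · rw [pt_old h1, pt_old (by omega)]
      exact pt_dr n i h1 w.1

theorem Qn_dr (hp : ∀ ω, 0 ≤ p ω) : ∀ n : ℕ,
    Im (Qn p c (n + 1)) (Qn p (fun i => c (i + 1)) n) (dr n)
  | 0 => im_snd hp fun z => (Qn_last (c := c) hp 0).law (c 0) z
  | n + 1 => by
    have ih := Qn_dr hp n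
    have h := im_glue_map (p := p) ih (fun w => c (n + 1) (pt n w n)) (c (n + 1))
    have e : (fun w : Tn Ω (n + 1) => c (n + 1) (pt n (dr n w) n)) =
        fun w => c (n + 1) (pt (n + 1) w (n + 1)) :=
      funext fun w => by rw [pt_dr n n le_rfl]
    rw [e] at h
    exact h

/-- Without the first `m` points. -/
def drm {n : ℕ} : (m : ℕ) → Tn Ω (n + m) → Tn Ω n
  | 0, w => w
  | m + 1, w => drm m (dr (n + m) w)

omit [Fintype Ω] in
theorem pt_drm {n : ℕ} : ∀ (m i : ℕ), i ≤ n → ∀ w : Tn Ω (n + m),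
    pt n (drm m w) i = pt (n + m) w (i + m)
  | 0, _, _, _ => rfl
  | m + 1, i, h, w => by
    show pt n (drm m (dr (n + m) w)) i = _
    rw [pt_drm m i h, pt_dr (n + m) (i + m) (by omega)]
    rfl

theorem Qn_drm (hp : ∀ ω, 0 ≤ p ω) {n : ℕ} : ∀ (m : ℕ) (c : ℕ → Ω → ι),
    Im (Qn p c (n + m)) (Qn p (fun i => c (i + m)) n) (drm m)
  | 0, c => im_id (Qn p c n)
  | m + 1, c => by
    have ih := Qn_drm hp (n := n) m (fun i => c (i + 1))
    exact ih.comp (Qn_dr hp (n + m))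

/-- The first `n + 1` points. -/
def tkm {n : ℕ} : (m : ℕ) → Tn Ω (n + m) → Tn Ω n
  | 0, w => w
  | m + 1, w => tkm m (show Tn Ω (n + m) × Ω from w).1

omit [Fintype Ω] in
theorem pt_tkm {n : ℕ} : ∀ (m i : ℕ), i ≤ n → ∀ w : Tn Ω (n + m),
    pt n (tkm m w) i = pt (n + m) w i
  | 0, _, _, _ => rfl
  | m + 1, i, h, w => by
    show pt n (tkm m (show Tn Ω (n + m) × Ω from w).1) i = _
    rw [pt_tkm m i h]
    exact (pt_old (n := n + m) (by omega) w).symm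

theorem Qn_tkm (hp : ∀ ω, 0 ≤ p ω) {n : ℕ} : ∀ (m : ℕ),
    Im (Qn p c (n + m)) (Qn p c n) (tkm m)
  | 0 => im_id (Qn p c n)
  | m + 1 => by
    have ih := Qn_tkm hp (n := n) m
    exact ih.comp (Qn_fst hp (n + m))

/-- The past and the future. -/
def sp {n : ℕ} : (m : ℕ) → Tn Ω (n + m + 1) → Tn Ω n × Tn Ω m
  | 0, w => w
  | m + 1, w =>
    let w' : Tn Ω (n + m + 1) × Ω := w
    ((sp m w'.1).1, ((sp m w'.1).2, w'.2))

omit [Fintype Ω] in
theorem pt_sp2 {n : ℕ} : ∀ (m i : ℕ), i ≤ m → ∀ w : Tn Ω (n + m + 1),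
    pt m (sp m w).2 i = pt (n + m + 1) w (n + 1 + i)
  | 0, i, h, w => by
    have : i = 0 := by omega
    subst this
    exact (pt_last n w).symm
  | m + 1, i, h, w => by
    rcases Nat.lt_or_ge m i with h1 | h1
    · have : i = m + 1 := by omega
      subst this
      have e1 : pt (m + 1) (sp (m + 1) w).2 (m + 1) = (show Tn Ω (n + m + 1) × Ω from w).2 :=
        pt_last m _
      have e2 : n + 1 + (m + 1) = n + m + 1 + 1 := by omega
      rw [e1, e2]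
      exact (pt_last (n + m + 1) w).symm
    · have e1 : pt (m + 1) (sp (m + 1) w).2 i =
          pt m (sp m (show Tn Ω (n + m + 1) × Ω from w).1).2 i := pt_old h1 _
      rw [e1, pt_sp2 m i h1]
      exact (pt_old (by omega) w).symm

omit [Fintype Ω] in
theorem pt_sp1 {n : ℕ} : ∀ (m i : ℕ), i ≤ n → ∀ w : Tn Ω (n + m + 1),
    pt n (sp m w).1 i = pt (n + m + 1) w i
  | 0, i, h, w => (pt_old h w).symm
  | m + 1, i, h, w => by
    have e1 : pt n (sp (m + 1) w).1 i =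
        pt n (sp m (show Tn Ω (n + m + 1) × Ω from w).1).1 i := rfl
    rw [e1, pt_sp1 m i h]
    exact (pt_old (by omega) w).symm

/-- The law of the future. -/
theorem Qn_first (hp : ∀ ω, 0 ≤ p ω) (m : ℕ) : Im (Qn p c m) p (fun w => pt m w 0) :=
  Qn_pt hp m 0 (Nat.zero_le _)

/-- **Past and future are independent given the common variable.** -/
theorem Qn_sp (hp : ∀ ω, 0 ≤ p ω) {n : ℕ} : ∀ m : ℕ,
    Im (Qn p c (n + m + 1)) (glue (Qn p c n) (Qn p (fun i => c (n + 1 + i)) m)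
      (fun w => c n (pt n w n)) (fun w => c n (pt m w 0))) (sp m)
  | 0 => im_id (Qn p c (n + 1))
  | m + 1 => by
    have ih := Qn_sp hp (n := n) m
    have h := im_glue_map (p := p) ih (fun w => c (n + m + 1) (pt m w.2 m)) (c (n + m + 1))
    have e : (fun w : Tn Ω (n + m + 1) => c (n + m + 1) (pt m (sp m w).2 m)) =
        fun w => c (n + m + 1) (pt (n + m + 1) w (n + m + 1)) :=
      funext fun w => by
        rw [pt_sp2 m m le_rfl]
        congr 2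
        omega
    rw [e] at h
    have h2 := im_assoc (q₁ := Qn p c n) (q₂ := Qn p (fun i => c (n + 1 + i)) m) (p := p)
      (Z₁ := fun w => c n (pt n w n)) (Z₂ := fun w => c n (pt m w 0))
      (Z₃ := fun w => c (n + m + 1) (pt m w m)) (Z₄ := c (n + m + 1)) (Qn_nonneg hp m)
      (fun z => (Qn_hZ hp n z).trans ((Qn_first hp m).law (c n) z).symm)
    have h3 := h2.comp h
    have e2 : (fun w : Tn Ω (m + 1) => c n (pt (m + 1) w 0)) = fun w => c n (pt m w.1 0) :=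
      funext fun w => by rw [pt_old (Nat.zero_le _)]
    rw [e2]
    have e3 : Qn p (fun i => c (n + 1 + i)) (m + 1) =
        glue (Qn p (fun i => c (n + 1 + i)) m) p (fun w => c (n + m + 1) (pt m w m))
          (c (n + m + 1)) := by
      have e4 : n + m + 1 = n + 1 + m := by omega
      show glue (Qn p (fun i => c (n + 1 + i)) m) p (fun w => c (n + 1 + m) (pt m w m))
          (c (n + 1 + m)) = _
      rw [e4]
    rw [e3]
    exact h3

end chain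

end Pool.CHN
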