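import Pool.Agent.H16.LP.Cell

/-!
# Chains of copies: the covector of the velocities

`Chb`: a law of samples (a line and a time) with the record `B` of the ball of the point, the
record `Z` of the window, the exact data `Y` of the slow path, the record `S` of the condition of
the rows, `d₀` slow coordinates with positions `Pc` and velocities `ec`. `ChOne`, `ChTwo`: if the
velocities `dv` over the window are few given the slow velocity and `Z`, and the rows of the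
coordinates are not full given `S`, then the velocities are linear functions of the slow velocity,
the coefficients are functions of the ball and almost constant along the lines.
-/

set_option autoImplicit false

namespace Pool.CHN

open Finset Real
open Pool.Agent.H49.Ent Pool.Agent.H32.Dense Pool.STK Pool.POT Pool.TQ
open Pool.K2S (Pe)
open Pool.LPX (Crd NFz NFu tp)

variable {Ω β Λ υ σ ζ : Type}

/-- The vector of the time and the slow velocity. -/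
noncomputable def Xv {d₀ : ℕ} (X : ℕ) (ec : Fin d₀ → Ω → ℤ) (ω : Ω) : Fin (d₀ + 1) → ℝ :=
  Fin.cons 1 fun i => (ec i ω : ℝ) / 2 ^ X

/-- The common part of the hypotheses. -/
structure Chb {d₀ : ℕ} (p : Ω → ℝ) [Fintype Ω] (B : Ω → β) (ln : Ω → Λ) (Z : Ω → ζ) (Y : Ω → υ)
    (S : Ω → σ) (t : Ω → ℤ) (ec Pc : Fin d₀ → Ω → ℤ) (ap : Fin d₀ → Ω → ℝ) (X : ℕ)
    (C ρ c₁ d : ℝ) : Prop where
  law : IsLaw p
  t0 : ∀ ω, 0 < p ω → 0 ≤ t ω ∧ t ω < 2 ^ X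
  tB : Det p B t
  lY : Det p ln Y
  lZ : Det p ln Z
  BZ : Det p B Z
  SY : Det p (fun ω => (Z ω, (Y ω, t ω))) S
  tf : X * Real.log 2 - d ≤ CH p t ln
  P : ∀ i, Crd p B Y t (Pc i) (ec i) (ap i) X C
  free : MI p (fun ω i => ec i ω) B Z ≤ d
  my : MI p Y B Z ≤ d₀ * (X * Real.log 2) + d
  pl : ∀ (n : β → Fin d₀ → ℝ) (α : β → ℝ), (∀ b, ∃ i, 1 ≤ |n b i|) →
    Pe p (fun ω => |∑ i, n (B ω) i * ((ec i ω : ℝ) / 2 ^ X) - α (B ω)| ≤ ρ) ≤ c₁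

/-- One target. -/
structure Cht {d₀ : ℕ} (p : Ω → ℝ) [Fintype Ω] (B : Ω → β) (ln : Ω → Λ) (Z : Ω → ζ)
    (t : Ω → ℤ) (ec : Fin d₀ → Ω → ℤ) (V dv : Ω → ℤ) (av : Ω → ℝ) (X : ℕ) (C d : ℝ) : Prop where
  crd : Crd p B ln t V dv av X C
  few : CH p dv (fun ω => (Z ω, fun i => ec i ω)) ≤ d

/-- The rows of one coordinate. -/
def NF1 (p : Ω → ℝ) [Fintype Ω] (V : Ω → ℤ) (S : Ω → σ) (X : ℕ) (h ϖ d : ℝ) : Prop :=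
  ∀ i k : ℕ, i ≤ k → k ≤ X → ∀ G : Ω → Prop, ϖ ≤ Pe p G →
    CH (cond p G True) (fun ω => tp X k (V ω)) (fun ω => (tp X i (V ω), S ω)) ≤
      (1 - h) * ((k : ℝ) - i) * Real.log 2 + d

/-- The conclusion: covectors, functions of the ball, almost constant along the lines; accuracy
`r`, probability of the exceptions `c`. -/
def Cov {d₀ : ℕ} (p : Ω → ℝ) [Fintype Ω] (B : Ω → β) (ln : Ω → Λ) (ec : Fin d₀ → Ω → ℤ)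
    (dv : Ω → ℤ) (X : ℕ) (r c : ℝ) (Mf : β → Fin (d₀ + 1) → ℝ) : Prop :=
  Pe p (fun ω => ¬ |(dv ω : ℝ) / 2 ^ X - ∑ i, Mf (B ω) i * Xv X ec ω i| ≤ r) ≤ c ∧
    Pe (dbl p ln) (fun w => ¬ ∀ i, |Mf (B w.1) i - Mf (B w.2) i| ≤ r) ≤ c

/-- **(CH for one coordinate)** -/
def ChOne (d₀ : ℕ) : Prop :=
  ∀ C h ε c : ℝ, 1 ≤ C → 0 < h → h ≤ 1 → 0 < ε → 0 < c →
  ∃ c₁ ε' κ ϖ : ℝ, 0 < c₁ ∧ 0 < ε' ∧ 0 < κ ∧ 0 < ϖ ∧ ∃ X₀ : ℕ,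
    ∀ {Ω β Λ υ σ ζ : Type} [Fintype Ω] {p : Ω → ℝ} {B : Ω → β} {ln : Ω → Λ} {Z : Ω → ζ}
    {Y : Ω → υ} {S : Ω → σ} {t : Ω → ℤ} {ec Pc : Fin d₀ → Ω → ℤ} {ap : Fin d₀ → Ω → ℝ}
    {V dv : Ω → ℤ} {av : Ω → ℝ} {X : ℕ} {d : ℝ},
    Chb p B ln Z Y S t ec Pc ap X C ((2 : ℝ) ^ (-(ε' * X))) c₁ d →
    Cht p B ln Z t ec V dv av X C d → NF1 p V S X h ϖ d →
    X₀ ≤ X → 0 ≤ d → d ≤ κ * X →
    ∃ Mf : β → Fin (d₀ + 1) → ℝ, (∀ b i, |Mf b i| ≤ (2 : ℝ) ^ (ε * X)) ∧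
      Cov p B ln ec dv X ((2 : ℝ) ^ (-((1 - ε) * X))) c Mf

/-- **(CH for a pair)** `U` slow, `V` fast, `θ` = slope of `U` / slope of `V`. -/
def ChTwo (d₀ : ℕ) : Prop :=
  ∀ C θ h ε c : ℝ, 1 ≤ C → 0 < θ → θ < 1 → 0 < h → h ≤ 1 → 0 < ε → 0 < c →
  ∃ c₁ ε' κ ϖ : ℝ, 0 < c₁ ∧ 0 < ε' ∧ 0 < κ ∧ 0 < ϖ ∧ ∃ X₀ : ℕ,
    ∀ {Ω β Λ υ σ ζ : Type} [Fintype Ω] {p : Ω → ℝ} {B : Ω → β} {ln : Ω → Λ} {Z : Ω → ζ}
    {Y : Ω → υ} {S : Ω → σ} {t : Ω → ℤ} {ec Pc : Fin d₀ → Ω → ℤ} {ap : Fin d₀ → Ω → ℝ}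
    {U V du dv : Ω → ℤ} {au av : Ω → ℝ} {X : ℕ} {d : ℝ},
    Chb p B ln Z Y S t ec Pc ap X C ((2 : ℝ) ^ (-(ε' * X))) c₁ d →
    Crd p B ln t U du au X C → Crd p B ln t V dv av X C →
    CH p (fun ω => (tp X ⌊θ * X⌋₊ (du ω), dv ω)) (fun ω => (Z ω, fun i => ec i ω)) ≤ d →
    NFz p U V S X θ h ϖ d → NFu p U V S X θ h ϖ d →
    X₀ ≤ X → 0 ≤ d → d ≤ κ * X →
    ∃ Mu Mv : β → Fin (d₀ + 1) → ℝ, (∀ b i, |Mu b i| ≤ (2 : ℝ) ^ (ε * X)) ∧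
      (∀ b i, |Mv b i| ≤ (2 : ℝ) ^ (ε * X)) ∧
      Cov p B ln ec du X ((2 : ℝ) ^ (-((θ - ε) * X))) c Mu ∧
      Cov p B ln ec dv X ((2 : ℝ) ^ (-((1 - ε) * X))) c Mv

end Pool.CHN
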