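import Pool.Agent.H64.CHN.Law

/-!
# Chains of copies: the times are full
-/

set_option autoImplicit false

namespace Pool.CHN

open Finset Real
open Pool.Agent.H49.Ent Pool.Agent.H32.Dense Pool.STK Pool.POT
open Pool.K2S (Pe)
open Pool.LPX (Crd NFz NFu tp)

variable {Ω β Λ υ σ ζ : Type} {d₀ : ℕ}

/-- The links: the line, the ball, the line, the ball, ... -/
def lk (ln : Ω → Λ) (B : Ω → β) (i : ℕ) (ω : Ω) : Λ ⊕ β :=
  if i % 2 = 0 then Sum.inl (ln ω) else Sum.inr (B ω)

theorem lk_even (ln : Ω → Λ) (B : Ω → β) {i : ℕ} (h : i % 2 = 0) :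
    lk ln B i = fun ω => Sum.inl (ln ω) := funext fun ω => by
  unfold lk
  rw [if_pos h]

theorem lk_odd (ln : Ω → Λ) (B : Ω → β) {i : ℕ} (h : i % 2 = 1) :
    lk ln B i = fun ω => Sum.inr (B ω) := funext fun ω => by
  unfold lk
  rw [if_neg (by omega)]

theorem lk_add (ln : Ω → Λ) (B : Ω → β) (i m : ℕ) : lk ln B (i + 2 * m) = lk ln B i := by
  funext ω
  unfold lk
  rw [Nat.add_mul_mod_self_left]

variable [Fintype Ω] {p : Ω → ℝ} {B : Ω → β} {ln : Ω → Λ} {Z : Ω → ζ} {Y : Ω → υ} {S : Ω → σ}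
  {t : Ω → ℤ} {ec Pc : Fin d₀ → Ω → ℤ} {ap : Fin d₀ → Ω → ℝ} {X : ℕ} {C ρ c₁ d : ℝ}

/-- The law of the chain. -/
noncomputable abbrev Qc (p : Ω → ℝ) (ln : Ω → Λ) (B : Ω → β) (n : ℕ) : Tn Ω n → ℝ :=
  Qn p (lk ln B) n

theorem same_line (hp : ∀ ω, 0 ≤ p ω) {n i : ℕ} {w : Tn Ω n} (h : 0 < Qc p ln B n w)
    (hi : 2 * i < n) : ln (pt n w (2 * i)) = ln (pt n w (2 * i + 1)) := by
  have h1 := (Qn_pos hp n w h).2 (2 * i) hi
  rw [lk_even ln B (by omega)] at h1
  exact Sum.inl.inj h1

theorem same_ball (hp : ∀ ω, 0 ≤ p ω) {n i : ℕ} {w : Tn Ω n} (h : 0 < Qc p ln B n w)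
    (hi : 2 * i + 1 < n) : B (pt n w (2 * i + 1)) = B (pt n w (2 * i + 2)) := by
  have h1 := (Qn_pos hp n w h).2 (2 * i + 1) hi
  rw [lk_odd ln B (by omega)] at h1
  exact Sum.inr.inj h1

theorem Chb.same_Z (H : Chb p B ln Z Y S t ec Pc ap X C ρ c₁ d) {n : ℕ} {w : Tn Ω n}
    (h : 0 < Qc p ln B n w) : ∀ i, i ≤ n → Z (pt n w i) = Z (pt n w 0)
  | 0, _ => rfl
  | i + 1, hi => by
    have h0 := H.law.nonneg
    rw [← H.same_Z h i (by omega)]
    have hpos := (Qn_pos h0 n w h).1
    rcases Nat.mod_two_eq_zero_or_one i with h1 | h1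
    · have e : i = 2 * (i / 2) := by omega
      have h2 := same_line h0 h (i := i / 2) (by omega)
      rw [← e] at h2
      exact (H.lZ _ _ (hpos i (by omega)) (hpos (i + 1) hi) h2).symm
    · have e : i = 2 * (i / 2) + 1 := by omega
      have h2 := same_ball h0 h (i := i / 2) (by omega)
      have e2 : 2 * (i / 2) + 2 = i + 1 := by omega
      rw [e2, ← e] at h2
      exact (H.BZ _ _ (hpos i (by omega)) (hpos (i + 1) hi) h2).symm

/-- The times at the ends of the first `j` lines. -/
def Tt (t : Ω → ℤ) (n j : ℕ) (w : Tn Ω n) (i : Fin j) : ℤ := t (pt n w (2 * i + 1))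

/-- A function of the first `j` lines. -/
def Ee {δ : Type} (v : Ω → δ) (n j : ℕ) (w : Tn Ω n) (i : Fin j) : δ := v (pt n w (2 * i))

/-- The slow velocity. -/
def ecv (ec : Fin d₀ → Ω → ℤ) (ω : Ω) (i : Fin d₀) : ℤ := ec i ω

/-- The last step of a chain. -/
theorem step_eq {ι δ γ φ : Type} {c : ℕ → Ω → ι} (hp : ∀ ω, 0 ≤ p ω) (n : ℕ) (U : Ω → δ)
    (V : Ω → γ) (hV : Det p V (c n)) (F : Tn Ω n → φ) :
    CH (Qn p c (n + 1)) (fun w => U (pt (n + 1) w (n + 1)))
      (fun w => (V (pt (n + 1) w (n + 1)), F (show Tn Ω n × Ω from w).1)) = CH p U V := by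
  have h := CH_glue_snd (p₁ := Qn p c n) (p₂ := p) (Z₁ := fun w => c n (pt n w n)) (Z₂ := c n)
    (Qn_nonneg hp n) hp (Qn_hZ hp n) U (Y := V) F hV
  have e1 : (fun w : Tn Ω (n + 1) => U (pt (n + 1) w (n + 1))) =
      fun w => U (show Tn Ω n × Ω from w).2 := funext fun w => by rw [pt_last]
  have e2 : (fun w : Tn Ω (n + 1) => (V (pt (n + 1) w (n + 1)), F (show Tn Ω n × Ω from w).1)) =
      fun w => (V (show Tn Ω n × Ω from w).2, F (show Tn Ω n × Ω from w).1) :=
    funext fun w => by rw [pt_last]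
  rw [e1, e2]
  exact h

/-- A lower bound for a variable of the last point. -/
theorem step_ge {ι δ γ φ : Type} {c : ℕ → Ω → ι} (hp : ∀ ω, 0 ≤ p ω) (n : ℕ) (U : Ω → δ)
    (V : Ω → γ) (hV : Det p V (c n)) (W : Tn Ω (n + 1) → φ)
    (hW : Det (Qn p c (n + 1)) (fun w => (V (pt (n + 1) w (n + 1)),
      (show Tn Ω n × Ω from w).1)) W) :
    CH p U V ≤ CH (Qn p c (n + 1)) (fun w => U (pt (n + 1) w (n + 1))) W := by
  rw [← step_eq hp n U V hV (fun w => w)]
  exact CH_mono_cond (Qn_nonneg hp (n + 1)) hW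

omit [Fintype Ω] in
/-- The points before the last one. -/
theorem det_old {γ : Type} {n : ℕ} (V : Ω → γ) {i : ℕ} (hi : i ≤ n)
    (w w' : Tn Ω (n + 1)) (e : (show Tn Ω n × Ω from w).1 = (show Tn Ω n × Ω from w').1) :
    V (pt (n + 1) w i) = V (pt (n + 1) w' i) := by
  rw [pt_old hi, pt_old hi]
  exact congrArg (fun z => V (pt n z i)) e

/-- **The times are full** given the first ball and the slow velocities. -/
theorem times_full (H : Chb p B ln Z Y S t ec Pc ap X C ρ c₁ d) (hd : 0 ≤ d) : ∀ j n : ℕ,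
    2 * j ≤ n + 1 → (j : ℝ) * (X * Real.log 2) - 2 * j * d ≤
      CH (Qc p ln B n) (Tt t n j) (fun w => (B (pt n w 0), Ee (ecv ec) n j w))
  | 0, n, _ => by
    have h0 := Qn_nonneg (c := lk ln B) H.law.nonneg n
    have := CH_nonneg h0 (Tt t n 0) (fun w => (B (pt n w 0), Ee (ecv ec) n 0 w))
    simpa using this
  | j + 1, n, hn => by
    classical
    have hp := H.law.nonneg
    -- reduction to `n = 2 j + 1`
    obtain ⟨m, hm⟩ : ∃ m, n = 2 * j + 1 + m := ⟨n - (2 * j + 1), by omega⟩
    subst hm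
    have hred := (Qn_tkm (c := lk ln B) hp (n := 2 * j + 1) m).CH (Tt t (2 * j + 1) (j + 1))
      (fun w => (B (pt (2 * j + 1) w 0), Ee (ecv ec) (2 * j + 1) (j + 1) w))
    have e1 : (fun w : Tn Ω (2 * j + 1 + m) => Tt t (2 * j + 1) (j + 1) (tkm m w)) =
        Tt t (2 * j + 1 + m) (j + 1) := by
      funext w i
      unfold Tt
      rw [pt_tkm m _ (by have := i.2; omega)]
    have e2 : (fun w : Tn Ω (2 * j + 1 + m) => (B (pt (2 * j + 1) (tkm m w) 0),
        Ee (ecv ec) (2 * j + 1) (j + 1) (tkm m w))) =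
        fun w => (B (pt (2 * j + 1 + m) w 0), Ee (ecv ec) (2 * j + 1 + m) (j + 1) w) := by
      funext w
      rw [pt_tkm m 0 (by omega)]
      congr 1
      funext i
      unfold Ee
      rw [pt_tkm m _ (by have := i.2; omega)]
    rw [e1, e2] at hred
    rw [hred]
    have hQ := Qn_nonneg (c := lk ln B) hp (2 * j + 1)
    -- the last time
    have s1 : X * Real.log 2 - d ≤ CH (Qc p ln B (2 * j + 1))
        (fun w => t (pt (2 * j + 1) w (2 * j + 1)))
        (fun w => (Tt t (2 * j + 1) j w, (B (pt (2 * j + 1) w 0),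
          Ee (ecv ec) (2 * j + 1) (j + 1) w))) := by
      refine H.tf.trans ?_
      refine step_ge hp (2 * j) t ln ?_ _ ?_
      · rw [lk_even ln B (by omega)]
        intro ω ω' _ _ e
        simp only [e]
      · intro w w' _ _ e
        have e3 := (Prod.ext_iff.mp e).2
        have g1 : Tt t (2 * j + 1) j w = Tt t (2 * j + 1) j w' := by
          funext i
          exact det_old t (by have := i.2; omega) w w' e3
        have g2 : B (pt (2 * j + 1) w 0) = B (pt (2 * j + 1) w' 0) :=
          det_old B (by omega) w w' e3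
        have g3 : Ee (ecv ec) (2 * j + 1) (j + 1) w = Ee (ecv ec) (2 * j + 1) (j + 1) w' := by
          funext i
          exact det_old (ecv ec) (by have := i.2; omega) w w' e3
        simp only [g1, g2, g3]
    -- the new velocity
    have s2 : MI (Qc p ln B (2 * j + 1)) (fun w => ecv ec (pt (2 * j + 1) w (2 * j)))
        (Tt t (2 * j + 1) j) (fun w => (B (pt (2 * j + 1) w 0), Ee (ecv ec) (2 * j + 1) j w)) ≤
        d := by
      rcases Nat.eq_zero_or_pos j with hj | hj
      · subst hj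
        rw [MI_symm hQ]
        refine (MI_le_CH hQ _ _ _).trans ?_
        rw [CH_eq_zero hQ]
        · exact hd
        · intro w w' _ _ _
          funext i
          exact i.elim0
      · unfold MI
        have a1 : CH (Qc p ln B (2 * j + 1)) (fun w => ecv ec (pt (2 * j + 1) w (2 * j)))
            (fun w => (B (pt (2 * j + 1) w 0), Ee (ecv ec) (2 * j + 1) j w)) ≤
            CH p (ecv ec) Z := by
          rw [← (Qn_pt (c := lk ln B) hp (2 * j + 1) (2 * j) (by omega)).CH (ecv ec) Z]
          refine CH_mono_cond hQ ?_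
          intro w w' a b e
          have e3 := (Prod.ext_iff.mp e).1
          beta_reduce
          rw [H.same_Z a (2 * j) (by omega), H.same_Z b (2 * j) (by omega)]
          exact H.BZ _ _ ((Qn_pos hp _ w a).1 0 (by omega)) ((Qn_pos hp _ w' b).1 0 (by omega)) e3
        have a2 : CH p (ecv ec) B ≤ CH (Qc p ln B (2 * j + 1))
            (fun w => ecv ec (pt (2 * j + 1) w (2 * j)))
            (fun w => (Tt t (2 * j + 1) j w, (B (pt (2 * j + 1) w 0),
              Ee (ecv ec) (2 * j + 1) j w))) := by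
          obtain ⟨k, hk⟩ : ∃ k, 2 * j = k + 1 := ⟨2 * j - 1, by omega⟩
          have b1 : CH (Qc p ln B (2 * j)) (fun w => ecv ec (pt (2 * j) w (2 * j)))
              (fun w => (Tt t (2 * j) j w, (B (pt (2 * j) w 0), Ee (ecv ec) (2 * j) j w))) =
              CH (Qc p ln B (2 * j + 1)) (fun w => ecv ec (pt (2 * j + 1) w (2 * j)))
                (fun w => (Tt t (2 * j + 1) j w, (B (pt (2 * j + 1) w 0),
                Ee (ecv ec) (2 * j + 1) j w))) := by
            rw [← (Qn_fst (c := lk ln B) hp (2 * j)).CH]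
            congr 1
            · funext w
              rw [pt_old le_rfl]
            · funext w
              have g1 : Tt t (2 * j) j w.1 = Tt t (2 * j + 1) j w := by
                funext i
                unfold Tt
                rw [pt_old (by have := i.2; omega)]
              have g2 : Ee (ecv ec) (2 * j) j w.1 = Ee (ecv ec) (2 * j + 1) j w := by
                funext i
                unfold Ee
                rw [pt_old (by have := i.2; omega)]
              rw [g1, g2, pt_old (Nat.zero_le _)]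
          rw [← b1, hk]
          refine step_ge hp k (ecv ec) B ?_ _ ?_
          · rw [lk_odd ln B (by omega)]
            intro ω ω' _ _ e
            simp only [e]
          · intro w w' _ _ e
            have e3 := (Prod.ext_iff.mp e).2
            have g1 : Tt t (k + 1) j w = Tt t (k + 1) j w' := by
              funext i
              exact det_old t (by have := i.2; omega) w w' e3
            have g2 : B (pt (k + 1) w 0) = B (pt (k + 1) w' 0) :=
              det_old B (by omega) w w' e3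
            have g3 : Ee (ecv ec) (k + 1) j w = Ee (ecv ec) (k + 1) j w' := by
              funext i
              exact det_old (ecv ec) (by have := i.2; omega) w w' e3
            simp only [g1, g2, g3]
        have a3 : MI p (ecv ec) B Z ≤ d := H.free
        unfold MI at a3
        have a4 : CH p (ecv ec) (fun ω => (B ω, Z ω)) = CH p (ecv ec) B :=
          CH_congr hp (fun _ _ _ _ e => (Prod.ext_iff.mp e).1) (fun _ _ _ _ e =>
            (Prod.ext_iff.mp e).1) (fun _ _ _ _ e => (Prod.ext_iff.mp e).1)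
            (fun ω ω' a b e => Prod.ext e (H.BZ ω ω' a b e))
        linarith
    rw [MI_symm hQ] at s2
    unfold MI at s2
    have s3 := times_full H hd j (2 * j + 1) (by omega)
    -- the sum
    have s4 : CH (Qc p ln B (2 * j + 1)) (Tt t (2 * j + 1) j)
        (fun w => (ecv ec (pt (2 * j + 1) w (2 * j)), (B (pt (2 * j + 1) w 0),
          Ee (ecv ec) (2 * j + 1) j w))) =
        CH (Qc p ln B (2 * j + 1)) (Tt t (2 * j + 1) j)
        (fun w => (B (pt (2 * j + 1) w 0), Ee (ecv ec) (2 * j + 1) (j + 1) w)) := by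
      refine CH_congr hQ (fun _ _ _ _ e => (Prod.ext_iff.mp e).1)
        (fun _ _ _ _ e => (Prod.ext_iff.mp e).1) ?_ ?_
      · intro w w' _ _ e
        simp only [Prod.mk.injEq] at e ⊢
        refine ⟨e.2.1, ?_⟩
        funext i
        rcases Nat.lt_or_ge i j with h1 | h1
        · exact congrFun e.2.2 ⟨i, h1⟩
        · have h2 : (i : ℕ) = j := by have := i.2; omega
          unfold Ee
          rw [h2]
          exact e.1
      · intro w w' _ _ e
        simp only [Prod.mk.injEq] at e ⊢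
        refine ⟨congrFun e.2 (Fin.last j), e.1, ?_⟩
        funext i
        exact congrFun e.2 i.castSucc
    have s5 : CH (Qc p ln B (2 * j + 1)) (Tt t (2 * j + 1) (j + 1))
        (fun w => (B (pt (2 * j + 1) w 0), Ee (ecv ec) (2 * j + 1) (j + 1) w)) =
        CH (Qc p ln B (2 * j + 1)) (fun w => (t (pt (2 * j + 1) w (2 * j + 1)),
          Tt t (2 * j + 1) j w))
        (fun w => (B (pt (2 * j + 1) w 0), Ee (ecv ec) (2 * j + 1) (j + 1) w)) := by
      refine CH_congr hQ ?_ ?_ (fun _ _ _ _ e => e) (fun _ _ _ _ e => e)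
      · intro w w' _ _ e
        have e3 := (Prod.ext_iff.mp e).1
        simp only [Prod.mk.injEq]
        refine ⟨congrFun e3 (Fin.last j), ?_⟩
        funext i
        exact congrFun e3 i.castSucc
      · intro w w' _ _ e
        simp only [Prod.mk.injEq] at e
        funext i
        rcases Nat.lt_or_ge i j with h1 | h1
        · exact congrFun e.1.2 ⟨i, h1⟩
        · have h2 : (i : ℕ) = j := by have := i.2; omega
          unfold Tt
          rw [h2]
          exact e.1.1
    rw [s5, CH_chain hQ, ← s4]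
    push_cast
    linarith

/-- The condition: the first ball, the slow velocities of the first `N` lines, the exact slow path
of the line `N`, the velocities `v` of all lines, the last time. -/
def Wc {δ : Type} (B : Ω → β) (ec : Fin d₀ → Ω → ℤ) (Y : Ω → υ) (v : Ω → δ) (t : Ω → ℤ) (N : ℕ)
    (w : Tn Ω (2 * N + 1)) : ℤ × ((Fin (N + 1) → δ) × (υ × (β × (Fin N → (Fin d₀ → ℤ))))) :=
  (t (pt (2 * N + 1) w (2 * N + 1)), (Ee v (2 * N + 1) (N + 1) w,
    (Y (pt (2 * N + 1) w (2 * N)), (B (pt (2 * N + 1) w 0), Ee (ecv ec) (2 * N + 1) N w))))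

/-- Functions of the lines are few. -/
theorem lines_few {δ : Type} (H : Chb p B ln Z Y S t ec Pc ap X C ρ c₁ d) (v : Ω → δ)
    (hfew : CH p v (fun ω => (Z ω, ecv ec ω)) ≤ d) (N : ℕ) : ∀ j : ℕ, j ≤ N + 1 →
    CH (Qc p ln B (2 * N + 1)) (Ee v (2 * N + 1) j) (fun w => (B (pt (2 * N + 1) w 0),
      Ee (ecv ec) (2 * N + 1) (N + 1) w)) ≤ j * d
  | 0, _ => by
    have hQ := Qn_nonneg (c := lk ln B) H.law.nonneg (2 * N + 1)
    rw [CH_eq_zero hQ]
    · simp
    · intro w w' _ _ _
      funext i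
      exact i.elim0
  | j + 1, hj => by
    have hp := H.law.nonneg
    have hQ := Qn_nonneg (c := lk ln B) hp (2 * N + 1)
    have ih := lines_few H v hfew N j (by omega)
    have s1 : CH (Qc p ln B (2 * N + 1)) (Ee v (2 * N + 1) (j + 1))
        (fun w => (B (pt (2 * N + 1) w 0), Ee (ecv ec) (2 * N + 1) (N + 1) w)) ≤
        CH (Qc p ln B (2 * N + 1)) (fun w => (v (pt (2 * N + 1) w (2 * j)),
          Ee v (2 * N + 1) j w))
        (fun w => (B (pt (2 * N + 1) w 0), Ee (ecv ec) (2 * N + 1) (N + 1) w)) := by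
      refine CH_mono_left hQ ?_
      intro w w' _ _ e
      simp only [Prod.mk.injEq] at e
      funext i
      rcases Nat.lt_or_ge i j with h1 | h1
      · exact congrFun e.1.2 ⟨i, h1⟩
      · have h2 : (i : ℕ) = j := by have := i.2; omega
        unfold Ee
        rw [h2]
        exact e.1.1
    have s2 : CH (Qc p ln B (2 * N + 1)) (fun w => v (pt (2 * N + 1) w (2 * j)))
        (fun w => (B (pt (2 * N + 1) w 0), Ee (ecv ec) (2 * N + 1) (N + 1) w)) ≤ d := by
      refine le_trans ?_ hfew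
      rw [← (Qn_pt (c := lk ln B) hp (2 * N + 1) (2 * j) (by omega)).CH v
        (fun ω => (Z ω, ecv ec ω))]
      refine CH_mono_cond hQ ?_
      intro w w' a b e
      simp only [Prod.mk.injEq] at e ⊢
      refine ⟨?_, congrFun e.2 ⟨j, hj⟩⟩
      rw [H.same_Z a (2 * j) (by omega), H.same_Z b (2 * j) (by omega)]
      exact H.BZ _ _ ((Qn_pos hp _ w a).1 0 (by omega)) ((Qn_pos hp _ w' b).1 0 (by omega)) e.1
    have s3 := CH_subadd hQ (fun w => v (pt (2 * N + 1) w (2 * j))) (Ee v (2 * N + 1) j)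
      (fun w => (B (pt (2 * N + 1) w 0), Ee (ecv ec) (2 * N + 1) (N + 1) w))
    push_cast
    linarith

theorem Ye (H : Chb p B ln Z Y S t ec Pc ap X C ρ c₁ d) : Det p Y (ecv ec) := by
  intro ω ω' a b e
  funext i
  exact (H.P i).dd ω ω' a b e

/-- **The vector of the times given the whole condition.** -/
theorem T_full {δ : Type} (H : Chb p B ln Z Y S t ec Pc ap X C ρ c₁ d) (hd : 0 ≤ d) (v : Ω → δ)
    (hfew : CH p v (fun ω => (Z ω, ecv ec ω)) ≤ d) :
    X * Real.log 2 - (3 * (d₀ + 1) + 3) * d ≤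
      CH (Qc p ln B (2 * (d₀ + 1) + 1)) (Tt t (2 * (d₀ + 1) + 1) (d₀ + 1))
        (Wc B ec Y v t (d₀ + 1)) := by
  classical
  have hp := H.law.nonneg
  obtain ⟨N, hN⟩ : ∃ N, N = d₀ + 1 := ⟨_, rfl⟩
  rw [← hN]
  have hQ := Qn_nonneg (c := lk ln B) hp (2 * N + 1)
  have s1 := times_full H hd N (2 * N + 1) (by omega)
  -- the exact path of the last line
  have s2 : MI (Qc p ln B (2 * N + 1)) (fun w => Y (pt (2 * N + 1) w (2 * N)))
      (Tt t (2 * N + 1) N) (fun w => (B (pt (2 * N + 1) w 0), Ee (ecv ec) (2 * N + 1) N w)) ≤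
      d₀ * (X * Real.log 2) + d := by
    unfold MI
    have a1 : CH (Qc p ln B (2 * N + 1)) (fun w => Y (pt (2 * N + 1) w (2 * N)))
        (fun w => (B (pt (2 * N + 1) w 0), Ee (ecv ec) (2 * N + 1) N w)) ≤ CH p Y Z := by
      rw [← (Qn_pt (c := lk ln B) hp (2 * N + 1) (2 * N) (by omega)).CH Y Z]
      refine CH_mono_cond hQ ?_
      intro w w' a b e
      have e3 := (Prod.ext_iff.mp e).1
      beta_reduce
      rw [H.same_Z a (2 * N) (by omega), H.same_Z b (2 * N) (by omega)]
      exact H.BZ _ _ ((Qn_pos hp _ w a).1 0 (by omega)) ((Qn_pos hp _ w' b).1 0 (by omega)) e3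
    have a2 : CH p Y B ≤ CH (Qc p ln B (2 * N + 1)) (fun w => Y (pt (2 * N + 1) w (2 * N)))
        (fun w => (Tt t (2 * N + 1) N w, (B (pt (2 * N + 1) w 0),
          Ee (ecv ec) (2 * N + 1) N w))) := by
      obtain ⟨k, hk⟩ : ∃ k, 2 * N = k + 1 := ⟨2 * N - 1, by omega⟩
      have b1 : CH (Qc p ln B (2 * N)) (fun w => Y (pt (2 * N) w (2 * N)))
          (fun w => (Tt t (2 * N) N w, (B (pt (2 * N) w 0), Ee (ecv ec) (2 * N) N w))) =
          CH (Qc p ln B (2 * N + 1)) (fun w => Y (pt (2 * N + 1) w (2 * N)))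
            (fun w => (Tt t (2 * N + 1) N w, (B (pt (2 * N + 1) w 0),
            Ee (ecv ec) (2 * N + 1) N w))) := by
        rw [← (Qn_fst (c := lk ln B) hp (2 * N)).CH]
        congr 1
        · funext w
          rw [pt_old le_rfl]
        · funext w
          have g1 : Tt t (2 * N) N w.1 = Tt t (2 * N + 1) N w := by
            funext i
            unfold Tt
            rw [pt_old (by have := i.2; omega)]
          have g2 : Ee (ecv ec) (2 * N) N w.1 = Ee (ecv ec) (2 * N + 1) N w := by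
            funext i
            unfold Ee
            rw [pt_old (by have := i.2; omega)]
          rw [g1, g2, pt_old (Nat.zero_le _)]
      rw [← b1, hk]
      refine step_ge hp k Y B ?_ _ ?_
      · rw [lk_odd ln B (by omega)]
        intro ω ω' _ _ e
        simp only [e]
      · intro w w' _ _ e
        have e3 := (Prod.ext_iff.mp e).2
        have g1 : Tt t (k + 1) N w = Tt t (k + 1) N w' := by
          funext i
          exact det_old t (by have := i.2; omega) w w' e3
        have g2 : B (pt (k + 1) w 0) = B (pt (k + 1) w' 0) :=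
          det_old B (by omega) w w' e3
        have g3 : Ee (ecv ec) (k + 1) N w = Ee (ecv ec) (k + 1) N w' := by
          funext i
          exact det_old (ecv ec) (by have := i.2; omega) w w' e3
        simp only [g1, g2, g3]
    have a3 := H.my
    unfold MI at a3
    have a4 : CH p Y (fun ω => (B ω, Z ω)) = CH p Y B :=
      CH_congr hp (fun _ _ _ _ e => (Prod.ext_iff.mp e).1) (fun _ _ _ _ e =>
        (Prod.ext_iff.mp e).1) (fun _ _ _ _ e => (Prod.ext_iff.mp e).1)
        (fun ω ω' a b e => Prod.ext e (H.BZ ω ω' a b e))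
    linarith
  rw [MI_symm hQ] at s2
  unfold MI at s2
  -- the velocities
  have s3 : MI (Qc p ln B (2 * N + 1)) (Ee v (2 * N + 1) (N + 1)) (Tt t (2 * N + 1) N)
      (fun w => (Y (pt (2 * N + 1) w (2 * N)), (B (pt (2 * N + 1) w 0),
        Ee (ecv ec) (2 * N + 1) N w))) ≤ (N + 1) * d := by
    refine (MI_le_CH hQ _ _ _).trans ?_
    have a1 := lines_few H v hfew N (N + 1) le_rfl
    push_cast at a1
    refine le_trans (CH_mono_cond hQ ?_) a1
    intro w w' a b e
    simp only [Prod.mk.injEq] at e ⊢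
    refine ⟨e.2.1, ?_⟩
    funext i
    rcases Nat.lt_or_ge i N with h1 | h1
    · exact congrFun e.2.2 ⟨i, h1⟩
    · have h2 : (i : ℕ) = N := by have := i.2; omega
      unfold Ee
      rw [h2]
      exact Ye H _ _ ((Qn_pos hp _ w a).1 _ (by omega)) ((Qn_pos hp _ w' b).1 _ (by omega)) e.1
  rw [MI_symm hQ] at s3
  unfold MI at s3
  -- the last time
  have hup : CH (Qc p ln B (2 * N + 1)) (fun w => t (pt (2 * N + 1) w (2 * N + 1)))
      (fun w => (Ee v (2 * N + 1) (N + 1) w, (Y (pt (2 * N + 1) w (2 * N)),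
        (B (pt (2 * N + 1) w 0), Ee (ecv ec) (2 * N + 1) N w)))) ≤ X * Real.log 2 := by
    refine Pool.LPX.time_le (Qn_law H.law _) _ _ ?_
    intro w hw
    exact H.t0 _ ((Qn_pos hp _ w hw).1 _ le_rfl)
  have hlo : X * Real.log 2 - d ≤ CH (Qc p ln B (2 * N + 1))
      (fun w => t (pt (2 * N + 1) w (2 * N + 1)))
      (fun w => (Tt t (2 * N + 1) N w, (Ee v (2 * N + 1) (N + 1) w,
        (Y (pt (2 * N + 1) w (2 * N)), (B (pt (2 * N + 1) w 0),
        Ee (ecv ec) (2 * N + 1) N w))))) := by
    refine H.tf.trans ?_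
    refine step_ge hp (2 * N) t ln ?_ _ ?_
    · rw [lk_even ln B (by omega)]
      intro ω ω' _ _ e
      simp only [e]
    · intro w w' _ _ e
      have e3 := (Prod.ext_iff.mp e).2
      have g1 : Tt t (2 * N + 1) N w = Tt t (2 * N + 1) N w' := by
        funext i
        exact det_old t (by have := i.2; omega) w w' e3
      have g2 : B (pt (2 * N + 1) w 0) = B (pt (2 * N + 1) w' 0) :=
        det_old B (by omega) w w' e3
      have g3 : Ee (ecv ec) (2 * N + 1) N w = Ee (ecv ec) (2 * N + 1) N w' := by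
        funext i
        exact det_old (ecv ec) (by have := i.2; omega) w w' e3
      have g4 : Ee v (2 * N + 1) (N + 1) w = Ee v (2 * N + 1) (N + 1) w' := by
        funext i
        exact det_old v (by have := i.2; omega) w w' e3
      have g5 : Y (pt (2 * N + 1) w (2 * N)) = Y (pt (2 * N + 1) w' (2 * N)) :=
        det_old Y (by omega) w w' e3
      simp only [g1, g2, g3, g4, g5]
  have s4 : MI (Qc p ln B (2 * N + 1)) (fun w => t (pt (2 * N + 1) w (2 * N + 1)))
      (Tt t (2 * N + 1) N)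
      (fun w => (Ee v (2 * N + 1) (N + 1) w, (Y (pt (2 * N + 1) w (2 * N)),
        (B (pt (2 * N + 1) w 0), Ee (ecv ec) (2 * N + 1) N w)))) ≤ d := by
    unfold MI
    linarith
  rw [MI_symm hQ] at s4
  unfold MI at s4
  have hNr : (N : ℝ) = d₀ + 1 := by rw [hN]; push_cast; ring
  have e : CH (Qc p ln B (2 * N + 1)) (Tt t (2 * N + 1) N) (Wc B ec Y v t N) =
      CH (Qc p ln B (2 * N + 1)) (Tt t (2 * N + 1) N)
      (fun w => (t (pt (2 * N + 1) w (2 * N + 1)), (Ee v (2 * N + 1) (N + 1) w,
        (Y (pt (2 * N + 1) w (2 * N)), (B (pt (2 * N + 1) w 0),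
        Ee (ecv ec) (2 * N + 1) N w))))) := rfl
  rw [e]
  have e2 : (N : ℝ) * (X * Real.log 2) = d₀ * (X * Real.log 2) + X * Real.log 2 := by
    rw [hNr]
    ring
  rw [e2] at s1
  rw [hNr] at s1 s3
  linarith

end Pool.CHN
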