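import Pool.Agent.H64.CHN.Ent

/-!
# Chains of copies: linear algebra
-/

set_option autoImplicit false

namespace Pool.CHN

open Finset Real Matrix
open Pool.Agent.H49.Ent Pool.Agent.H32.Dense Pool.STK Pool.POT
open Pool.K2S (Pe)
open Pool.LPX (Crd NFz NFu tp)

variable {Ω β Λ υ σ ζ : Type} {d₀ : ℕ}

open Classical in
/-- A representative. -/
noncomputable def rp (p : Ω → ℝ) (B : Ω → β) (w₀ : Ω) (b : β) : Ω :=
  if h : ∃ ω, 0 < p ω ∧ B ω = b then h.choose else w₀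

theorem rp_spec {p : Ω → ℝ} {B : Ω → β} {w₀ ω : Ω} (h : 0 < p ω) : 0 < p (rp p B w₀ (B ω)) ∧ B (rp p B w₀ (B ω)) = B ω := by
  have h1 : ∃ ω', 0 < p ω' ∧ B ω' = B ω := ⟨ω, h, rfl⟩
  unfold rp
  rw [dif_pos h1]
  exact h1.choose_spec

/-! ### Matrices -/

/-- The matrix of the velocities of the lines `L 0, ..., L d₀`. -/
noncomputable def Am (X : ℕ) (ec : Fin d₀ → Ω → ℤ) (L : ℕ → Ω) :
    Matrix (Fin (d₀ + 1)) (Fin (d₀ + 1)) ℝ := Matrix.of fun i j => Xv X ec (L j) i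

/-- The covector of the lines. -/
noncomputable def Mv (X : ℕ) (ec : Fin d₀ → Ω → ℤ) (dv : Ω → ℤ) (L : ℕ → Ω) :
    Fin (d₀ + 1) → ℝ :=
  (fun j : Fin (d₀ + 1) => (dv (L j) : ℝ) / 2 ^ X) ᵥ* (Am X ec L)⁻¹

theorem Mv_eq (X : ℕ) (ec : Fin d₀ → Ω → ℤ) (dv : Ω → ℤ) (L : ℕ → Ω)
    (h : (Am X ec L).det ≠ 0) (j : Fin (d₀ + 1)) :
    ∑ i, Mv X ec dv L i * Xv X ec (L j) i = (dv (L j) : ℝ) / 2 ^ X := by
  have e : (Mv X ec dv L) ᵥ* (Am X ec L) = fun j : Fin (d₀ + 1) => (dv (L j) : ℝ) / 2 ^ X := by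
    unfold Mv
    rw [Matrix.vecMul_vecMul, Matrix.nonsing_inv_mul _ (isUnit_iff_ne_zero.2 h),
      Matrix.vecMul_one]
  exact congrFun e j

/-- The constant. -/
noncomputable def Ka (d₀ : ℕ) (C : ℝ) : ℝ := (Nat.factorial (d₀ + 1) : ℝ) * C ^ (d₀ + 1)

theorem Ka_one {C : ℝ} (hC : 1 ≤ C) : 1 ≤ Ka d₀ C := by
  unfold Ka
  have h1 : (1 : ℝ) ≤ (Nat.factorial (d₀ + 1) : ℝ) := by exact_mod_cast Nat.factorial_pos _
  exact one_le_mul_of_one_le_of_one_le h1 (one_le_pow₀ hC)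

theorem inv_le {A : Matrix (Fin (d₀ + 1)) (Fin (d₀ + 1)) ℝ} {C δ : ℝ} (hC : 1 ≤ C) (hδ : 0 < δ)
    (hA : ∀ i j, |A i j| ≤ C) (hd : δ ≤ |A.det|) (i j : Fin (d₀ + 1)) :
    |A⁻¹ i j| ≤ Ka d₀ C / δ := by
  have h1 : |A.adjugate i j| ≤ Ka d₀ C := by
    rw [Matrix.adjugate_apply]
    have h2 := Matrix.det_le (A := A.updateRow j (Pi.single i 1)) (abv := AbsoluteValue.abs)
      (x := C) (by
        intro a b
        rw [AbsoluteValue.abs_apply]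
        by_cases ha : a = j
        · rw [ha, Matrix.updateRow_self, Pi.single_apply]
          split_ifs
          · rw [abs_one]
            exact hC
          · rw [abs_zero]
            linarith
        · rw [Matrix.updateRow_ne ha]
          exact hA a b)
    rw [AbsoluteValue.abs_apply, Fintype.card_fin, nsmul_eq_mul] at h2
    exact h2
  rw [Matrix.inv_def, Matrix.smul_apply, smul_eq_mul, Ring.inverse_eq_inv', abs_mul, abs_inv]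
  have hdp : 0 < |A.det| := by linarith
  rw [inv_mul_eq_div]
  have hK : 0 ≤ Ka d₀ C := by
    have := Ka_one (d₀ := d₀) hC
    linarith
  calc |A.adjugate i j| / |A.det| ≤ Ka d₀ C / |A.det| := div_le_div_of_nonneg_right h1 hdp.le
    _ ≤ Ka d₀ C / δ := div_le_div_of_nonneg_left hK hδ hd

theorem vecMul_le {A : Matrix (Fin (d₀ + 1)) (Fin (d₀ + 1)) ℝ} {x : Fin (d₀ + 1) → ℝ} {a b : ℝ}
    (ha : ∀ i, |x i| ≤ a) (hb : ∀ i j, |A i j| ≤ b) (ha0 : 0 ≤ a) (j : Fin (d₀ + 1)) :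
    |(x ᵥ* A) j| ≤ (d₀ + 1) * (a * b) := by
  unfold Matrix.vecMul dotProduct
  refine (Finset.abs_sum_le_sum_abs _ _).trans ?_
  calc ∑ i, |x i * A i j| ≤ ∑ _i : Fin (d₀ + 1), a * b := by
        refine Finset.sum_le_sum fun i _ => ?_
        rw [abs_mul]
        exact mul_le_mul (ha i) (hb i j) (abs_nonneg _) ha0
    _ = _ := by
        rw [Finset.sum_const, Finset.card_univ, Fintype.card_fin, nsmul_eq_mul]
        push_cast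
        ring

theorem mulVec_le {A : Matrix (Fin (d₀ + 1)) (Fin (d₀ + 1)) ℝ} {x : Fin (d₀ + 1) → ℝ} {a b : ℝ}
    (ha : ∀ i, |x i| ≤ a) (hb : ∀ i j, |A i j| ≤ b) (ha0 : 0 ≤ a) (j : Fin (d₀ + 1)) :
    |(A *ᵥ x) j| ≤ (d₀ + 1) * (a * b) := by
  unfold Matrix.mulVec dotProduct
  refine (Finset.abs_sum_le_sum_abs _ _).trans ?_
  calc ∑ i, |A j i * x i| ≤ ∑ _i : Fin (d₀ + 1), a * b := by
        refine Finset.sum_le_sum fun i _ => ?_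
        rw [abs_mul, mul_comm]
        exact mul_le_mul (ha i) (hb j i) (abs_nonneg _) ha0
    _ = _ := by
        rw [Finset.sum_const, Finset.card_univ, Fintype.card_fin, nsmul_eq_mul]
        push_cast
        ring

theorem Xv_le {X : ℕ} {ec : Fin d₀ → Ω → ℤ} {C : ℝ} (hC : 1 ≤ C) {ω : Ω}
    (h : ∀ i, |(ec i ω : ℝ)| ≤ C * 2 ^ X) (i : Fin (d₀ + 1)) : |Xv X ec ω i| ≤ C := by
  unfold Xv
  refine Fin.cases ?_ (fun i => ?_) i
  · rw [Fin.cons_zero, abs_one]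
    exact hC
  · rw [Fin.cons_succ, abs_div, abs_of_pos (by positivity : (0 : ℝ) < 2 ^ X),
      div_le_iff₀ (by positivity)]
    exact h i

theorem Mv_le {X : ℕ} {ec : Fin d₀ → Ω → ℤ} {dv : Ω → ℤ} {L : ℕ → Ω} {C δ : ℝ} (hC : 1 ≤ C)
    (hδ : 0 < δ) (hX : ∀ j : ℕ, j < d₀ + 1 → ∀ i, |(ec i (L j) : ℝ)| ≤ C * 2 ^ X)
    (hD : ∀ j : ℕ, j < d₀ + 1 → |(dv (L j) : ℝ)| ≤ C * 2 ^ X) (hd : δ ≤ |(Am X ec L).det|)
    (i : Fin (d₀ + 1)) : |Mv X ec dv L i| ≤ (d₀ + 1) * (C * (Ka d₀ C / δ)) := by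
  unfold Mv
  refine vecMul_le (fun j => ?_) (fun a b => inv_le hC hδ (fun a b => ?_) hd a b) (by linarith) i
  · rw [abs_div, abs_of_pos (by positivity : (0 : ℝ) < 2 ^ X), div_le_iff₀ (by positivity)]
    exact hD j j.2
  · exact Xv_le hC (hX b b.2) a

/-- **Two consecutive covectors.** -/
theorem Mv_shift {X : ℕ} {ec : Fin d₀ → Ω → ℤ} {dv : Ω → ℤ} {L : ℕ → Ω} {C δ κ : ℝ} (hC : 1 ≤ C)
    (hδ : 0 < δ) (hX : ∀ j : ℕ, j < d₀ + 2 → ∀ i, |(ec i (L j) : ℝ)| ≤ C * 2 ^ X)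
    (hd : δ ≤ |(Am X ec L).det|) (hd2 : δ ≤ |(Am X ec fun j => L (j + 1)).det|) (hκ : 0 ≤ κ)
    (h : |∑ i, Mv X ec dv L i * Xv X ec (L (d₀ + 1)) i - (dv (L (d₀ + 1)) : ℝ) / 2 ^ X| ≤ κ)
    (i : Fin (d₀ + 1)) :
    |Mv X ec dv L i - Mv X ec dv (fun j => L (j + 1)) i| ≤ (d₀ + 1) * (κ * (Ka d₀ C / δ)) := by
  have hne : (Am X ec L).det ≠ 0 := by
    intro e
    rw [e, abs_zero] at hd
    linarith
  have hne2 : (Am X ec fun j => L (j + 1)).det ≠ 0 := by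
    intro e
    rw [e, abs_zero] at hd2
    linarith
  obtain ⟨Δ, hΔ⟩ : ∃ Δ : Fin (d₀ + 1) → ℝ, Δ = Mv X ec dv L - Mv X ec dv (fun j => L (j + 1)) :=
    ⟨_, rfl⟩
  have e1 : Δ = (Δ ᵥ* (Am X ec fun j => L (j + 1))) ᵥ* (Am X ec fun j => L (j + 1))⁻¹ := by
    rw [Matrix.vecMul_vecMul, Matrix.mul_nonsing_inv _ (isUnit_iff_ne_zero.2 hne2),
      Matrix.vecMul_one]
  have e2 : ∀ j : Fin (d₀ + 1), |(Δ ᵥ* (Am X ec fun j => L (j + 1))) j| ≤ κ := by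
    intro j
    have e3 : (Δ ᵥ* (Am X ec fun j => L (j + 1))) j =
        ∑ i, Mv X ec dv L i * Xv X ec (L (j + 1)) i - (dv (L (j + 1)) : ℝ) / 2 ^ X := by
      rw [← Mv_eq X ec dv (fun j => L (j + 1)) hne2 j, hΔ]
      unfold Matrix.vecMul dotProduct
      rw [← Finset.sum_sub_distrib]
      refine Finset.sum_congr rfl fun i _ => ?_
      show (Mv X ec dv L i - Mv X ec dv (fun j => L (j + 1)) i) * Xv X ec (L (j + 1)) i = _
      ring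
    rw [e3]
    rcases Nat.lt_or_ge (j + 1) (d₀ + 1) with h1 | h1
    · have e4 := Mv_eq X ec dv L hne ⟨j + 1, h1⟩
      have e5 : ∑ i, Mv X ec dv L i * Xv X ec (L (j + 1)) i = (dv (L (j + 1)) : ℝ) / 2 ^ X := e4
      rw [e5, sub_self, abs_zero]
      exact hκ
    · have e4 : (j : ℕ) = d₀ := by have := j.2; omega
      rw [e4]
      exact h
  have e3 : Mv X ec dv L i - Mv X ec dv (fun j => L (j + 1)) i = Δ i := by rw [hΔ]; rfl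
  rw [e3, e1]
  exact vecMul_le e2 (fun a b => inv_le hC hδ (fun a b => Xv_le hC (hX (b + 1) (by
    have := b.2; omega)) a) hd2 a b) hκ i

/-! ### The relation along a chain -/

variable [Fintype Ω] {p : Ω → ℝ} {B : Ω → β} {ln : Ω → Λ} {Z : Ω → ζ} {Y : Ω → υ} {S : Ω → σ}
  {t : Ω → ℤ} {ec Pc : Fin d₀ → Ω → ℤ} {ap : Fin d₀ → Ω → ℝ} {X : ℕ} {C ρ c₁ d : ℝ}

omit [Fintype Ω] in
/-- One line. -/
theorem line_rel {Λ' : Type} {l : Ω → Λ'} {V dv : Ω → ℤ} {av : Ω → ℝ}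
    (hV : Crd p B l t V dv av X C) {ω ω' : Ω} (a : 0 < p ω) (b : 0 < p ω') (e : l ω = l ω') :
    |(V ω' : ℝ) - V ω - ((t ω' : ℝ) - t ω) * (dv ω / 2 ^ X)| ≤ 2 * C := by
  have h1 := abs_le.1 (hV.rel ω a)
  have h2 := abs_le.1 (hV.rel ω' b)
  rw [← hV.da ω ω' a b e, ← hV.dd ω ω' a b e] at h2
  rw [abs_le]
  constructor <;> linarith [h1.1, h1.2, h2.1, h2.2]

/-- **Along the chain.** -/
theorem sum_rel {Λ' : Type} {l : Ω → Λ'} {V dv : Ω → ℤ} {av : Ω → ℝ} (hp : ∀ ω, 0 ≤ p ω)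
    (hl : Det p ln l) (hV : Crd p B l t V dv av X C) {n : ℕ} {w : Tn Ω n}
    (hw : 0 < Qc p ln B n w) : ∀ m : ℕ, 2 * m ≤ n →
    |(V (pt n w (2 * m)) : ℝ) - V (pt n w 0) - ∑ j ∈ Finset.range m,
      ((t (pt n w (2 * j + 1)) : ℝ) - t (pt n w (2 * j))) * (dv (pt n w (2 * j)) / 2 ^ X)| ≤
      3 * C * m
  | 0, _ => by simp
  | m + 1, hm => by
    have ih := sum_rel hp hl hV hw m (by omega)
    obtain ⟨hpos, -⟩ := Qn_pos hp n w hw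
    have h1 := same_line hp hw (i := m) (by omega)
    have h2 := same_ball hp hw (i := m) (by omega)
    have h3 := line_rel hV (hpos (2 * m) (by omega)) (hpos (2 * m + 1) (by omega))
      (hl _ _ (hpos _ (by omega)) (hpos _ (by omega)) h1)
    have h4 := hV.ball _ _ (hpos (2 * m + 1) (by omega)) (hpos (2 * m + 2) (by omega)) h2
    rw [Finset.sum_range_succ]
    have e : 2 * (m + 1) = 2 * m + 2 := by ring
    rw [e]
    push_cast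
    rw [abs_le] at ih h3 h4 ⊢
    constructor
    · linarith [ih.1, h3.1, h4.2]
    · linarith [ih.2, h3.2, h4.1]

/-- The times telescope. -/
theorem time_tel (hp : ∀ ω, 0 ≤ p ω) (hB : Det p B t) {n : ℕ} {w : Tn Ω n}
    (hw : 0 < Qc p ln B n w) : ∀ m : ℕ, 2 * m ≤ n →
    ∑ j ∈ Finset.range m, ((t (pt n w (2 * j + 1)) : ℝ) - t (pt n w (2 * j))) =
      t (pt n w (2 * m)) - t (pt n w 0)
  | 0, _ => by simp
  | m + 1, hm => by
    rw [Finset.sum_range_succ, time_tel hp hB hw m (by omega)]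
    obtain ⟨hpos, -⟩ := Qn_pos hp n w hw
    have h2 := hB _ _ (hpos (2 * m + 1) (by omega)) (hpos (2 * m + 2) (by omega))
      (same_ball hp hw (i := m) (by omega))
    have e : 2 * (m + 1) = 2 * m + 2 := by ring
    rw [e, ← h2]
    ring

/-- The known part of the position. -/
noncomputable def gk (p : Ω → ℝ) (B : Ω → β) (t : Ω → ℤ) (Pc : Fin d₀ → Ω → ℤ)
    (ap : Fin d₀ → Ω → ℝ) (w₀ : Ω) (b : β) (y : Ω) : Fin (d₀ + 1) → ℝ :=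
  Fin.cons (-(t (rp p B w₀ b) : ℝ)) fun i => ap i y - Pc i (rp p B w₀ b)

/-- The bound of the error of the position. -/
noncomputable def E1 (d₀ : ℕ) (C : ℝ) : ℝ := C * (3 * (d₀ + 1) + 2)

/-- **The equation for the times.** -/
theorem times_rel (H : Chb p B ln Z Y S t ec Pc ap X C ρ c₁ d) (hC : 1 ≤ C) (w₀ : Ω)
    {w : Tn Ω (2 * (d₀ + 1) + 1)} (hw : 0 < Qc p ln B (2 * (d₀ + 1) + 1) w) (i : Fin (d₀ + 1)) :
    |∑ j ∈ Finset.range (d₀ + 1), ((t (pt _ w (2 * j + 1)) : ℝ) - t (pt _ w (2 * j))) *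
        Xv X ec (pt _ w (2 * j)) i -
      (t (pt _ w (2 * (d₀ + 1))) : ℝ) * Xv X ec (pt _ w (2 * (d₀ + 1))) i -
      gk p B t Pc ap w₀ (B (pt _ w 0)) (pt _ w (2 * (d₀ + 1))) i| ≤ E1 d₀ C := by
  have hp := H.law.nonneg
  obtain ⟨hpos, -⟩ := Qn_pos hp _ w hw
  obtain ⟨hr1, hr2⟩ := rp_spec (B := B) (w₀ := w₀) (hpos 0 (by omega))
  refine Fin.cases ?_ (fun i => ?_) i
  · have h1 := time_tel hp H.tB hw (d₀ + 1) (by omega)
    have e1 : ∀ j, Xv X ec (pt (2 * (d₀ + 1) + 1) w j) 0 = 1 := fun j => rfl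
    simp only [e1, mul_one]
    rw [h1]
    have e2 : gk p B t Pc ap w₀ (B (pt (2 * (d₀ + 1) + 1) w 0))
        (pt (2 * (d₀ + 1) + 1) w (2 * (d₀ + 1))) 0 =
        -(t (rp p B w₀ (B (pt (2 * (d₀ + 1) + 1) w 0))) : ℝ) := rfl
    rw [e2, H.tB _ _ hr1 (hpos 0 (by omega)) hr2]
    have e3 : (t (pt (2 * (d₀ + 1) + 1) w (2 * (d₀ + 1))) : ℝ) - t (pt (2 * (d₀ + 1) + 1) w 0) -
        t (pt (2 * (d₀ + 1) + 1) w (2 * (d₀ + 1))) -
        -(t (pt (2 * (d₀ + 1) + 1) w 0) : ℝ) = 0 := by ring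
    rw [e3, abs_zero]
    unfold E1
    positivity
  · have h1 := sum_rel hp H.lY (H.P i) hw (d₀ + 1) (by omega)
    have h2 := (H.P i).rel _ (hpos (2 * (d₀ + 1)) (by omega))
    have h3 := (H.P i).ball _ _ hr1 (hpos 0 (by omega)) hr2
    have e1 : ∀ j, Xv X ec (pt (2 * (d₀ + 1) + 1) w j) i.succ =
        (ec i (pt (2 * (d₀ + 1) + 1) w j) : ℝ) / 2 ^ X := fun j => rfl
    have e2 : gk p B t Pc ap w₀ (B (pt (2 * (d₀ + 1) + 1) w 0))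
        (pt (2 * (d₀ + 1) + 1) w (2 * (d₀ + 1))) i.succ =
        ap i (pt (2 * (d₀ + 1) + 1) w (2 * (d₀ + 1))) -
          Pc i (rp p B w₀ (B (pt (2 * (d₀ + 1) + 1) w 0))) := rfl
    simp only [e1]
    rw [e2]
    unfold E1
    push_cast at h1
    rw [abs_le] at h1 h2 h3 ⊢
    constructor
    · linarith [h1.1, h1.2, h2.1, h2.2, h3.1, h3.2]
    · linarith [h1.1, h1.2, h2.1, h2.2, h3.1, h3.2]

/-- The slope. -/
noncomputable def kv (X : ℕ) (ec : Fin d₀ → Ω → ℤ) (dv : Ω → ℤ) (L : ℕ → Ω) : ℝ :=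
  ∑ i, Mv X ec dv L i * Xv X ec (L (d₀ + 1)) i - (dv (L (d₀ + 1)) : ℝ) / 2 ^ X

/-- The known part of the coordinate. -/
noncomputable def Av (p : Ω → ℝ) (B : Ω → β) (t : Ω → ℤ) (Pc : Fin d₀ → Ω → ℤ)
    (ap : Fin d₀ → Ω → ℝ) (X : ℕ) (ec : Fin d₀ → Ω → ℤ) (V dv : Ω → ℤ) (w₀ : Ω)
    (w : Tn Ω (2 * (d₀ + 1) + 1)) : ℝ :=
  V (rp p B w₀ (B (pt _ w 0))) +
    ∑ i, Mv X ec dv (fun j => pt _ w (2 * j)) i *
      gk p B t Pc ap w₀ (B (pt _ w 0)) (pt _ w (2 * (d₀ + 1))) i +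
    t (pt _ w (2 * (d₀ + 1) + 1)) * ((dv (pt _ w (2 * (d₀ + 1))) : ℝ) / 2 ^ X)

/-- **The relation for the coordinate**: `V` at the end is `A + t k`, with the time `t` of the last
meeting; `dv'` are approximate velocities. -/
theorem coord_rel (H : Chb p B ln Z Y S t ec Pc ap X C ρ c₁ d) (hC : 1 ≤ C) (w₀ : Ω) {V dv : Ω → ℤ}
    {av : Ω → ℝ} (hV : Crd p B ln t V dv av X C) (dv' : Ω → ℤ) {η : ℝ}
    (hη : ∀ ω, 0 < p ω → |(dv ω : ℝ) - dv' ω| ≤ η)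
    (hdv : ∀ ω, 0 < p ω → |(dv' ω : ℝ)| ≤ C * 2 ^ X) {δ : ℝ} (hδ : 0 < δ)
    {w : Tn Ω (2 * (d₀ + 1) + 1)} (hw : 0 < Qc p ln B (2 * (d₀ + 1) + 1) w)
    (hd : δ ≤ |(Am X ec fun j => pt _ w (2 * j)).det|) :
    |(V (pt _ w (2 * (d₀ + 1) + 1)) : ℝ) - (Av p B t Pc ap X ec V dv' w₀ w +
      t (pt _ w (2 * (d₀ + 1))) * kv X ec dv' fun j => pt _ w (2 * j))| ≤
      3 * C * (d₀ + 2) + (d₀ + 2) * η + (d₀ + 1) * ((d₀ + 1) * (C * (Ka d₀ C / δ)) * E1 d₀ C) := by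
  have hp := H.law.nonneg
  have hX : (0 : ℝ) < 2 ^ X := by positivity
  obtain ⟨hpos, -⟩ := Qn_pos hp _ w hw
  obtain ⟨hr1, hr2⟩ := rp_spec (B := B) (w₀ := w₀) (hpos 0 (by omega))
  obtain ⟨n, hn⟩ : ∃ n, n = 2 * (d₀ + 1) + 1 := ⟨_, rfl⟩
  have hne : (Am X ec fun j => pt (2 * (d₀ + 1) + 1) w (2 * j)).det ≠ 0 := by
    intro e
    rw [e, abs_zero] at hd
    linarith
  obtain ⟨τ, hτ⟩ : ∃ τ : ℕ → ℝ, τ = fun j => (t (pt (2 * (d₀ + 1) + 1) w (2 * j + 1)) : ℝ) -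
      t (pt (2 * (d₀ + 1) + 1) w (2 * j)) := ⟨_, rfl⟩
  have hτb : ∀ j, 2 * j + 1 ≤ 2 * (d₀ + 1) + 1 → |τ j| ≤ 2 ^ X := by
    intro j hj
    have e1 := H.t0 _ (hpos (2 * j + 1) hj)
    have e2 := H.t0 _ (hpos (2 * j) (by omega))
    have f1 : (0 : ℝ) ≤ t (pt (2 * (d₀ + 1) + 1) w (2 * j + 1)) := by exact_mod_cast e1.1
    have f2 : (t (pt (2 * (d₀ + 1) + 1) w (2 * j + 1)) : ℝ) < 2 ^ X := by exact_mod_cast e1.2
    have f3 : (0 : ℝ) ≤ t (pt (2 * (d₀ + 1) + 1) w (2 * j)) := by exact_mod_cast e2.1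
    have f4 : (t (pt (2 * (d₀ + 1) + 1) w (2 * j)) : ℝ) < 2 ^ X := by exact_mod_cast e2.2
    rw [hτ, abs_le]
    constructor <;> linarith
  -- the chain, with the exact velocities
  have h1 := sum_rel hp (fun ω ω' _ _ e => e) hV hw (d₀ + 1) (by omega)
  have h2 := line_rel hV (hpos (2 * (d₀ + 1)) (by omega)) (hpos (2 * (d₀ + 1) + 1) (by omega))
    (same_line hp hw (i := d₀ + 1) (by omega))
  have h3 := hV.ball _ _ hr1 (hpos 0 (by omega)) hr2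
  -- the passage to the approximate velocities
  have hdiff : ∀ j, 2 * j + 1 ≤ 2 * (d₀ + 1) + 1 →
      |τ j * ((dv (pt (2 * (d₀ + 1) + 1) w (2 * j)) : ℝ) / 2 ^ X) -
        τ j * ((dv' (pt (2 * (d₀ + 1) + 1) w (2 * j)) : ℝ) / 2 ^ X)| ≤ η := by
    intro j hj
    have e1 := hη _ (hpos (2 * j) (by omega))
    have e2 : τ j * ((dv (pt (2 * (d₀ + 1) + 1) w (2 * j)) : ℝ) / 2 ^ X) -
        τ j * ((dv' (pt (2 * (d₀ + 1) + 1) w (2 * j)) : ℝ) / 2 ^ X) = τ j / 2 ^ X *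
        ((dv (pt (2 * (d₀ + 1) + 1) w (2 * j)) : ℝ) - dv' (pt (2 * (d₀ + 1) + 1) w (2 * j))) := by
      ring
    rw [e2, abs_mul, abs_div, abs_of_pos hX]
    have e3 : |τ j| / 2 ^ X ≤ 1 := by
      rw [div_le_one hX]
      exact hτb j hj
    calc |τ j| / 2 ^ X * |(dv (pt (2 * (d₀ + 1) + 1) w (2 * j)) : ℝ) -
          dv' (pt (2 * (d₀ + 1) + 1) w (2 * j))| ≤ 1 * η :=
          mul_le_mul e3 e1 (abs_nonneg _) zero_le_one
      _ = η := one_mul _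
  have h4 : |∑ j ∈ Finset.range (d₀ + 1), τ j * ((dv (pt (2 * (d₀ + 1) + 1) w (2 * j)) : ℝ) /
      2 ^ X) - ∑ j ∈ Finset.range (d₀ + 1), τ j * ((dv' (pt (2 * (d₀ + 1) + 1) w (2 * j)) : ℝ) /
      2 ^ X)| ≤ (d₀ + 1) * η := by
    rw [← Finset.sum_sub_distrib]
    refine (Finset.abs_sum_le_sum_abs _ _).trans ?_
    calc ∑ j ∈ Finset.range (d₀ + 1), |τ j * ((dv (pt (2 * (d₀ + 1) + 1) w (2 * j)) : ℝ) /
          2 ^ X) - τ j * ((dv' (pt (2 * (d₀ + 1) + 1) w (2 * j)) : ℝ) / 2 ^ X)| ≤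
        ∑ _j ∈ Finset.range (d₀ + 1), η := Finset.sum_le_sum fun j hj =>
          hdiff j (by have := Finset.mem_range.1 hj; omega)
      _ = _ := by
          rw [Finset.sum_const, Finset.card_range, nsmul_eq_mul]
          push_cast
          ring
  have h5 := hdiff (d₀ + 1) le_rfl
  -- the covector
  obtain ⟨M, hM⟩ : ∃ M : Fin (d₀ + 1) → ℝ,
    M = Mv X ec dv' (fun j => pt (2 * (d₀ + 1) + 1) w (2 * j)) := ⟨_, rfl⟩
  have hMb : ∀ i, |M i| ≤ (d₀ + 1) * (C * (Ka d₀ C / δ)) := by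
    intro i
    rw [hM]
    exact Mv_le hC hδ (fun j _ i => (H.P i).siz _ (hpos _ (by omega)))
      (fun j _ => hdv _ (hpos _ (by omega))) hd i
  have hMe : ∀ j : ℕ, j < d₀ + 1 → (dv' (pt (2 * (d₀ + 1) + 1) w (2 * j)) : ℝ) / 2 ^ X =
      ∑ i, M i * Xv X ec (pt (2 * (d₀ + 1) + 1) w (2 * j)) i := by
    intro j hj
    rw [hM]
    exact (Mv_eq X ec dv' (fun j => pt (2 * (d₀ + 1) + 1) w (2 * j)) hne ⟨j, hj⟩).symm
  have h6 : ∑ j ∈ Finset.range (d₀ + 1), τ j * ((dv' (pt (2 * (d₀ + 1) + 1) w (2 * j)) : ℝ) /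
      2 ^ X) = ∑ i, M i * ∑ j ∈ Finset.range (d₀ + 1),
        τ j * Xv X ec (pt (2 * (d₀ + 1) + 1) w (2 * j)) i := by
    rw [Finset.sum_congr rfl fun j hj => by rw [hMe j (Finset.mem_range.1 hj)]]
    simp only [Finset.mul_sum]
    rw [Finset.sum_comm]
    refine Finset.sum_congr rfl fun i _ => Finset.sum_congr rfl fun j _ => ?_
    ring
  have h7 : |∑ i, M i * ∑ j ∈ Finset.range (d₀ + 1),
        τ j * Xv X ec (pt (2 * (d₀ + 1) + 1) w (2 * j)) i -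
      ∑ i, M i * ((t (pt (2 * (d₀ + 1) + 1) w (2 * (d₀ + 1))) : ℝ) *
        Xv X ec (pt (2 * (d₀ + 1) + 1) w (2 * (d₀ + 1))) i +
        gk p B t Pc ap w₀ (B (pt (2 * (d₀ + 1) + 1) w 0))
          (pt (2 * (d₀ + 1) + 1) w (2 * (d₀ + 1))) i)| ≤
      (d₀ + 1) * ((d₀ + 1) * (C * (Ka d₀ C / δ)) * E1 d₀ C) := by
    rw [← Finset.sum_sub_distrib]
    refine (Finset.abs_sum_le_sum_abs _ _).trans ?_
    have hK : 0 ≤ Ka d₀ C := by
      have := Ka_one (d₀ := d₀) hC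
      linarith
    calc _ ≤ ∑ _i : Fin (d₀ + 1), (d₀ + 1) * (C * (Ka d₀ C / δ)) * E1 d₀ C := by
          refine Finset.sum_le_sum fun i _ => ?_
          have e1 := times_rel H hC w₀ hw i
          rw [← mul_sub, abs_mul]
          refine mul_le_mul (hMb i) ?_ (abs_nonneg _) (by positivity)
          rw [hτ]
          rwa [← sub_sub]
      _ = _ := by
          rw [Finset.sum_const, Finset.card_univ, Fintype.card_fin, nsmul_eq_mul]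
          push_cast
          ring
  have h8 : ∑ i, M i * ((t (pt (2 * (d₀ + 1) + 1) w (2 * (d₀ + 1))) : ℝ) *
        Xv X ec (pt (2 * (d₀ + 1) + 1) w (2 * (d₀ + 1))) i +
        gk p B t Pc ap w₀ (B (pt (2 * (d₀ + 1) + 1) w 0))
          (pt (2 * (d₀ + 1) + 1) w (2 * (d₀ + 1))) i) =
      (t (pt (2 * (d₀ + 1) + 1) w (2 * (d₀ + 1))) : ℝ) *
        ∑ i, M i * Xv X ec (pt (2 * (d₀ + 1) + 1) w (2 * (d₀ + 1))) i +
      ∑ i, M i * gk p B t Pc ap w₀ (B (pt (2 * (d₀ + 1) + 1) w 0))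
          (pt (2 * (d₀ + 1) + 1) w (2 * (d₀ + 1))) i := by
    rw [Finset.mul_sum, ← Finset.sum_add_distrib]
    refine Finset.sum_congr rfl fun i _ => ?_
    ring
  rw [h8] at h7
  rw [h6] at h4
  unfold Av kv
  rw [← hM]
  have e9 : τ (d₀ + 1) = (t (pt (2 * (d₀ + 1) + 1) w (2 * (d₀ + 1) + 1)) : ℝ) -
      t (pt (2 * (d₀ + 1) + 1) w (2 * (d₀ + 1))) := by rw [hτ]
  rw [e9] at h5
  have e10 : ∑ j ∈ Finset.range (d₀ + 1),
      ((t (pt (2 * (d₀ + 1) + 1) w (2 * j + 1)) : ℝ) - t (pt (2 * (d₀ + 1) + 1) w (2 * j))) *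
        ((dv (pt (2 * (d₀ + 1) + 1) w (2 * j)) : ℝ) / 2 ^ X) =
      ∑ j ∈ Finset.range (d₀ + 1), τ j * ((dv (pt (2 * (d₀ + 1) + 1) w (2 * j)) : ℝ) /
      2 ^ X) := by rw [hτ]
  rw [e10] at h1
  push_cast at h1
  have e11 : (dv' ((fun j => pt (2 * (d₀ + 1) + 1) w (2 * j)) (d₀ + 1)) : ℝ) =
      dv' (pt (2 * (d₀ + 1) + 1) w (2 * (d₀ + 1))) := rfl
  beta_reduce
  rw [abs_le] at h1 h2 h3 h4 h5 h7 ⊢
  constructor
  · nlinarith [h1.1, h2.1, h3.1, h4.1, h5.1, h7.1, h1.2, h2.2, h3.2, h4.2, h5.2, h7.2]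
  · nlinarith [h1.1, h2.1, h3.1, h4.1, h5.1, h7.1, h1.2, h2.2, h3.2, h4.2, h5.2, h7.2]

end Pool.CHN
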