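import Pool.Agent.H97.CHN.Co2

/-!
# Chains of copies: the numbers
-/

set_option autoImplicit false

namespace Pool.CHN

open Finset Real
open Pool.Agent.H49.Ent Pool.Agent.H32.Dense Pool.STK Pool.POT Pool.TQ
open Pool.K2S (Pe)
open Pool.LPX (Crd NFz NFu tp)

/-! ### Constants -/

/-- The total factor. -/
noncomputable def Fd (d₀ : ℕ) (C δ : ℝ) : ℝ :=
  4 * ((d₀ : ℝ) + 1) ^ 3 * C * (Ka d₀ C / δ) * Cc d₀ C δ

theorem R1_div (d₀ : ℕ) (C δ : ℝ) : R1 d₀ C δ = R1 d₀ C 1 / δ := by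
  unfold R1
  rw [div_one]
  ring

theorem Cc_div {d₀ : ℕ} {C δ : ℝ} (hC : 1 ≤ C) (hδ : 0 < δ) (hδ1 : δ ≤ 1) :
    Cc d₀ C δ ≤ Cc d₀ C 1 / δ := by
  have hK := Ka_one (d₀ := d₀) hC
  have hd : (0 : ℝ) ≤ d₀ := Nat.cast_nonneg d₀
  have h1 : (1 : ℝ) ≤ 1 / δ := by
    rw [le_div_iff₀ hδ]
    linarith
  have e : Cc d₀ C 1 / δ - Cc d₀ C δ = (3 * C * (d₀ + 2) + C) * (1 / δ - 1) := by
    unfold Cc Ce Kb
    rw [div_one]
    ring
  have h2 : 0 ≤ (3 * C * ((d₀ : ℝ) + 2) + C) * (1 / δ - 1) :=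
    mul_nonneg (by positivity) (by linarith)
  linarith

theorem Fd_div {d₀ : ℕ} {C δ : ℝ} (hC : 1 ≤ C) (hδ : 0 < δ) (hδ1 : δ ≤ 1) :
    Fd d₀ C δ ≤ Fd d₀ C 1 / (δ * δ) := by
  have hK := Ka_one (d₀ := d₀) hC
  have hc := Cc_div (d₀ := d₀) hC hδ hδ1
  have h0 : 0 ≤ 4 * ((d₀ : ℝ) + 1) ^ 3 * C * (Ka d₀ C / δ) := by positivity
  have h1 := mul_le_mul_of_nonneg_left hc h0
  refine h1.trans (le_of_eq ?_)
  unfold Fd
  rw [div_one]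
  field_simp

theorem Fd_ge {d₀ : ℕ} {C δ : ℝ} (hC : 1 ≤ C) (hδ : 0 < δ) (hδ1 : δ ≤ 1) :
    4 * ((d₀ : ℝ) + 1) * Cc d₀ C δ ≤ Fd d₀ C δ := by
  have hK := Ka_one (d₀ := d₀) hC
  have hc := Cc_one (d₀ := d₀) hC hδ
  have hd : (0 : ℝ) ≤ d₀ := Nat.cast_nonneg d₀
  have h1 : 1 ≤ Ka d₀ C / δ := by
    rw [le_div_iff₀ hδ]
    linarith
  have h2 : 1 ≤ C * (Ka d₀ C / δ) := one_le_mul_of_one_le_of_one_le hC h1
  have h3 : ((d₀ : ℝ) + 1) * 1 ≤ ((d₀ : ℝ) + 1) * ((d₀ : ℝ) + 1) ^ 2 :=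
    mul_le_mul_of_nonneg_left (one_le_pow₀ (by linarith)) (by linarith)
  have h4 : ((d₀ : ℝ) + 1) * 1 ≤ ((d₀ : ℝ) + 1) ^ 3 * (C * (Ka d₀ C / δ)) := by
    have h5 : ((d₀ : ℝ) + 1) ^ 3 * 1 ≤ ((d₀ : ℝ) + 1) ^ 3 * (C * (Ka d₀ C / δ)) :=
      mul_le_mul_of_nonneg_left h2 (by positivity)
    have h6 : ((d₀ : ℝ) + 1) * ((d₀ : ℝ) + 1) ^ 2 = ((d₀ : ℝ) + 1) ^ 3 * 1 := by ring
    linarith
  have h7 := mul_le_mul_of_nonneg_right h4 (by linarith : (0 : ℝ) ≤ 4 * Cc d₀ C δ)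
  unfold Fd
  calc 4 * ((d₀ : ℝ) + 1) * Cc d₀ C δ = ((d₀ : ℝ) + 1) * 1 * (4 * Cc d₀ C δ) := by ring
    _ ≤ _ := h7
    _ = _ := by ring

/-- **The bound of the total error.** -/
theorem Er_le {d₀ X g Kn : ℕ} {C δ c ϖ' ϖ d η L : ℝ} (hC : 1 ≤ C) (hδ : 0 < δ) (hδ1 : δ ≤ 1)
    (hL : Real.log δ = -L) (hϖ' : 0 < ϖ') (hη : 0 < η) (hd : 0 ≤ d)
    (a1 : d * (1 + (3 * ((d₀ : ℝ) + 1) + 3) / ϖ') ≤ η * X)
    (a2 : 1 / ϖ' / Kn ≤ η) (a3 : 1 / ϖ' * ϖ ≤ η) (a4 : ((d₀ : ℝ) + 1) * L / ϖ' ≤ η * X)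
    (a5 : c * ((d₀ : ℝ) + 1) / ϖ' ≤ η) (a6 : (g : ℝ) ≤ η * X + 1) (a7 : 4 * L ≤ η * X) :
    Er d₀ X g Kn C δ c ϖ' ϖ d ≤ 8 * (η * X) + (4 * η + Real.log (Kn + 1) +
      ((d₀ : ℝ) + 1) * Real.log (2 * R1 d₀ C 1 + 1) / ϖ' + 2 +
      4 * Real.log (9 * Cc d₀ C 1)) := by
  have hl2 : 0 < Real.log 2 := Real.log_pos (by norm_num)
  have hl2' : Real.log 2 ≤ 1 := by
    have := Real.log_le_sub_one_of_pos (by norm_num : (0 : ℝ) < 2)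
    linarith
  have hl5 : Real.log 5 ≤ 2 := by
    have h1 : Real.log 5 ≤ Real.log ((2.7182818283 : ℝ) ^ 2) :=
      Real.log_le_log (by norm_num) (by norm_num)
    have h2 : Real.log (2.7182818283 : ℝ) ≤ 1 := by
      have h3 := Real.exp_one_gt_d9
      have h4 := Real.log_le_log (by norm_num : (0 : ℝ) < 2.7182818283) h3.le
      rwa [Real.log_exp] at h4
    rw [Real.log_pow] at h1
    push_cast at h1
    linarith
  have hX : (0 : ℝ) ≤ X := Nat.cast_nonneg X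
  have hR := R1_nonneg (d₀ := d₀) hC (one_pos)
  have hCc := Cc_one (d₀ := d₀) hC (one_pos)
  -- the logarithms
  have b1 : Real.log (2 * R1 d₀ C δ + 1) ≤ Real.log (2 * R1 d₀ C 1 + 1) + L := by
    have e1 : 2 * R1 d₀ C δ + 1 ≤ (2 * R1 d₀ C 1 + 1) / δ := by
      rw [R1_div d₀ C δ, add_div]
      have : 1 ≤ 1 / δ := by
        rw [le_div_iff₀ hδ]
        linarith
      have e2 : 2 * (R1 d₀ C 1 / δ) = 2 * R1 d₀ C 1 / δ := by ring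
      linarith
    have e2 := Real.log_le_log (by
      have := R1_nonneg (d₀ := d₀) hC hδ
      linarith) e1
    rw [Real.log_div (by linarith) hδ.ne', hL] at e2
    linarith
  have b2 : Real.log (9 * Cc d₀ C δ) ≤ Real.log (9 * Cc d₀ C 1) + L := by
    have e1 : 9 * Cc d₀ C δ ≤ (9 * Cc d₀ C 1) / δ := by
      have := Cc_div (d₀ := d₀) hC hδ hδ1
      have e2 : 9 * Cc d₀ C 1 / δ = 9 * (Cc d₀ C 1 / δ) := by ring
      linarith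
    have e2 := Real.log_le_log (by
      have := Cc_one (d₀ := d₀) hC hδ
      linarith) e1
    rw [Real.log_div (by linarith) hδ.ne', hL] at e2
    linarith
  have b3 : (1 / ϖ' / Kn + 1 / ϖ' * ϖ) * (X * Real.log 2 + Real.log 5) ≤
      2 * (η * X) + 4 * η := by
    have e1 : X * Real.log 2 + Real.log 5 ≤ X + 2 := by
      have : X * Real.log 2 ≤ X * 1 := mul_le_mul_of_nonneg_left hl2' hX
      linarith
    have e0 : 0 ≤ X * Real.log 2 + Real.log 5 := by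
      have : 0 ≤ Real.log 5 := Real.log_nonneg (by norm_num)
      positivity
    calc (1 / ϖ' / Kn + 1 / ϖ' * ϖ) * (X * Real.log 2 + Real.log 5) ≤
        (2 * η) * (X * Real.log 2 + Real.log 5) :=
          mul_le_mul_of_nonneg_right (by linarith) e0
      _ ≤ (2 * η) * (X + 2) := mul_le_mul_of_nonneg_left e1 (by positivity)
      _ = _ := by ring
  have b4 : D0 d₀ X C δ c d / ϖ' ≤ (3 * ((d₀ : ℝ) + 1) + 3) / ϖ' * d +
      ((d₀ : ℝ) + 1) * Real.log (2 * R1 d₀ C 1 + 1) / ϖ' + η * X + η * X := by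
    unfold D0
    rw [add_div, add_div]
    have e1 : (3 * ((d₀ : ℝ) + 1) + 3) * d / ϖ' = (3 * ((d₀ : ℝ) + 1) + 3) / ϖ' * d := by ring
    have e2 : ((d₀ : ℝ) + 1) * Real.log (2 * R1 d₀ C δ + 1) / ϖ' ≤
        ((d₀ : ℝ) + 1) * Real.log (2 * R1 d₀ C 1 + 1) / ϖ' + ((d₀ : ℝ) + 1) * L / ϖ' := by
      rw [← add_div]
      refine div_le_div_of_nonneg_right ?_ hϖ'.le
      rw [← mul_add]
      exact mul_le_mul_of_nonneg_left b1 (by positivity)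
    have e3 : c * (((d₀ : ℝ) + 1) * (X * Real.log 2)) / ϖ' ≤ η * X := by
      have e4 : c * (((d₀ : ℝ) + 1) * (X * Real.log 2)) / ϖ' =
          c * ((d₀ : ℝ) + 1) / ϖ' * (X * Real.log 2) := by ring
      rw [e4]
      calc c * ((d₀ : ℝ) + 1) / ϖ' * (X * Real.log 2) ≤ η * (X * Real.log 2) :=
            mul_le_mul_of_nonneg_right a5 (by positivity)
        _ ≤ η * (X * 1) := by
            refine mul_le_mul_of_nonneg_left ?_ hη.le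
            exact mul_le_mul_of_nonneg_left hl2' hX
        _ = _ := by ring
    linarith
  have b5 : 2 * (g : ℝ) * Real.log 2 ≤ 2 * (η * X) + 2 := by
    calc 2 * (g : ℝ) * Real.log 2 ≤ 2 * (g : ℝ) * 1 :=
          mul_le_mul_of_nonneg_left hl2' (by positivity)
      _ ≤ _ := by linarith
  have b6 : d * (1 + (3 * ((d₀ : ℝ) + 1) + 3) / ϖ') =
      d + (3 * ((d₀ : ℝ) + 1) + 3) / ϖ' * d := by ring
  unfold Er
  linarith

/-- The slab parameter. -/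
noncomputable def dl (ε' : ℝ) (d₀ X : ℕ) : ℝ := ((2 : ℝ) ^ (-(ε' * X))) ^ d₀

theorem dl_pos (ε' : ℝ) (d₀ X : ℕ) : 0 < dl ε' d₀ X := by
  unfold dl
  positivity

theorem dl_one {ε' : ℝ} (h : 0 ≤ ε') (d₀ X : ℕ) : dl ε' d₀ X ≤ 1 := by
  unfold dl
  refine pow_le_one₀ (by positivity) ?_
  exact Real.rpow_le_one_of_one_le_of_nonpos (by norm_num) (by
    have : 0 ≤ ε' * X := mul_nonneg h (Nat.cast_nonneg X)
    linarith)

theorem log_dl (ε' : ℝ) (d₀ X : ℕ) :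
    Real.log (dl ε' d₀ X) = -(d₀ * (ε' * X * Real.log 2)) := by
  unfold dl
  rw [Real.log_pow, Real.log_rpow (by norm_num)]
  ring

/-- **The choice of the numbers.** -/
theorem numbers (d₀ : ℕ) {C η c : ℝ} (hC : 1 ≤ C) (hη : 0 < η) (hc : 0 < c) :
    ∃ (c₁ ε' κ ϖ ϖ' : ℝ) (Nc Kn : ℕ), 0 < c₁ ∧ 0 < ε' ∧ 0 < κ ∧ 0 < ϖ ∧ 0 < ϖ' ∧ 0 < Kn ∧
      d₀ * c₁ ≤ c ∧ 4 * ((Nc : ℝ) + 1) ^ 2 * ϖ' ≤ c ∧ ∃ X₀ : ℕ, ∀ X : ℕ, X₀ ≤ X →
      ∃ g : ℕ, X ≤ Nc * g ∧ Fd d₀ C (dl ε' d₀ X) ≤ (2 : ℝ) ^ (η * X) ∧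
      ∀ d : ℝ, 0 ≤ d → d ≤ κ * X →
        Er d₀ X g Kn C (dl ε' d₀ X) (d₀ * c₁) ϖ' ϖ d ≤ η * X := by
  have hl2 : 0 < Real.log 2 := Real.log_pos (by norm_num)
  have hl2' : Real.log 2 ≤ 1 := by
    have := Real.log_le_sub_one_of_pos (by norm_num : (0 : ℝ) < 2)
    linarith
  have hd0 : (0 : ℝ) ≤ d₀ := Nat.cast_nonneg d₀
  obtain ⟨D, hD⟩ : ∃ D : ℝ, D = (d₀ : ℝ) + 1 := ⟨_, rfl⟩
  have hD1 : 1 ≤ D := by linarith
  have hdD : (d₀ : ℝ) ≤ D := by linarith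
  obtain ⟨η', hη'⟩ : ∃ η', η' = η / 16 := ⟨_, rfl⟩
  have hη'0 : 0 < η' := by rw [hη']; positivity
  obtain ⟨Nc, hNc⟩ : ∃ Nc, Nc = ⌈1 / η'⌉₊ := ⟨_, rfl⟩
  have hNc1 : 1 / η' ≤ Nc := by rw [hNc]; exact Nat.le_ceil _
  obtain ⟨ϖ', hϖ'⟩ : ∃ ϖ', ϖ' = c / (4 * ((Nc : ℝ) + 1) ^ 2) := ⟨_, rfl⟩
  have hϖ'0 : 0 < ϖ' := by rw [hϖ']; positivity
  have hϖ'1 : 4 * ((Nc : ℝ) + 1) ^ 2 * ϖ' = c := by
    rw [hϖ']
    field_simp
  obtain ⟨Kn, hKn⟩ : ∃ Kn, Kn = ⌈1 / (ϖ' * η')⌉₊ + 1 := ⟨_, rfl⟩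
  have hKn0 : 0 < Kn := by omega
  have hKn1 : 1 / (ϖ' * η') ≤ Kn := by
    have := Nat.le_ceil (1 / (ϖ' * η'))
    rw [hKn]
    push_cast
    linarith
  obtain ⟨ϖ, hϖ⟩ : ∃ ϖ, ϖ = η' * ϖ' := ⟨_, rfl⟩
  have hϖ0 : 0 < ϖ := by rw [hϖ]; positivity
  obtain ⟨κ, hκ⟩ : ∃ κ, κ = η' / (1 + (3 * D + 3) / ϖ') := ⟨_, rfl⟩
  have hκ0 : 0 < κ := by rw [hκ]; positivity
  obtain ⟨c₁, hc₁⟩ : ∃ c₁, c₁ = min (c / D) (η' * ϖ' / (D * D)) := ⟨_, rfl⟩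
  have hc₁0 : 0 < c₁ := by
    rw [hc₁]
    exact lt_min (by positivity) (by positivity)
  have hc₁1 : D * c₁ ≤ c := by
    have h1 : c₁ ≤ c / D := by rw [hc₁]; exact min_le_left _ _
    rw [le_div_iff₀ (by linarith)] at h1
    linarith
  have hc₁2 : c₁ * (D * D) ≤ η' * ϖ' := by
    have h1 : c₁ ≤ η' * ϖ' / (D * D) := by rw [hc₁]; exact min_le_right _ _
    rwa [le_div_iff₀ (by positivity)] at h1
  have hdc : d₀ * c₁ ≤ D * c₁ := mul_le_mul_of_nonneg_right hdD hc₁0.le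
  obtain ⟨ε', hε'⟩ : ∃ ε', ε' = min (η' * ϖ' / (D * D)) (η' / (4 * D)) := ⟨_, rfl⟩
  have hε'0 : 0 < ε' := by
    rw [hε']
    exact lt_min (by positivity) (by positivity)
  have hε'1 : ε' * (D * D) ≤ η' * ϖ' := by
    have h1 : ε' ≤ η' * ϖ' / (D * D) := by rw [hε']; exact min_le_left _ _
    rwa [le_div_iff₀ (by positivity)] at h1
  have hε'2 : ε' * (4 * D) ≤ η' := by
    have h1 : ε' ≤ η' / (4 * D) := by rw [hε']; exact min_le_right _ _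
    rwa [le_div_iff₀ (by positivity)] at h1
  obtain ⟨B₁, hB₁⟩ : ∃ B₁, B₁ = 4 * η' + Real.log ((Kn : ℝ) + 1) +
      ((d₀ : ℝ) + 1) * Real.log (2 * R1 d₀ C 1 + 1) / ϖ' + 2 +
      4 * Real.log (9 * Cc d₀ C 1) := ⟨_, rfl⟩
  obtain ⟨B₂, hB₂⟩ : ∃ B₂, B₂ = Real.log (Fd d₀ C 1) / Real.log 2 := ⟨_, rfl⟩
  refine ⟨c₁, ε', κ, ϖ, ϖ', Nc, Kn, hc₁0, hε'0, hκ0, hϖ0, hϖ'0, hKn0, hdc.trans hc₁1,
    hϖ'1.le, max ⌈B₁ / η'⌉₊ ⌈B₂ / η'⌉₊, fun X hX => ?_⟩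
  have hX0 : (0 : ℝ) ≤ X := Nat.cast_nonneg X
  have hX1 : B₁ ≤ η' * X := by
    have h1 : ⌈B₁ / η'⌉₊ ≤ X := (le_max_left _ _).trans hX
    have h2 : B₁ / η' ≤ X := (Nat.le_ceil _).trans (by exact_mod_cast h1)
    rw [div_le_iff₀ hη'0] at h2
    linarith
  have hX2 : B₂ ≤ η' * X := by
    have h1 : ⌈B₂ / η'⌉₊ ≤ X := (le_max_right _ _).trans hX
    have h2 : B₂ / η' ≤ X := (Nat.le_ceil _).trans (by exact_mod_cast h1)
    rw [div_le_iff₀ hη'0] at h2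
    linarith
  obtain ⟨L, hL⟩ : ∃ L : ℝ, L = d₀ * (ε' * X * Real.log 2) := ⟨_, rfl⟩
  have hL0 : 0 ≤ L := by rw [hL]; positivity
  have hLD : L ≤ D * ε' * X * Real.log 2 := by
    have : (d₀ : ℝ) * (ε' * X * Real.log 2) ≤ D * (ε' * X * Real.log 2) :=
      mul_le_mul_of_nonneg_right hdD (by positivity)
    rw [hL]
    linarith
  have hLD1 : L ≤ D * ε' * X := by
    refine hLD.trans ?_
    exact mul_le_of_le_one_right (by positivity) hl2'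
  have hlog : Real.log (dl ε' d₀ X) = -L := by rw [log_dl, hL]
  have hδ := dl_pos ε' d₀ X
  have hδ1 := dl_one hε'0.le d₀ X
  refine ⟨⌈η' * X⌉₊, ?_, ?_, fun d hd hdκ => ?_⟩
  · have h1 : (X : ℝ) ≤ Nc * ⌈η' * X⌉₊ := by
      have h2 : 1 / η' * (η' * X) ≤ Nc * ⌈η' * X⌉₊ :=
        mul_le_mul hNc1 (Nat.le_ceil _) (by positivity) (Nat.cast_nonneg Nc)
      have h3 : 1 / η' * (η' * X) = X := by field_simp
      linarith
    exact_mod_cast h1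
  · have h1 := Fd_div (d₀ := d₀) hC hδ hδ1
    have hF0 : 0 < Fd d₀ C (dl ε' d₀ X) := by
      have h2 := Fd_ge (d₀ := d₀) hC hδ hδ1
      have h3 := Cc_one (d₀ := d₀) hC hδ
      have : 0 < 4 * ((d₀ : ℝ) + 1) * Cc d₀ C (dl ε' d₀ X) := by positivity
      linarith
    have hF1 : 0 < Fd d₀ C 1 := by
      have h2 := Fd_ge (d₀ := d₀) (δ := 1) hC one_pos le_rfl
      have h3 := Cc_one (d₀ := d₀) (δ := 1) hC one_pos
      have : 0 < 4 * ((d₀ : ℝ) + 1) * Cc d₀ C 1 := by positivity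
      linarith
    have h2 := Real.log_le_log hF0 h1
    rw [Real.log_div hF1.ne' (by positivity), Real.log_mul hδ.ne' hδ.ne', hlog] at h2
    have h3 : Real.log (Fd d₀ C 1) ≤ η' * X * Real.log 2 := by
      rw [hB₂, div_le_iff₀ hl2] at hX2
      exact hX2
    have h4 : 2 * L ≤ η' * X * Real.log 2 := by
      have e1 : 2 * (D * ε' * X * Real.log 2) = ε' * (4 * D) * (X * Real.log 2) / 2 := by ring
      have e2 : ε' * (4 * D) * (X * Real.log 2) ≤ η' * (X * Real.log 2) :=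
        mul_le_mul_of_nonneg_right hε'2 (by positivity)
      have e3 : 0 ≤ η' * (X * Real.log 2) := by positivity
      linarith
    have h5 : Real.log (Fd d₀ C (dl ε' d₀ X)) ≤ Real.log ((2 : ℝ) ^ (η * X)) := by
      rw [Real.log_rpow (by norm_num)]
      have e1 : η * X * Real.log 2 = 16 * (η' * X * Real.log 2) := by rw [hη']; ring
      have e2 : 0 ≤ η' * X * Real.log 2 := by positivity
      linarith
    exact (Real.log_le_log_iff hF0 (by positivity)).1 h5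
  · have key := Er_le (d₀ := d₀) (X := X) (g := ⌈η' * X⌉₊) (Kn := Kn) (C := C)
      (δ := dl ε' d₀ X) (c := d₀ * c₁) (ϖ' := ϖ') (ϖ := ϖ) (d := d) (η := η') (L := L) hC hδ hδ1
      hlog hϖ'0 hη'0 hd ?_ ?_ ?_ ?_ ?_ ?_ ?_
    · rw [← hB₁] at key
      have e1 : η * X = 16 * (η' * X) := by rw [hη']; ring
      have e2 : 0 ≤ η' * X := by positivity
      linarith
    · rw [← hD]
      calc d * (1 + (3 * D + 3) / ϖ') ≤ κ * X * (1 + (3 * D + 3) / ϖ') :=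
            mul_le_mul_of_nonneg_right hdκ (by positivity)
        _ = η' * X := by
            rw [hκ]
            field_simp
    · rw [div_le_iff₀ (by positivity), div_le_iff₀ hϖ'0]
      rw [div_le_iff₀ (by positivity)] at hKn1
      linarith
    · rw [hϖ]
      have : 1 / ϖ' * (η' * ϖ') = η' := by field_simp
      exact this.le
    · rw [← hD, div_le_iff₀ hϖ'0]
      calc D * L ≤ D * (D * ε' * X) := mul_le_mul_of_nonneg_left hLD1 (by linarith)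
        _ = ε' * (D * D) * X := by ring
        _ ≤ η' * ϖ' * X := mul_le_mul_of_nonneg_right hε'1 hX0
        _ = _ := by ring
    · rw [← hD, div_le_iff₀ hϖ'0]
      calc d₀ * c₁ * D ≤ D * c₁ * D := mul_le_mul_of_nonneg_right hdc (by linarith)
        _ = c₁ * (D * D) := by ring
        _ ≤ _ := hc₁2
    · exact (Nat.ceil_lt_add_one (by positivity)).le
    · calc 4 * L ≤ 4 * (D * ε' * X) := by linarith
        _ = ε' * (4 * D) * X := by ring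
        _ ≤ _ := mul_le_mul_of_nonneg_right hε'2 hX0

end Pool.CHN
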