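import Pool.Agent.H64.CHN.Num
import Pool.Agent.H97.CHN.Slab

/-!
# Chains of copies: the theorem for one coordinate
-/

set_option autoImplicit false

namespace Pool.CHN

open Finset Real
open Pool.Agent.H49.Ent Pool.Agent.H32.Dense Pool.STK Pool.POT Pool.TQ
open Pool.K2S (Pe)
open Pool.LPX (Crd NFz NFu tp)

variable {Ω β Λ υ σ ζ : Type} {d₀ : ℕ}

variable [Fintype Ω] {p : Ω → ℝ} {B : Ω → β} {ln : Ω → Λ} {Z : Ω → ζ} {Y : Ω → υ} {S : Ω → σ}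
  {t : Ω → ℤ} {ec Pc : Fin d₀ → Ω → ℤ} {ap : Fin d₀ → Ω → ℝ} {X : ℕ} {C ρ c₁ d : ℝ}

/-- **The covector from the slope.** -/
theorem cov_of (H : Chb p B ln Z Y S t ec Pc ap X C ρ c₁ d) (hC : 1 ≤ C) {dv : Ω → ℤ}
    (hl : Det p ln dv) (hsz : ∀ ω, 0 < p ω → |(dv ω : ℝ)| ≤ C * 2 ^ X) {δ c r₁ M : ℝ}
    (hδ : 0 < δ) (hδ1 : δ ≤ 1) (hM : 0 ≤ M)
    (hs : ∀ n, 2 * d₀ ≤ n →
      Pe (Qc p ln B n) (fun w => |(Am X ec fun j => pt n w (2 * j)).det| < δ) ≤ c)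
    (hk : Pe (Qc p ln B (2 * (d₀ + 1) + 1))
      (fun w => ¬ |kv X ec dv fun j => pt _ w (2 * j)| ≤ Cc d₀ C δ * M) ≤ r₁) :
    ∃ Mf : β → Fin (d₀ + 1) → ℝ, (∀ b i, |Mf b i| ≤ Fd d₀ C δ * (1 + M)) ∧
      Pe p (fun ω => ¬ |(dv ω : ℝ) / 2 ^ X - ∑ i, Mf (B ω) i * Xv X ec ω i| ≤
        Fd d₀ C δ * M) ≤ (d₀ + 1) * r₁ + (d₀ + 2) * c ∧
      Pe (dbl p ln) (fun w => ¬ ∀ i, |Mf (B w.1) i - Mf (B w.2) i| ≤ Fd d₀ C δ * M) ≤
        2 * ((d₀ + 1) * r₁ + (d₀ + 2) * c) + r₁ := by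
  have hK := Ka_one (d₀ := d₀) hC
  have hCc := Cc_one (d₀ := d₀) hC hδ
  have hp := H.law.nonneg
  obtain ⟨D, hD⟩ : ∃ D : ℝ, D = (d₀ : ℝ) + 1 := ⟨_, rfl⟩
  have hd0 : (0 : ℝ) ≤ d₀ := Nat.cast_nonneg d₀
  have hD1 : 1 ≤ D := by linarith
  obtain ⟨κ₁, hκ₁⟩ : ∃ κ₁, κ₁ = Cc d₀ C δ * M := ⟨_, rfl⟩
  rw [← hκ₁] at hk
  have hκ0 : 0 ≤ κ₁ := by
    rw [hκ₁]
    exact mul_nonneg (by linarith) hM
  obtain ⟨k, hkd⟩ : ∃ k, k = Ka d₀ C / δ := ⟨_, rfl⟩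
  have hk1 : 1 ≤ k := by
    rw [hkd, le_div_iff₀ hδ]
    linarith
  have hK2 : K2 d₀ C δ κ₁ = D * (κ₁ * k) := by
    unfold K2
    rw [← hD, ← hkd]
  have hK20 := K2_nonneg (d₀ := d₀) hC hδ hκ0
  have hF : Fd d₀ C δ = 4 * D ^ 3 * C * k * Cc d₀ C δ := by
    unfold Fd
    rw [← hD, ← hkd]
  have hFM : Fd d₀ C δ * M = 4 * D ^ 3 * C * k * κ₁ := by
    rw [hF, hκ₁]
    ring
  obtain ⟨Mf, m1, m2⟩ := step2 H hC hsz hδ hκ0 hs hk
  -- the numbers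
  have q1 : D * K2 d₀ C δ κ₁ ≤ D ^ 3 * C * k * κ₁ := by
    have e1 : D ^ 2 * (κ₁ * k) * 1 ≤ D ^ 2 * (κ₁ * k) * (D * C) :=
      mul_le_mul_of_nonneg_left (one_le_mul_of_one_le_of_one_le hD1 hC) (by positivity)
    rw [hK2]
    have e2 : D * (D * (κ₁ * k)) = D ^ 2 * (κ₁ * k) * 1 := by ring
    have e3 : D ^ 3 * C * k * κ₁ = D ^ 2 * (κ₁ * k) * (D * C) := by ring
    rw [e2, e3]
    exact e1
  have q2 : K2 d₀ C δ κ₁ ≤ D * K2 d₀ C δ κ₁ := le_mul_of_one_le_left hK20 hD1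
  have q3 : 0 ≤ D ^ 3 * C * k * κ₁ := by positivity
  refine ⟨Mf, fun b i => (m1 b i).trans ?_, ?_, ?_⟩
  · rw [← hD, ← hkd]
    have e1 : D * (C * k) ≤ Fd d₀ C δ := by
      rw [hF]
      have e2 : D * (C * k) * 1 ≤ D * (C * k) * (D ^ 2 * (4 * Cc d₀ C δ)) := by
        refine mul_le_mul_of_nonneg_left ?_ (by positivity)
        exact one_le_mul_of_one_le_of_one_le (one_le_pow₀ hD1) (by linarith)
      have e3 : 4 * D ^ 3 * C * k * Cc d₀ C δ = D * (C * k) * (D ^ 2 * (4 * Cc d₀ C δ)) := by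
        ring
      rw [e3]
      linarith
    have e4 : Fd d₀ C δ * (1 + M) = Fd d₀ C δ + Fd d₀ C δ * M := by ring
    rw [e4, hFM]
    linarith
  · have h1 := cov_a H hC hl hδ (r := ((d₀ : ℝ) + 1) * K2 d₀ C δ κ₁) (by positivity) m2
    refine le_trans (Pe_mono' hp ?_) h1
    intro ω _ h2 h3
    refine h2 (le_trans h3 ?_)
    rw [← hD, hFM, hK2]
    have e1 : D * (D * (D * (κ₁ * k)) * C) = D ^ 3 * C * k * κ₁ := by ring
    rw [e1]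
    linarith
  · have h1 := cov_b H hC hδ hκ0 m2 hk
    have hdn : ∀ w, 0 ≤ dbl p ln w := fun w => by
      unfold dbl
      exact glue_nonneg hp hp w
    refine le_trans (Pe_mono' hdn ?_) h1
    intro w _ h2 h3
    refine h2 fun i => (h3 i).trans ?_
    rw [← hD, hFM]
    linarith

/-- Powers of two. -/
theorem pow_ratio {n m : ℕ} {a b c : ℝ} (h1 : (n : ℝ) ≤ a) (h2 : b ≤ m) (h3 : a - b ≤ c) :
    (2 : ℝ) ^ n / 2 ^ m ≤ (2 : ℝ) ^ c := by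
  have e1 : (2 : ℝ) ^ n = (2 : ℝ) ^ (n : ℝ) := (Real.rpow_natCast 2 n).symm
  have e2 : (2 : ℝ) ^ m = (2 : ℝ) ^ (m : ℝ) := (Real.rpow_natCast 2 m).symm
  rw [e1, e2, ← Real.rpow_sub (by norm_num)]
  exact Real.rpow_le_rpow_of_exponent_le (by norm_num) (by linarith)

/-- **(CH for one coordinate)** -/
theorem ch_one (d₀ : ℕ) : ChOne d₀ := by
  intro C h ε c hC hh0 hh1 hε hc
  have hd0 : (0 : ℝ) ≤ d₀ := Nat.cast_nonneg d₀
  obtain ⟨c₁, ε', κ, ϖ, ϖ', Nc, Kn, n1, n2, n3, n4, n5, n6, n7, n8, X₁, hX₁⟩ :=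
    numbers d₀ (C := C) (η := ε * h / 8) (c := c / (10 * ((d₀ : ℝ) + 1))) hC (by positivity)
      (by positivity)
  refine ⟨c₁, ε', κ, ϖ, n1, n2, n3, n4, max X₁ ⌈4 / ε⌉₊, ?_⟩
  intro Ω β Λ υ σ ζ _ p B ln Z Y S t ec Pc ap V dv av X d H hT hN hX hd hdκ
  obtain ⟨g, hg, hF, hE⟩ := hX₁ X ((le_max_left _ _).trans hX)
  have hEr := hE d hd hdκ
  have hX0 : (0 : ℝ) ≤ X := Nat.cast_nonneg X
  have hX2 : 4 ≤ ε * X := by
    have h1 : ⌈4 / ε⌉₊ ≤ X := (le_max_right _ _).trans hX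
    have h2 : 4 / ε ≤ X := (Nat.le_ceil _).trans (by exact_mod_cast h1)
    rw [div_le_iff₀ hε] at h2
    linarith
  obtain ⟨D, hD⟩ : ∃ D : ℝ, D = (d₀ : ℝ) + 1 := ⟨_, rfl⟩
  have hD1 : 1 ≤ D := by linarith
  rw [← hD] at n7 n8
  obtain ⟨cc, hcc⟩ : ∃ cc, cc = c / (10 * D) := ⟨_, rfl⟩
  have hcc0 : 0 < cc := by rw [hcc]; positivity
  have hcc1 : 10 * D * cc = c := by
    rw [hcc]
    field_simp
  rw [← hcc] at n7 n8
  obtain ⟨δ, hδd⟩ : ∃ δ, δ = dl ε' d₀ X := ⟨_, rfl⟩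
  rw [← hδd] at hF hEr
  have hδ : 0 < δ := by rw [hδd]; exact dl_pos _ _ _
  have hδ1 : δ ≤ 1 := by rw [hδd]; exact dl_one n2.le _ _
  have hρ : 0 < (2 : ℝ) ^ (-(ε' * X)) := by positivity
  have hρ1 : (2 : ℝ) ^ (-(ε' * X)) ≤ 1 :=
    Real.rpow_le_one_of_one_le_of_nonpos (by norm_num) (by
      have : 0 ≤ ε' * X := by positivity
      linarith)
  have hs : ∀ n, 2 * d₀ ≤ n →
      Pe (Qc p ln B n) (fun w => |(Am X ec fun j => pt n w (2 * j)).det| < δ) ≤ d₀ * c₁ := by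
    intro n hn
    have := slab d₀ H hρ hρ1 n hn
    rw [hδd]
    exact this
  -- the number of digits
  obtain ⟨n, hn⟩ : ∃ n, n = ⌈ε / 4 * X⌉₊ := ⟨_, rfl⟩
  have hn1 : ε / 4 * X ≤ n := by rw [hn]; exact Nat.le_ceil _
  have hn2 : (n : ℝ) ≤ ε / 4 * X + 1 := by
    rw [hn]
    exact (Nat.ceil_lt_add_one (by positivity)).le
  have hl2 : 1 / 2 ≤ Real.log 2 := by
    have := Real.log_two_gt_d9
    linarith
  have he : Er d₀ X g Kn C δ (d₀ * c₁) ϖ' ϖ d ≤ n * (h * Real.log 2) := by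
    refine hEr.trans ?_
    calc ε * h / 8 * X = ε / 4 * X * (h * (1 / 2)) := by ring
      _ ≤ n * (h * Real.log 2) :=
        mul_le_mul hn1 (mul_le_mul_of_nonneg_left hl2 hh0.le) (by positivity)
          (Nat.cast_nonneg n)
  have hk := kv_one H hT hN hC hh0 hh1 n4.le hd hδ (hs _ (by omega)) hg n6 n5 he
  obtain ⟨M, hM⟩ : ∃ M : ℝ, M = 2 ^ n / 2 ^ X := ⟨_, rfl⟩
  have hM0 : 0 ≤ M := by rw [hM]; positivity
  have eM : Cc d₀ C δ * 2 ^ n / 2 ^ X = Cc d₀ C δ * M := by rw [hM]; ring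
  rw [eM] at hk
  obtain ⟨Mf, m1, m2, m3⟩ := cov_of H hC hT.crd.dd hT.crd.siz hδ hδ1 hM0 hs hk
  -- probabilities
  have hr1 : d₀ * c₁ + 2 * ((Nc : ℝ) + 1) * ϖ' ≤ 2 * cc := by
    have e1 : 2 * ((Nc : ℝ) + 1) ≤ 4 * ((Nc : ℝ) + 1) ^ 2 := by
      have e2 : (0 : ℝ) ≤ Nc := Nat.cast_nonneg Nc
      nlinarith
    have e3 := mul_le_mul_of_nonneg_right e1 n5.le
    linarith
  have hb : ((d₀ : ℝ) + 1) * (d₀ * c₁ + 2 * ((Nc : ℝ) + 1) * ϖ') + (d₀ + 2) * (d₀ * c₁) ≤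
      (3 * D + 1) * cc := by
    have e1 : ((d₀ : ℝ) + 1) * (d₀ * c₁ + 2 * ((Nc : ℝ) + 1) * ϖ') ≤ D * (2 * cc) := by
      rw [← hD]
      exact mul_le_mul_of_nonneg_left hr1 (by linarith)
    have e2 : ((d₀ : ℝ) + 2) * (d₀ * c₁) ≤ (D + 1) * cc := by
      have e3 : (d₀ : ℝ) + 2 = D + 1 := by linarith
      rw [e3]
      exact mul_le_mul_of_nonneg_left n7 (by linarith)
    have e4 : (3 * D + 1) * cc = D * (2 * cc) + (D + 1) * cc := by ring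
    rw [e4]
    exact add_le_add e1 e2
  have hDc : cc ≤ D * cc := le_mul_of_one_le_left hcc0.le hD1
  -- radii
  have hFM : Fd d₀ C δ * M ≤ (2 : ℝ) ^ (-((1 - ε) * X)) := by
    have e1 : M ≤ (2 : ℝ) ^ (ε / 4 * X + 1 - X) := by
      rw [hM]
      exact pow_ratio hn2 (le_refl (X : ℝ)) le_rfl
    calc Fd d₀ C δ * M ≤ (2 : ℝ) ^ (ε * h / 8 * X) * (2 : ℝ) ^ (ε / 4 * X + 1 - X) :=
          mul_le_mul hF e1 hM0 (by positivity)
      _ = (2 : ℝ) ^ (ε * h / 8 * X + (ε / 4 * X + 1 - X)) :=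
          (Real.rpow_add (by norm_num) _ _).symm
      _ ≤ _ := by
          refine Real.rpow_le_rpow_of_exponent_le (by norm_num) ?_
          have e2 : ε * h / 8 * X ≤ ε * 1 / 8 * X := by
            refine mul_le_mul_of_nonneg_right ?_ hX0
            have := mul_le_mul_of_nonneg_left hh1 hε.le
            linarith
          linarith
  refine ⟨Mf, fun b i => (m1 b i).trans ?_, ?_, ?_⟩
  · have e1 : 1 + M ≤ (2 : ℝ) ^ (ε / 4 * X + 2) := by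
      have e2 : M ≤ (2 : ℝ) ^ (ε / 4 * X + 1) := by
        rw [hM]
        exact pow_ratio hn2 (le_refl (X : ℝ)) (by linarith)
      have e3 : (1 : ℝ) ≤ (2 : ℝ) ^ (ε / 4 * X + 1) :=
        Real.one_le_rpow (by norm_num) (by positivity)
      have e4 : (2 : ℝ) ^ (ε / 4 * X + 2) = (2 : ℝ) ^ (ε / 4 * X + 1) * 2 := by
        have e5 : ε / 4 * X + 2 = (ε / 4 * X + 1) + 1 := by ring
        rw [e5, Real.rpow_add_one (by norm_num)]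
      rw [e4]
      linarith
    calc Fd d₀ C δ * (1 + M) ≤ (2 : ℝ) ^ (ε * h / 8 * X) * (2 : ℝ) ^ (ε / 4 * X + 2) :=
          mul_le_mul hF e1 (by linarith) (by positivity)
      _ = (2 : ℝ) ^ (ε * h / 8 * X + (ε / 4 * X + 2)) :=
          (Real.rpow_add (by norm_num) _ _).symm
      _ ≤ _ := by
          refine Real.rpow_le_rpow_of_exponent_le (by norm_num) ?_
          have e2 : ε * h / 8 * X ≤ ε * 1 / 8 * X := by
            refine mul_le_mul_of_nonneg_right ?_ hX0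
            have := mul_le_mul_of_nonneg_left hh1 hε.le
            linarith
          linarith
  · refine le_trans (Pe_mono' H.law.nonneg (G' := fun ω => ¬ |(dv ω : ℝ) / 2 ^ X -
      ∑ i, Mf (B ω) i * Xv X ec ω i| ≤ Fd d₀ C δ * M) fun ω _ h2 h3 => h2 (h3.trans hFM))
      (m2.trans ?_)
    have e1 : (3 * D + 1) * cc = 3 * (D * cc) + cc := by ring
    linarith
  · have hdn : ∀ w, 0 ≤ dbl p ln w := fun w => by
      unfold dbl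
      exact glue_nonneg H.law.nonneg H.law.nonneg w
    refine le_trans (Pe_mono' hdn (G' := fun w => ¬ ∀ i, |Mf (B w.1) i - Mf (B w.2) i| ≤
      Fd d₀ C δ * M) fun w _ h2 h3 => h2 fun i => (h3 i).trans hFM) (m3.trans ?_)
    have e1 : (3 * D + 1) * cc = 3 * (D * cc) + cc := by ring
    linarith

end Pool.CHN
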