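import Pool.Agent.H64.CHN.One

/-!
# Chains of copies: two coordinates, the sizes in a cell
-/

set_option autoImplicit false

namespace Pool.CHN

open Finset Real Matrix
open Pool.Agent.H49.Ent Pool.Agent.H32.Dense Pool.STK Pool.POT Pool.TQ
open Pool.K2S (Pe)
open Pool.LPX (Crd NFz NFu tp Dp idx)

/-! ### Rows of near variables -/

section near

variable {Γ τ κ : Type} [Fintype Γ] {r : Γ → ℝ} {V V' : Γ → ℤ} {X m a : ℕ} {L : ℝ}

theorem tp_few (hr : IsLaw r)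
    (h : ∀ w, 0 < r w → |(V w : ℝ) - V' w| ≤ L * 2 ^ (X - m)) (W : Γ → τ)
    (hW : ∀ w w', 0 < r w → 0 < r w' → W w = W w' → tp X m (V w) = tp X m (V w')) :
    CH r (fun w => tp X m (V' w)) W ≤ Real.log (4 * L + 5) := by
  have h1 := Pool.LPX.CH_few_tp hr V' W (X := X) (m := m) (L := 2 * L + 1) (by
    intro w w' x y e
    have h2 := abs_le.1 (Pool.LPX.of_tp_eq X m (hW w w' x y e))
    have h3 := abs_le.1 (h w x)
    have h4 := abs_le.1 (h w' y)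
    have h5 : (2 * L + 1) * 2 ^ (X - m) = L * 2 ^ (X - m) + L * 2 ^ (X - m) + 2 ^ (X - m) := by
      ring
    rw [h5, abs_le]
    constructor <;> linarith [h2.1, h2.2, h3.1, h3.2, h4.1, h4.2])
  have h2 : 2 * (2 * L + 1) + 3 = 4 * L + 5 := by ring
  rwa [h2] at h1

theorem row_near (hr : IsLaw r) (ham : a ≤ m) (hL : 0 ≤ L)
    (h : ∀ w, 0 < r w → |(V w : ℝ) - V' w| ≤ L * 2 ^ (X - m)) (K : Γ → κ) :
    CH r (fun w => tp X m (V' w)) (fun w => (tp X a (V' w), K w)) ≤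
      CH r (fun w => tp X m (V w)) (fun w => (tp X a (V w), K w)) +
        2 * Real.log (4 * L + 5) := by
  have hn := hr.nonneg
  have ha : ∀ w, 0 < r w → |(V' w : ℝ) - V w| ≤ L * 2 ^ (X - a) := by
    intro w hw
    rw [abs_sub_comm]
    refine (h w hw).trans ?_
    refine mul_le_mul_of_nonneg_left ?_ hL
    exact pow_le_pow_right₀ (by norm_num) (by omega)
  have s1 := CH_le_add hn (fun w => tp X m (V' w)) (fun w => tp X a (V w))
    (fun w => (tp X a (V' w), K w))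
  have s2 : CH r (fun w => tp X a (V w)) (fun w => (tp X a (V' w), K w)) ≤
      Real.log (4 * L + 5) :=
    tp_few hr ha _ fun w w' _ _ e => (Prod.ext_iff.mp e).1
  have s3 := CH_le_add hn (fun w => tp X m (V' w)) (fun w => tp X m (V w))
    (fun w => (tp X a (V w), (tp X a (V' w), K w)))
  have s4 : CH r (fun w => tp X m (V w)) (fun w => (tp X a (V w), (tp X a (V' w), K w))) ≤
      CH r (fun w => tp X m (V w)) (fun w => (tp X a (V w), K w)) := by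
    refine CH_mono_cond hn ?_
    intro w w' _ _ e
    simp only [Prod.mk.injEq] at e ⊢
    exact ⟨e.1, e.2.2⟩
  have s5 : CH r (fun w => tp X m (V' w))
      (fun w => (tp X m (V w), (tp X a (V w), (tp X a (V' w), K w)))) ≤
      Real.log (4 * L + 5) :=
    tp_few hr h _ fun w w' _ _ e => (Prod.ext_iff.mp e).1
  linarith

theorem cond_near (hr : IsLaw r) {Z : Γ → ℤ}
    (h : ∀ w, 0 < r w → |(V w : ℝ) - V' w| ≤ L * 2 ^ (X - m)) (Q : Γ → τ) (K : Γ → κ) :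
    CH r Z (fun w => (Q w, (tp X m (V' w), K w))) ≤
      CH r Z (fun w => (Q w, (tp X m (V w), K w))) + Real.log (4 * L + 5) := by
  have hn := hr.nonneg
  have s1 := CH_le_add hn Z (fun w => tp X m (V w)) (fun w => (Q w, (tp X m (V' w), K w)))
  have s2 : CH r (fun w => tp X m (V w)) (fun w => (Q w, (tp X m (V' w), K w))) ≤
      Real.log (4 * L + 5) := by
    refine tp_few (V := V') hr (fun w hw => ?_) _ fun w w' _ _ e => ?_
    · rw [abs_sub_comm]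
      exact h w hw
    · simp only [Prod.mk.injEq] at e
      exact e.2.1
  have s3 : CH r Z (fun w => (tp X m (V w), (Q w, (tp X m (V' w), K w)))) ≤
      CH r Z (fun w => (Q w, (tp X m (V w), K w))) := by
    refine CH_mono_cond hn ?_
    intro w w' _ _ e
    simp only [Prod.mk.injEq] at e ⊢
    exact ⟨e.2.1, e.1, e.2.2.2⟩
  linarith

end near

variable {Ω β Λ υ σ ζ : Type} {d₀ : ℕ}

/-- The cell of the chain, two targets. -/
noncomputable def Cl2 (X : ℕ) (ec : Fin d₀ → Ω → ℤ) (du dv : Ω → ℤ) (δ C' : ℝ) (g Nc : ℕ)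
    (w : Tn Ω (2 * (d₀ + 1) + 1)) : Prop × (ℕ × ℕ) :=
  (δ ≤ |(Am X ec fun j => pt _ w (2 * j)).det|,
    (idx C' g Nc (kv X ec du fun j => pt _ w (2 * j)),
      idx C' g Nc (kv X ec dv fun j => pt _ w (2 * j))))

/-- The number of the near values. -/
noncomputable def Lr (d₀ : ℕ) (C δ : ℝ) : ℝ := Cc d₀ C δ * (2 * d₀ + 6)

variable [Fintype Ω] {p : Ω → ℝ} {B : Ω → β} {ln : Ω → Λ} {Z : Ω → ζ} {Y : Ω → υ} {S : Ω → σ}
  {t : Ω → ℤ} {ec Pc : Fin d₀ → Ω → ℤ} {ap : Fin d₀ → Ω → ℝ} {X : ℕ} {C ρ c₁ d : ℝ}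

/-- **The sizes in a large cell, two targets.** -/
theorem cell_two (H : Chb p B ln Z Y S t ec Pc ap X C ρ c₁ d) {U V du dv du' : Ω → ℤ}
    {au av : Ω → ℝ} (hU : Crd p B ln t U du au X C) (hV : Crd p B ln t V dv av X C) {θ : ℝ}
    (hη : ∀ ω, 0 < p ω → |(du ω : ℝ) - du' ω| ≤ 2 ^ (X - ⌊θ * X⌋₊))
    (hdu : ∀ ω, 0 < p ω → |(du' ω : ℝ)| ≤ C * 2 ^ X) {δT : Type} (v : Ω → δT)
    (hv1 : Det p v du') (hv2 : Det p v dv) (hfew : CH p v (fun ω => (Z ω, ecv ec ω)) ≤ d)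
    {h ϖ : ℝ} (hNz : NFz p U V S X θ h ϖ d) (hNu : NFu p U V S X θ h ϖ d) (hC : 1 ≤ C)
    (hθ0 : 0 < θ) (hθ1 : θ < 1) (hh0 : 0 < h) (hh1 : h ≤ 1) (hϖ : 0 ≤ ϖ) (hd : 0 ≤ d)
    {δ c : ℝ} (hδ : 0 < δ)
    (hsl : Pe (Qc p ln B (2 * (d₀ + 1) + 1))
      (fun w => |(Am X ec fun j => pt _ w (2 * j)).det| < δ) ≤ c) {g Nc Kn : ℕ}
    (hNc : X ≤ Nc * g) (hKn : 0 < Kn) {ϖ' : ℝ} (hϖ' : 0 < ϖ') (i j : ℕ)
    (hG : ϖ' ≤ Pe (Qc p ln B (2 * (d₀ + 1) + 1))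
      (fun w => Cl2 X ec du' dv δ (Cc d₀ C δ) g Nc w = (True, (i, j)))) {e : ℝ}
    (he0 : 0 ≤ e) (he : Er d₀ X g Kn C δ c ϖ' ϖ d + 2 * Real.log (4 * Lr d₀ C δ + 5) ≤
      e * (h * Real.log 2)) :
    (X : ℝ) - (j * g : ℕ) ≤ (2 * e + 2) / (1 - θ) ∧
      θ * X - (i * g : ℕ) ≤ (2 * e + 2) / (1 - θ) + 1 + e := by
  classical
  have hp := H.law.nonneg
  have hl2 : 0 < Real.log 2 := Real.log_pos (by norm_num)
  have hd0 : (0 : ℝ) ≤ d₀ := Nat.cast_nonneg d₀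
  obtain ⟨q, hq⟩ : ∃ q, q = Qc p ln B (2 * (d₀ + 1) + 1) := ⟨_, rfl⟩
  have hql : IsLaw q := by rw [hq]; exact Qn_law H.law _
  obtain ⟨G, hGd⟩ : ∃ G : Tn Ω (2 * (d₀ + 1) + 1) → Prop,
    G = fun w => Cl2 X ec du' dv δ (Cc d₀ C δ) g Nc w = (True, (i, j)) := ⟨_, rfl⟩
  rw [← hq, ← hGd] at hG
  have hG0 : 0 < Pe q G := lt_of_lt_of_le hϖ' hG
  obtain ⟨W, hW⟩ : ∃ W, W = Wc B ec Y v t (d₀ + 1) := ⟨_, rfl⟩
  have hC1 := Cc_one (d₀ := d₀) hC hδ
  have hl9 : 0 ≤ Real.log (9 * Cc d₀ C δ) := Real.log_nonneg (by linarith)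
  obtain ⟨w₀, -⟩ : ∃ w₀ : Ω, 0 < p w₀ := by
    by_contra hcon
    push Not at hcon
    have h1 := H.law.sum_one
    have h2 : ∑ ω, p ω ≤ 0 := Finset.sum_nonpos fun ω _ => hcon ω
    linarith
  have full := sig_full H hd hC v hfew hδ hsl
  rw [← hq, ← hW] at full
  have hdG : Det q W G := by
    intro w w' a b e
    rw [hq] at a b
    rw [hW] at e
    have e1 := Wc_Am (X := X) H a b e
    have e2 := det_kv H hv1 w w' a b e
    have e3 := det_kv H hv2 w w' a b e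
    beta_reduce at e2 e3
    rw [hGd]
    unfold Cl2
    beta_reduce
    rw [e1, e2, e3]
  obtain ⟨r, hr⟩ : ∃ r, r = cond q G True := ⟨_, rfl⟩
  have hrl : IsLaw r := by rw [hr]; exact cond_law hql.nonneg hG0
  have hrq : ∀ w, 0 < r w → 0 < q w := fun w hw => by
    rw [hr] at hw
    exact ((cond_pos_iff hql.nonneg G True w).1 hw).1
  have hrG : ∀ w, 0 < r w → G w := fun w hw => by
    rw [hr] at hw
    have := ((cond_pos_iff hql.nonneg G True w).1 hw).2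
    simpa using this
  have hrd : ∀ w, 0 < r w → 0 < Qc p ln B (2 * (d₀ + 1) + 1) w ∧
      δ ≤ |(Am X ec fun j => pt _ w (2 * j)).det| := by
    intro w hw
    refine ⟨?_, ?_⟩
    · rw [← hq]
      exact hrq w hw
    · have h1 := hrG w hw
      rw [hGd] at h1
      have h2 := (Prod.ext_iff.mp h1).1
      unfold Cl2 at h2
      exact of_eq_true h2
  have hrI : ∀ w, 0 < r w → idx (Cc d₀ C δ) g Nc (kv X ec du' fun j => pt _ w (2 * j)) = i := by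
    intro w hw
    have h1 := hrG w hw
    rw [hGd] at h1
    exact (Prod.ext_iff.mp (Prod.ext_iff.mp h1).2).1
  have hrJ : ∀ w, 0 < r w → idx (Cc d₀ C δ) g Nc (kv X ec dv fun j => pt _ w (2 * j)) = j := by
    intro w hw
    have h1 := hrG w hw
    rw [hGd] at h1
    exact (Prod.ext_iff.mp (Prod.ext_iff.mp h1).2).2
  -- the fast coordinate
  have hDz0 := dp_last H hC w₀ hV (dv' := dv) (η := 0) (fun ω _ => by simp) hV.siz hv2 hδ hrd
  rw [← hW] at hDz0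
  have hDz : Dp r W (fun w => t (pt (2 * (d₀ + 1) + 1) w (2 * (d₀ + 1))))
      (fun w => V (pt (2 * (d₀ + 1) + 1) w (2 * (d₀ + 1) + 1))) (Av p B t Pc ap X ec V dv w₀)
      (fun w => kv X ec dv fun j => pt _ w (2 * j)) (Cc d₀ C δ) :=
    ⟨hDz0.dA, hDz0.dk, fun w hw => (hDz0.rel w hw).trans (by
      unfold Cc
      have := Kb_nonneg (d₀ := d₀) hC hδ
      linarith)⟩
  -- the slow coordinate
  have hDu0 := dp_last H hC w₀ hU (dv' := du') (η := 2 ^ (X - ⌊θ * X⌋₊)) hη hdu hv1 hδ hrd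
  rw [← hW] at hDu0
  obtain ⟨Uo, hUo⟩ : ∃ Uo : Tn Ω (2 * (d₀ + 1) + 1) → ℤ, Uo = fun w =>
    ⌊Av p B t Pc ap X ec U du' w₀ w + t (pt _ w (2 * (d₀ + 1))) *
      kv X ec du' fun j => pt _ w (2 * j)⌋ := ⟨_, rfl⟩
  have hUo1 : ∀ w, |(Uo w : ℝ) - (Av p B t Pc ap X ec U du' w₀ w + t (pt _ w (2 * (d₀ + 1))) *
      kv X ec du' fun j => pt _ w (2 * j))| ≤ 1 := by
    intro w
    rw [hUo]
    beta_reduce
    obtain ⟨x, hx⟩ : ∃ x, x = Av p B t Pc ap X ec U du' w₀ w + t (pt _ w (2 * (d₀ + 1))) *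
      kv X ec du' fun j => pt _ w (2 * j) := ⟨_, rfl⟩
    rw [← hx]
    have e1 := Int.floor_le x
    have e2 := Int.lt_floor_add_one x
    rw [abs_le]
    constructor <;> linarith
  have hDu : Dp r W (fun w => t (pt (2 * (d₀ + 1) + 1) w (2 * (d₀ + 1)))) Uo
      (Av p B t Pc ap X ec U du' w₀) (fun w => kv X ec du' fun j => pt _ w (2 * j))
      (Cc d₀ C δ) :=
    ⟨hDu0.dA, hDu0.dk, fun w _ => (hUo1 w).trans hC1⟩
  -- the difference
  have hCe : Ce d₀ C 0 δ ≤ Cc d₀ C δ := by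
    unfold Cc
    have := Kb_nonneg (d₀ := d₀) hC hδ
    linarith
  have hCe0 := Ce_nonneg (d₀ := d₀) (η := 0) hC le_rfl hδ
  have hLr0 : 0 ≤ Lr d₀ C δ := by
    unfold Lr
    positivity
  have hdif : ∀ m : ℕ, m ≤ ⌊θ * X⌋₊ + 1 → ∀ w, 0 < r w →
      |(U (pt (2 * (d₀ + 1) + 1) w (2 * (d₀ + 1) + 1)) : ℝ) - Uo w| ≤
        Lr d₀ C δ * 2 ^ (X - m) := by
    intro m hm w hw
    have e1 := abs_le.1 (hDu0.rel w hw)
    have e2 := abs_le.1 (hUo1 w)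
    have e3 : (2 : ℝ) ^ (X - ⌊θ * X⌋₊) ≤ 2 * 2 ^ (X - m) := by
      rw [← pow_succ']
      exact pow_le_pow_right₀ (by norm_num) (by omega)
    have e4 : (1 : ℝ) ≤ 2 ^ (X - m) := one_le_pow₀ (by norm_num)
    have e5 : Ce d₀ C (2 ^ (X - ⌊θ * X⌋₊)) δ = Ce d₀ C 0 δ + (d₀ + 2) * 2 ^ (X - ⌊θ * X⌋₊) := by
      unfold Ce
      ring
    have e6 : Ce d₀ C 0 δ ≤ Cc d₀ C δ * 2 ^ (X - m) :=
      hCe.trans (le_mul_of_one_le_right (by linarith) e4)
    have e7 : ((d₀ : ℝ) + 2) * 2 ^ (X - ⌊θ * X⌋₊) ≤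
        Cc d₀ C δ * ((2 * d₀ + 4) * 2 ^ (X - m)) := by
      calc ((d₀ : ℝ) + 2) * 2 ^ (X - ⌊θ * X⌋₊) ≤ ((d₀ : ℝ) + 2) * (2 * 2 ^ (X - m)) :=
            mul_le_mul_of_nonneg_left e3 (by linarith)
        _ = 1 * ((2 * d₀ + 4) * 2 ^ (X - m)) := by ring
        _ ≤ _ := mul_le_mul_of_nonneg_right hC1 (by positivity)
    have e8 : (1 : ℝ) ≤ Cc d₀ C δ * 2 ^ (X - m) := one_le_mul_of_one_le_of_one_le hC1 e4
    have e9 : Lr d₀ C δ * 2 ^ (X - m) = Cc d₀ C δ * 2 ^ (X - m) +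
        Cc d₀ C δ * ((2 * d₀ + 4) * 2 ^ (X - m)) + Cc d₀ C δ * 2 ^ (X - m) := by
      unfold Lr
      ring
    rw [e5] at e1
    rw [e9, abs_le]
    constructor <;> linarith [e1.1, e1.2, e2.1, e2.2]
  -- the time
  have ht0 : ∀ w, 0 < q w → 0 ≤ t (pt (2 * (d₀ + 1) + 1) w (2 * (d₀ + 1))) ∧
      t (pt (2 * (d₀ + 1) + 1) w (2 * (d₀ + 1))) < 2 ^ X := fun w hw => by
    rw [hq] at hw
    exact H.t0 _ ((Qn_pos hp _ w hw).1 _ (by omega))
  have ht := fun w (hw : 0 < r w) => ht0 w (hrq w hw)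
  have hc0 : 0 ≤ c := le_trans (Pe_nonneg' (by rw [← hq]; exact hql.nonneg) _) hsl
  have hD0 : 0 ≤ D0 d₀ X C δ c d := by
    unfold D0
    have h4 := R1_nonneg (d₀ := d₀) hC hδ
    have h5 : 0 ≤ Real.log (2 * R1 d₀ C δ + 1) := Real.log_nonneg (by linarith)
    positivity
  have fullr : X * Real.log 2 - D0 d₀ X C δ c d / ϖ' ≤
      CH r (fun w => t (pt (2 * (d₀ + 1) + 1) w (2 * (d₀ + 1)))) W := by
    have h1 := Pool.LPX.time_ev hql (fun w => t (pt (2 * (d₀ + 1) + 1) w (2 * (d₀ + 1)))) W hdG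
      ht0 full hG0
    rw [← hr] at h1
    refine le_trans ?_ h1
    have h2 : D0 d₀ X C δ c d / Pe q G ≤ D0 d₀ X C δ c d / ϖ' :=
      div_le_div_of_nonneg_left hD0 hϖ' hG
    unfold D0 at h2 ⊢
    linarith
  -- the sizes
  obtain ⟨a, ha⟩ : ∃ a, a = i * g := ⟨_, rfl⟩
  obtain ⟨b, hb⟩ : ∃ b, b = j * g := ⟨_, rfl⟩
  rw [← ha, ← hb]
  have su0 : ∀ w, 0 < r w → |kv X ec du' fun j => pt (2 * (d₀ + 1) + 1) w (2 * j)| ≤
      Cc d₀ C δ := by
    intro w hw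
    have h1 := kv_le H hC hdu hδ (hrd w hw).1 (by omega) (hrd w hw).2
    unfold Cc
    linarith
  have sz0 : ∀ w, 0 < r w → |kv X ec dv fun j => pt (2 * (d₀ + 1) + 1) w (2 * j)| ≤
      Cc d₀ C δ := by
    intro w hw
    have h1 := kv_le H hC hV.siz hδ (hrd w hw).1 (by omega) (hrd w hw).2
    unfold Cc
    linarith
  have su1 : ∀ w, 0 < r w → |kv X ec du' fun j => pt (2 * (d₀ + 1) + 1) w (2 * j)| * 2 ^ a ≤
      Cc d₀ C δ := by
    intro w hw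
    have e1 := Pool.LPX.idx_spec (C := Cc d₀ C δ) (g := g) (N := Nc) (su0 w hw)
    rw [hrI w hw, ← ha] at e1
    exact e1
  have sz1 : ∀ w, 0 < r w → |kv X ec dv fun j => pt (2 * (d₀ + 1) + 1) w (2 * j)| * 2 ^ b ≤
      Cc d₀ C δ := by
    intro w hw
    have e1 := Pool.LPX.idx_spec (C := Cc d₀ C δ) (g := g) (N := Nc) (sz0 w hw)
    rw [hrJ w hw, ← hb] at e1
    exact e1
  have su2 : a < X → ∀ w, 0 < r w →
      1 ≤ |kv X ec du' fun j => pt (2 * (d₀ + 1) + 1) w (2 * j)| * 2 ^ (a + g) := by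
    intro haX w hw
    have e1 := hrI w hw
    have e2 : i < Nc := by
      by_contra hc
      have : Nc * g ≤ i * g := Nat.mul_le_mul_right g (not_lt.1 hc)
      omega
    have e3 := Pool.LPX.idx_low hC1 (g := g) (N := Nc)
      (x := kv X ec du' fun j => pt (2 * (d₀ + 1) + 1) w (2 * j)) (by rw [e1]; exact e2)
    rw [e1, ← ha] at e3
    exact e3
  have sz2 : b < X → ∀ w, 0 < r w →
      1 ≤ |kv X ec dv fun j => pt (2 * (d₀ + 1) + 1) w (2 * j)| * 2 ^ (b + g) := by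
    intro hbX w hw
    have e1 := hrJ w hw
    have e2 : j < Nc := by
      by_contra hc
      have : Nc * g ≤ j * g := Nat.mul_le_mul_right g (not_lt.1 hc)
      omega
    have e3 := Pool.LPX.idx_low hC1 (g := g) (N := Nc)
      (x := kv X ec dv fun j => pt (2 * (d₀ + 1) + 1) w (2 * j)) (by rw [e1]; exact e2)
    rw [e1, ← hb] at e3
    exact e3
  -- the record
  have hSr : Det r W (fun w => S (pt (2 * (d₀ + 1) + 1) w (2 * (d₀ + 1) + 1))) := by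
    intro w w' x y e'
    rw [hW] at e'
    exact det_S H w w' (hrd w x).1 (hrd w' y).1 e'
  -- the rows
  obtain ⟨β₀, hβ₀⟩ : ∃ β₀, β₀ = d + (1 / ϖ' / Kn + 1 / ϖ' * ϖ) * (X * Real.log 2 + Real.log 5) +
    Real.log (Kn + 1) := ⟨_, rfl⟩
  obtain ⟨ll, hll⟩ : ∃ ll, ll = Real.log (4 * Lr d₀ C δ + 5) := ⟨_, rfl⟩
  have hll0 : 0 ≤ ll := by
    rw [hll]
    exact Real.log_nonneg (by linarith)
  have him : Pool.POT.Im q p (fun w : Tn Ω (2 * (d₀ + 1) + 1) => pt _ w (2 * (d₀ + 1) + 1)) := by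
    rw [hq]
    exact Qn_last (c := lk ln B) hp _
  refine core_two (D := D0 d₀ X C δ c d / ϖ') (β₁ := β₀ + 2 * ll) hrl hDu hDz hC1 ht fullr su1 sz1
    su2 sz2 hSr hθ0 hθ1 hh0 he0 ?_ ?_ ?_
  · rw [← hll] at he
    unfold Er at he
    rw [hβ₀]
    linarith
  · intro k m ham hkX hmX hm
    have hm0 : m ≤ ⌊θ * X⌋₊ := by
      refine Nat.le_floor (hm.trans ?_)
      exact mul_le_mul_of_nonneg_left (by exact_mod_cast hkX) hθ0.le
    have hma : (0 : ℝ) ≤ (m : ℝ) - a := by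
      have : (a : ℝ) ≤ m := by exact_mod_cast ham
      linarith
    have hb0 : 0 ≤ (1 - h) * ((m : ℝ) - a) * Real.log 2 + d := by
      have : 0 ≤ (1 - h) * ((m : ℝ) - a) * Real.log 2 :=
        mul_nonneg (mul_nonneg (by linarith) hma) hl2.le
      linarith
    have hup := Pool.LPX.up_row H.law hql him hϖ' hG hϖ (V := U) hmX ham
      (fun ω => (tp X k (V ω), S ω)) hb0 (fun G' hG' => hNu a k m ham hkX hm G' hG') hKn
    rw [← hr] at hup
    have h1 := row_near hrl ham hLr0 (hdif m (by omega))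
      (fun w => (tp X k (V (pt (2 * (d₀ + 1) + 1) w (2 * (d₀ + 1) + 1))),
        S (pt (2 * (d₀ + 1) + 1) w (2 * (d₀ + 1) + 1))))
    rw [← hll] at h1
    rw [hβ₀]
    linarith
  · intro i' hiX
    have hm1 : ⌈θ * (X : ℝ)⌉₊ ≤ ⌊θ * X⌋₊ + 1 := Nat.ceil_le_floor_add_one _
    have hmX : ⌈θ * (X : ℝ)⌉₊ ≤ X := by
      rw [Nat.ceil_le]
      exact mul_le_of_le_one_left (Nat.cast_nonneg X) hθ1.le
    have hma : (0 : ℝ) ≤ (X : ℝ) - i' := by
      have : (i' : ℝ) ≤ X := by exact_mod_cast hiX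
      linarith
    have hb0 : 0 ≤ (1 - h) * ((X : ℝ) - i') * Real.log 2 + d := by
      have : 0 ≤ (1 - h) * ((X : ℝ) - i') * Real.log 2 :=
        mul_nonneg (mul_nonneg (by linarith) hma) hl2.le
      linarith
    have hup := Pool.LPX.up_row H.law hql him hϖ' hG hϖ (V := V) (m := X) (i := i') le_rfl hiX
      (fun ω => (tp X ⌈θ * (X : ℝ)⌉₊ (U ω), S ω)) hb0
      (fun G' hG' => hNz i' X ⌈θ * (X : ℝ)⌉₊ hiX le_rfl hmX (Nat.le_ceil _) G' hG') hKn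
    rw [← hr] at hup
    simp only [Pool.LPX.tp_self] at hup
    have h1 := cond_near hrl (Z := fun w => V (pt (2 * (d₀ + 1) + 1) w (2 * (d₀ + 1) + 1)))
      (hdif _ hm1) (fun w => tp X i' (V (pt (2 * (d₀ + 1) + 1) w (2 * (d₀ + 1) + 1))))
      (fun w => S (pt (2 * (d₀ + 1) + 1) w (2 * (d₀ + 1) + 1)))
    rw [← hll] at h1
    rw [hβ₀]
    linarith

end Pool.CHN
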