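import Pool.Agent.H64.CHN.Lin

/-!
# Chains of copies: the statement about slabs and determinants
-/

set_option autoImplicit false

namespace Pool.CHN

open Finset Real Matrix
open Pool.Agent.H49.Ent Pool.Agent.H32.Dense Pool.STK Pool.POT
open Pool.K2S (Pe)

/-- **(slabs)** The determinant of the lines of the chain is small only with small
probability. -/
def SlabStmt (d₀ : ℕ) : Prop :=
  ∀ {Ω β Λ υ σ ζ : Type} [Fintype Ω] {p : Ω → ℝ} {B : Ω → β} {ln : Ω → Λ} {Z : Ω → ζ}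
    {Y : Ω → υ} {S : Ω → σ} {t : Ω → ℤ} {ec Pc : Fin d₀ → Ω → ℤ} {ap : Fin d₀ → Ω → ℝ} {X : ℕ}
    {C ρ c₁ d : ℝ}, Chb p B ln Z Y S t ec Pc ap X C ρ c₁ d → 0 < ρ → ρ ≤ 1 →
    ∀ n : ℕ, 2 * d₀ ≤ n →
      Pe (Qc p ln B n) (fun w => |(Am X ec fun j => pt n w (2 * j)).det| < ρ ^ d₀) ≤ d₀ * c₁

end Pool.CHN
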