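import Pool.Agent.H64.CHN.Pair

/-!
# Chains of copies: the theorem for a pair
-/

set_option autoImplicit false

namespace Pool.CHN

open Finset Real Matrix
open Pool.Agent.H49.Ent Pool.Agent.H32.Dense Pool.STK Pool.POT Pool.TQ
open Pool.K2S (Pe)
open Pool.LPX (Crd NFz NFu tp Dp idx)

variable {Ω β Λ υ σ ζ : Type} {d₀ : ℕ}

variable [Fintype Ω] {p : Ω → ℝ} {B : Ω → β} {ln : Ω → Λ} {Z : Ω → ζ} {Y : Ω → υ} {S : Ω → σ}
  {t : Ω → ℤ} {ec Pc : Fin d₀ → Ω → ℤ} {ap : Fin d₀ → Ω → ℝ} {X : ℕ} {C ρ c₁ d : ℝ}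

omit [Fintype Ω] in
/-- A larger constant. -/
theorem crd_C {Λ' : Type} {l : Ω → Λ'} {V dv : Ω → ℤ} {av : Ω → ℝ} {C' : ℝ}
    (h : Crd p B l t V dv av X C) (hC : C ≤ C') : Crd p B l t V dv av X C' :=
  ⟨h.da, h.dd, fun ω a => (h.rel ω a).trans hC,
    fun ω ω' a b e => (h.ball ω ω' a b e).trans hC,
    fun ω a => (h.siz ω a).trans (mul_le_mul_of_nonneg_right hC (by positivity))⟩

theorem Chb.mono_C (H : Chb p B ln Z Y S t ec Pc ap X C ρ c₁ d) {C' : ℝ} (hC : C ≤ C') :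
    Chb p B ln Z Y S t ec Pc ap X C' ρ c₁ d :=
  ⟨H.law, H.t0, H.tB, H.lY, H.lZ, H.BZ, H.SY, H.tf, fun i => crd_C (H.P i) hC, H.free, H.my, H.pl⟩

/-- **The slopes are small, two targets.** -/
theorem kv_two (H : Chb p B ln Z Y S t ec Pc ap X C ρ c₁ d) {U V du dv du' : Ω → ℤ}
    {au av : Ω → ℝ} (hU : Crd p B ln t U du au X C) (hV : Crd p B ln t V dv av X C) {θ : ℝ}
    (hη : ∀ ω, 0 < p ω → |(du ω : ℝ) - du' ω| ≤ 2 ^ (X - ⌊θ * X⌋₊))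
    (hdu : ∀ ω, 0 < p ω → |(du' ω : ℝ)| ≤ C * 2 ^ X) {δT : Type} (v : Ω → δT)
    (hv1 : Det p v du') (hv2 : Det p v dv) (hfew : CH p v (fun ω => (Z ω, ecv ec ω)) ≤ d)
    {h ϖ : ℝ} (hNz : NFz p U V S X θ h ϖ d) (hNu : NFu p U V S X θ h ϖ d) (hC : 1 ≤ C)
    (hθ0 : 0 < θ) (hθ1 : θ < 1) (hh0 : 0 < h) (hh1 : h ≤ 1) (hϖ : 0 ≤ ϖ) (hd : 0 ≤ d)
    {δ c : ℝ} (hδ : 0 < δ)
    (hsl : Pe (Qc p ln B (2 * (d₀ + 1) + 1))
      (fun w => |(Am X ec fun j => pt _ w (2 * j)).det| < δ) ≤ c) {g Nc Kn : ℕ}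
    (hNc : X ≤ Nc * g) (hKn : 0 < Kn) {ϖ' : ℝ} (hϖ' : 0 < ϖ') {e : ℝ}
    (he0 : 0 ≤ e) (he : Er d₀ X g Kn C δ c ϖ' ϖ d + 2 * Real.log (4 * Lr d₀ C δ + 5) ≤
      e * (h * Real.log 2)) {n : ℕ} (hn : (2 * e + 2) / (1 - θ) + 1 + e ≤ n) :
    Pe (Qc p ln B (2 * (d₀ + 1) + 1)) (fun w =>
      ¬ (|kv X ec du' fun j => pt _ w (2 * j)| ≤ Cc d₀ C δ * (2 ^ n / 2 ^ ⌊θ * X⌋₊) ∧
        |kv X ec dv fun j => pt _ w (2 * j)| ≤ Cc d₀ C δ * (2 ^ n / 2 ^ X))) ≤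
      c + 2 * ((Nc + 1) * (Nc + 1)) * ϖ' := by
  classical
  have hp := H.law.nonneg
  have hqn := Qn_nonneg (c := lk ln B) hp (2 * (d₀ + 1) + 1)
  have hC0 := Cc_one (d₀ := d₀) hC hδ
  obtain ⟨P, hP⟩ : ∃ P : Prop × (ℕ × ℕ) → Prop,
    P = fun x => x.1 → (⌊θ * X⌋₊ ≤ x.2.1 * g + n ∧ X ≤ x.2.2 * g + n) := ⟨_, rfl⟩
  have h1 := bad_le' hqn (Cl2 X ec du' dv δ (Cc d₀ C δ) g Nc)
    ((Finset.univ : Finset Prop) ×ˢ (Finset.range (Nc + 1) ×ˢ Finset.range (Nc + 1))) (by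
      intro w
      rw [Finset.mem_product, Finset.mem_product]
      exact ⟨Finset.mem_univ _, Finset.mem_range.2 (Nat.lt_succ_of_le (Pool.LPX.idx_le _ _ _ _)),
        Finset.mem_range.2 (Nat.lt_succ_of_le (Pool.LPX.idx_le _ _ _ _))⟩)
    hϖ'.le P (by
      rintro ⟨x, i, j⟩ _ h2
      rw [hP]
      intro hx
      have hx' : x = True := eq_true hx
      rw [hx'] at h2
      obtain ⟨h3, h4⟩ := cell_two H hU hV hη hdu v hv1 hv2 hfew hNz hNu hC hθ0 hθ1 hh0 hh1 hϖ hd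
        hδ hsl hNc hKn hϖ' i j h2 he0 he
      constructor
      · have h5 : θ * X ≤ ((i * g + n : ℕ) : ℝ) := by
          push_cast at h4 ⊢
          linarith
        have h6 : ((⌊θ * X⌋₊ : ℕ) : ℝ) ≤ ((i * g + n : ℕ) : ℝ) :=
          (Nat.floor_le (by positivity)).trans h5
        exact_mod_cast h6
      · have h5 : (X : ℝ) ≤ ((j * g + n : ℕ) : ℝ) := by
          push_cast at h3 ⊢
          linarith
        exact_mod_cast h5)
  rw [Finset.card_product, Finset.card_product, Finset.card_univ, Fintype.card_prop,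
    Finset.card_range] at h1
  have h2 := Pe_or hqn (fun w => |(Am X ec fun j => pt (2 * (d₀ + 1) + 1) w (2 * j)).det| < δ)
    (fun w => ¬ P (Cl2 X ec du' dv δ (Cc d₀ C δ) g Nc w))
  -- one slope
  have key : ∀ (x : ℝ) (m : ℕ), |x| ≤ Cc d₀ C δ → m ≤ idx (Cc d₀ C δ) g Nc x * g + n →
      |x| ≤ Cc d₀ C δ * (2 ^ n / 2 ^ m) := by
    intro x m hx hm
    have c6 := Pool.LPX.idx_spec (C := Cc d₀ C δ) (g := g) (N := Nc) hx
    rw [← mul_div_assoc, le_div_iff₀ (by positivity)]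
    calc |x| * 2 ^ m ≤ |x| * (2 ^ (idx (Cc d₀ C δ) g Nc x * g) * 2 ^ n) := by
          refine mul_le_mul_of_nonneg_left ?_ (abs_nonneg _)
          rw [← pow_add]
          exact pow_le_pow_right₀ (by norm_num) hm
      _ = (|x| * 2 ^ (idx (Cc d₀ C δ) g Nc x * g)) * 2 ^ n := by ring
      _ ≤ Cc d₀ C δ * 2 ^ n := mul_le_mul_of_nonneg_right c6 (by positivity)
  refine le_trans (Pe_mono' hqn (G' := fun w =>
    |(Am X ec fun j => pt (2 * (d₀ + 1) + 1) w (2 * j)).det| < δ ∨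
    ¬ P (Cl2 X ec du' dv δ (Cc d₀ C δ) g Nc w)) fun w hw h3 => ?_) ?_
  · by_contra hcon
    push Not at hcon
    obtain ⟨c1, c2⟩ := hcon
    apply h3
    rw [hP] at c2
    obtain ⟨c3, c4⟩ := c2 c1
    have hCe := Ce_nonneg (d₀ := d₀) (η := 0) hC le_rfl hδ
    have d1 := kv_le H hC hdu hδ hw (by omega) c1
    have d2 := kv_le H hC hV.siz hδ hw (by omega) c1
    refine ⟨key _ _ ?_ c3, key _ _ ?_ c4⟩
    · unfold Cc
      linarith
    · unfold Cc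
      linarith
  · push_cast at h1
    linarith

/-- The radii. -/
theorem radius {X n m : ℕ} {F η ε θ' : ℝ} (hF : F ≤ (2 : ℝ) ^ (η * X))
    (hn : (n : ℝ) ≤ ε / 4 * X + 1) (hm : θ' * X - 1 ≤ m) (hη : η * X ≤ ε / 8 * X)
    (hX : 8 ≤ ε * X) :
    F * (2 ^ n / 2 ^ m) + 1 / 2 ^ m ≤ (2 : ℝ) ^ (-((θ' - ε) * X)) ∧
      F * (1 + 2 ^ n / 2 ^ m) ≤ (2 : ℝ) ^ (ε * X) := by
  have hX0 : (0 : ℝ) ≤ X := Nat.cast_nonneg X
  have a1 : F ≤ (2 : ℝ) ^ (ε / 8 * X) :=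
    hF.trans (Real.rpow_le_rpow_of_exponent_le (by norm_num) hη)
  have a2 : (2 : ℝ) ^ n / 2 ^ m ≤ (2 : ℝ) ^ (ε / 4 * X + 2 - θ' * X) :=
    pow_ratio (a := ε / 4 * X + 1) (b := θ' * X - 1) hn hm (by linarith)
  have a3 : (2 : ℝ) ^ n / 2 ^ m ≤ (2 : ℝ) ^ (ε / 4 * X + 1) := by
    refine pow_ratio (b := 0) hn (Nat.cast_nonneg m) (by linarith)
  have a4 : (1 : ℝ) / 2 ^ m ≤ (2 : ℝ) ^ (1 - θ' * X) := by
    have := pow_ratio (n := 0) (m := m) (a := 0) (b := θ' * X - 1) (c := 1 - θ' * X)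
      (by norm_num) hm (by linarith)
    simpa using this
  have hp0 : (0 : ℝ) ≤ 2 ^ n / 2 ^ m := by positivity
  constructor
  · have b1 : F * (2 ^ n / 2 ^ m) ≤ (2 : ℝ) ^ (3 * ε / 8 * X + 2 - θ' * X) := by
      calc F * (2 ^ n / 2 ^ m) ≤ (2 : ℝ) ^ (ε / 8 * X) * (2 : ℝ) ^ (ε / 4 * X + 2 - θ' * X) :=
            mul_le_mul a1 a2 hp0 (by positivity)
        _ = (2 : ℝ) ^ (ε / 8 * X + (ε / 4 * X + 2 - θ' * X)) :=
            (Real.rpow_add (by norm_num) _ _).symm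
        _ = _ := by
            congr 1
            ring
    have b2 : (2 : ℝ) ^ (1 - θ' * X) ≤ (2 : ℝ) ^ (3 * ε / 8 * X + 2 - θ' * X) := by
      refine Real.rpow_le_rpow_of_exponent_le (by norm_num) ?_
      linarith
    have b3 : (2 : ℝ) ^ (3 * ε / 8 * X + 2 - θ' * X) * 2 =
        (2 : ℝ) ^ (3 * ε / 8 * X + 3 - θ' * X) := by
      rw [← Real.rpow_add_one (by norm_num)]
      congr 1
      ring
    have b4 : (2 : ℝ) ^ (3 * ε / 8 * X + 3 - θ' * X) ≤ (2 : ℝ) ^ (-((θ' - ε) * X)) := by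
      refine Real.rpow_le_rpow_of_exponent_le (by norm_num) ?_
      linarith
    linarith
  · have b1 : (1 : ℝ) ≤ (2 : ℝ) ^ (ε / 4 * X + 1) :=
      Real.one_le_rpow (by norm_num) (by linarith)
    have b2 : (2 : ℝ) ^ (ε / 4 * X + 1) * 2 = (2 : ℝ) ^ (ε / 4 * X + 2) := by
      rw [← Real.rpow_add_one (by norm_num)]
      congr 1
      ring
    calc F * (1 + 2 ^ n / 2 ^ m) ≤ (2 : ℝ) ^ (ε / 8 * X) * (2 : ℝ) ^ (ε / 4 * X + 2) :=
          mul_le_mul a1 (by linarith) (by linarith) (by positivity)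
      _ = (2 : ℝ) ^ (ε / 8 * X + (ε / 4 * X + 2)) := (Real.rpow_add (by norm_num) _ _).symm
      _ ≤ _ := by
          refine Real.rpow_le_rpow_of_exponent_le (by norm_num) ?_
          linarith

/-- The rounded velocity. -/
def rdv (X m : ℕ) (z : ℤ) : ℤ := tp X m z * 2 ^ (X - m)

theorem rdv_near (X m : ℕ) (z : ℤ) : |(z : ℝ) - rdv X m z| ≤ 2 ^ (X - m) := by
  have hz : (0 : ℤ) < 2 ^ (X - m) := by positivity
  have e1 := Int.ediv_mul_le z hz.ne'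
  have e2 := Int.lt_ediv_add_one_mul_self z hz
  have a1 : ((z / 2 ^ (X - m) * 2 ^ (X - m) : ℤ) : ℝ) ≤ z := by exact_mod_cast e1
  have a2 : ((z : ℤ) : ℝ) < (((z / 2 ^ (X - m)) + 1) * 2 ^ (X - m) : ℤ) := by exact_mod_cast e2
  have hP : (0 : ℝ) < 2 ^ (X - m) := by positivity
  unfold rdv tp
  push_cast at a1 a2 ⊢
  rw [abs_le]
  constructor
  · linarith
  · linarith

/-- **(CH for a pair)** -/
theorem ch_two (d₀ : ℕ) : ChTwo d₀ := by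
  intro C θ h ε c hC hθ0 hθ1 hh0 hh1 hε hc
  have hd0 : (0 : ℝ) ≤ d₀ := Nat.cast_nonneg d₀
  have hθ' : 0 < 1 - θ := by linarith
  have hC1 : 1 ≤ C + 1 := by linarith
  obtain ⟨c₁, ε', κ, ϖ, ϖ', Nc, Kn, n1, n2, n3, n4, n5, n6, n7, n8, X₁, hX₁⟩ :=
    numbers d₀ (C := C + 1) (η := ε * h * (1 - θ) / 288) (c := c / (10 * ((d₀ : ℝ) + 1))) hC1
      (by positivity) (by positivity)
  refine ⟨c₁, ε', κ, ϖ, n1, n2, n3, n4,
    max X₁ (max ⌈24 / (ε * (1 - θ))⌉₊ ⌈1152 / (ε * h * (1 - θ))⌉₊), ?_⟩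
  intro Ω β Λ υ σ ζ _ p B ln Z Y S t ec Pc ap U V du dv au av X d H₀ hU₀ hV₀ hf hNz hNu hX hd hdκ
  have H := H₀.mono_C (C' := C + 1) (by linarith)
  have hU := crd_C hU₀ (C' := C + 1) (by linarith)
  have hV := crd_C hV₀ (C' := C + 1) (by linarith)
  obtain ⟨g, hg, hF, hE⟩ := hX₁ X ((le_max_left _ _).trans hX)
  have hEr := hE d hd hdκ
  have hX0 : (0 : ℝ) ≤ X := Nat.cast_nonneg X
  have hX2 : 24 ≤ ε * (1 - θ) * X := by
    have h1 : ⌈24 / (ε * (1 - θ))⌉₊ ≤ X :=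
      (le_max_left _ _).trans ((le_max_right _ _).trans hX)
    have h2 : 24 / (ε * (1 - θ)) ≤ X := (Nat.le_ceil _).trans (by exact_mod_cast h1)
    rw [div_le_iff₀ (by positivity)] at h2
    linarith
  have hX3 : 1152 ≤ ε * h * (1 - θ) * X := by
    have h1 : ⌈1152 / (ε * h * (1 - θ))⌉₊ ≤ X :=
      (le_max_right _ _).trans ((le_max_right _ _).trans hX)
    have h2 : 1152 / (ε * h * (1 - θ)) ≤ X := (Nat.le_ceil _).trans (by exact_mod_cast h1)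
    rw [div_le_iff₀ (by positivity)] at h2
    linarith
  have hX8 : 8 ≤ ε * X := by
    have h1 : ε * (1 - θ) * X ≤ ε * 1 * X := by
      refine mul_le_mul_of_nonneg_right ?_ hX0
      exact mul_le_mul_of_nonneg_left (by linarith) hε.le
    linarith
  obtain ⟨D, hD⟩ : ∃ D : ℝ, D = (d₀ : ℝ) + 1 := ⟨_, rfl⟩
  have hD1 : 1 ≤ D := by linarith
  rw [← hD] at n7 n8
  obtain ⟨cc, hcc⟩ : ∃ cc, cc = c / (10 * D) := ⟨_, rfl⟩
  have hcc0 : 0 < cc := by rw [hcc]; positivity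
  have hcc1 : 10 * D * cc = c := by
    rw [hcc]
    field_simp
  rw [← hcc] at n7 n8
  obtain ⟨δ, hδd⟩ : ∃ δ, δ = dl ε' d₀ X := ⟨_, rfl⟩
  rw [← hδd] at hF hEr
  have hδ : 0 < δ := by rw [hδd]; exact dl_pos _ _ _
  have hδ1 : δ ≤ 1 := by rw [hδd]; exact dl_one n2.le _ _
  have hρ : 0 < (2 : ℝ) ^ (-(ε' * X)) := by positivity
  have hρ1 : (2 : ℝ) ^ (-(ε' * X)) ≤ 1 :=
    Real.rpow_le_one_of_one_le_of_nonpos (by norm_num) (by
      have : 0 ≤ ε' * X := by positivity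
      linarith)
  have hs : ∀ n, 2 * d₀ ≤ n →
      Pe (Qc p ln B n) (fun w => |(Am X ec fun j => pt n w (2 * j)).det| < δ) ≤ d₀ * c₁ := by
    intro n hn
    have := slab d₀ H hρ hρ1 n hn
    rw [hδd]
    exact this
  -- the rounded velocity
  obtain ⟨m₀, hm₀⟩ : ∃ m₀, m₀ = ⌊θ * (X : ℝ)⌋₊ := ⟨_, rfl⟩
  obtain ⟨du', hdu'⟩ : ∃ du' : Ω → ℤ, du' = fun ω => rdv X m₀ (du ω) := ⟨_, rfl⟩
  have hη : ∀ ω, 0 < p ω → |(du ω : ℝ) - du' ω| ≤ 2 ^ (X - m₀) := fun ω _ => by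
    rw [hdu']
    exact rdv_near X m₀ (du ω)
  have hsz : ∀ ω, 0 < p ω → |(du' ω : ℝ)| ≤ (C + 1) * 2 ^ X := by
    intro ω a
    have e1 := abs_le.1 (hη ω a)
    have e2 := abs_le.1 (hU₀.siz ω a)
    have e3 : (2 : ℝ) ^ (X - m₀) ≤ 2 ^ X := pow_le_pow_right₀ (by norm_num) (by omega)
    rw [add_mul, one_mul, abs_le]
    constructor <;> linarith [e1.1, e1.2, e2.1, e2.2]
  obtain ⟨v, hv⟩ : ∃ v : Ω → ℤ × ℤ, v = fun ω => (tp X m₀ (du ω), dv ω) := ⟨_, rfl⟩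
  have hv1 : Det p v du' := by
    intro ω ω' _ _ e
    rw [hv] at e
    rw [hdu']
    unfold rdv
    have e1 : tp X m₀ (du ω) = tp X m₀ (du ω') := (Prod.ext_iff.mp e).1
    beta_reduce
    rw [e1]
  have hv2 : Det p v dv := by
    intro ω ω' _ _ e
    rw [hv] at e
    exact (Prod.ext_iff.mp e).2
  have hfew : CH p v (fun ω => (Z ω, ecv ec ω)) ≤ d := by
    rw [hv, hm₀]
    exact hf
  rw [hm₀] at hη
  -- the number of digits
  obtain ⟨n, hn⟩ : ∃ n, n = ⌈ε / 4 * X⌉₊ := ⟨_, rfl⟩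
  have hn1 : ε / 4 * X ≤ n := by rw [hn]; exact Nat.le_ceil _
  have hn2 : (n : ℝ) ≤ ε / 4 * X + 1 := by
    rw [hn]
    exact (Nat.ceil_lt_add_one (by positivity)).le
  have hl2 : 1 / 2 ≤ Real.log 2 := by
    have := Real.log_two_gt_d9
    linarith
  have hl2' : Real.log 2 ≤ 1 := by
    have := Real.log_le_sub_one_of_pos (by norm_num : (0 : ℝ) < 2)
    linarith
  obtain ⟨e, he⟩ : ∃ e, e = (1 - θ) * (ε * X) / 24 := ⟨_, rfl⟩
  have he0 : 0 ≤ e := by rw [he]; positivity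
  have hen : (2 * e + 2) / (1 - θ) + 1 + e ≤ n := by
    refine le_trans ?_ hn1
    have h1 : (2 * e + 2) / (1 - θ) + 1 + e ≤ (3 * e + 3) / (1 - θ) := by
      rw [le_div_iff₀ hθ']
      have h2 : ((2 * e + 2) / (1 - θ) + 1 + e) * (1 - θ) = 2 * e + 2 + (1 + e) * (1 - θ) := by
        field_simp
        ring
      rw [h2]
      have h3 : (1 + e) * (1 - θ) ≤ (1 + e) * 1 :=
        mul_le_mul_of_nonneg_left (by linarith) (by linarith)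
      linarith
    refine h1.trans ?_
    rw [div_le_iff₀ hθ', he]
    have h2 : ε / 4 * X * (1 - θ) = ε * (1 - θ) * X / 4 := by ring
    have h3 : 3 * ((1 - θ) * (ε * X) / 24) = ε * (1 - θ) * X / 8 := by ring
    rw [h2, h3]
    linarith
  -- the logarithm of the near values
  have hF1 := Fd_ge (d₀ := d₀) hC1 hδ hδ1
  have hCc1 := Cc_one (d₀ := d₀) hC1 hδ
  have hF0 : 0 < Fd d₀ (C + 1) δ := by
    have : 0 < 4 * ((d₀ : ℝ) + 1) * Cc d₀ (C + 1) δ := by positivity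
    linarith
  have hlr : Real.log (4 * Lr d₀ (C + 1) δ + 5) ≤ 3 + ε * h * (1 - θ) / 288 * X := by
    have h1 : 4 * Lr d₀ (C + 1) δ + 5 ≤ 8 * Fd d₀ (C + 1) δ := by
      unfold Lr
      have h2 : (5 : ℝ) ≤ 5 * Cc d₀ (C + 1) δ := by linarith
      have h3 : 0 ≤ (d₀ : ℝ) * Cc d₀ (C + 1) δ := by positivity
      have h4 : 4 * (Cc d₀ (C + 1) δ * (2 * d₀ + 6)) = 8 * ((d₀ : ℝ) * Cc d₀ (C + 1) δ) +
        24 * Cc d₀ (C + 1) δ := by ring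
      have h5 : 4 * ((d₀ : ℝ) + 1) * Cc d₀ (C + 1) δ = 4 * ((d₀ : ℝ) * Cc d₀ (C + 1) δ) +
        4 * Cc d₀ (C + 1) δ := by ring
      rw [h5] at hF1
      rw [h4]
      linarith
    have hL0 : 0 < 4 * Lr d₀ (C + 1) δ + 5 := by
      unfold Lr
      positivity
    have h2 := Real.log_le_log hL0 h1
    have h3 : 8 * Fd d₀ (C + 1) δ ≤ (2 : ℝ) ^ 3 * (2 : ℝ) ^ (ε * h * (1 - θ) / 288 * X) := by
      have e8 : (2 : ℝ) ^ 3 = 8 := by norm_num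
      rw [e8]
      linarith
    have h4 := Real.log_le_log (by positivity) h3
    have h6 : Real.log ((2 : ℝ) ^ 3 * (2 : ℝ) ^ (ε * h * (1 - θ) / 288 * X)) =
        3 * Real.log 2 + ε * h * (1 - θ) / 288 * X * Real.log 2 := by
      rw [Real.log_mul (by positivity) (by positivity), Real.log_pow,
        Real.log_rpow (by norm_num)]
      push_cast
      ring
    rw [h6] at h4
    have h5 : ε * h * (1 - θ) / 288 * X * Real.log 2 ≤ ε * h * (1 - θ) / 288 * X :=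
      mul_le_of_le_one_right (by positivity) hl2'
    linarith
  have hEe : Er d₀ X g Kn (C + 1) δ (d₀ * c₁) ϖ' ϖ d + 2 * Real.log (4 * Lr d₀ (C + 1) δ + 5) ≤
      e * (h * Real.log 2) := by
    have h1 : e * (h * (1 / 2)) ≤ e * (h * Real.log 2) := by
      refine mul_le_mul_of_nonneg_left ?_ he0
      exact mul_le_mul_of_nonneg_left hl2 hh0.le
    refine le_trans ?_ h1
    have h2 : e * (h * (1 / 2)) = ε * h * (1 - θ) * X / 48 := by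
      rw [he]
      ring
    have h3 : ε * h * (1 - θ) / 288 * X = ε * h * (1 - θ) * X / 288 := by ring
    rw [h3] at hEr hlr
    rw [h2]
    linarith
  have hk := kv_two H hU hV hη hsz v hv1 hv2 hfew hNz hNu hC1 hθ0 hθ1 hh0 hh1 n4.le hd hδ
    (hs _ (by omega)) hg n6 n5 he0 hEe hen
  rw [← hm₀] at hk
  obtain ⟨r₁, hr₁⟩ : ∃ r₁ : ℝ, r₁ = d₀ * c₁ + 2 * (((Nc : ℝ) + 1) * (Nc + 1)) * ϖ' := ⟨_, rfl⟩
  rw [← hr₁] at hk
  have hqn := Qn_nonneg (c := lk ln B) H.law.nonneg (2 * (d₀ + 1) + 1)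
  have hku : Pe (Qc p ln B (2 * (d₀ + 1) + 1)) (fun w =>
      ¬ |kv X ec du' fun j => pt _ w (2 * j)| ≤ Cc d₀ (C + 1) δ * (2 ^ n / 2 ^ m₀)) ≤ r₁ := by
    refine le_trans (Pe_mono' hqn ?_) hk
    intro w _ h1 h2
    exact h1 h2.1
  have hkv : Pe (Qc p ln B (2 * (d₀ + 1) + 1)) (fun w =>
      ¬ |kv X ec dv fun j => pt _ w (2 * j)| ≤ Cc d₀ (C + 1) δ * (2 ^ n / 2 ^ X)) ≤ r₁ := by
    refine le_trans (Pe_mono' hqn ?_) hk
    intro w _ h1 h2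
    exact h1 h2.2
  have hdu2 : Det p ln du' := by
    intro ω ω' a b e
    rw [hdu']
    beta_reduce
    rw [hU.dd ω ω' a b e]
  obtain ⟨Mu, u1, u2, u3⟩ := cov_of H hC1 hdu2 hsz hδ hδ1 (by positivity) hs hku
  obtain ⟨Mv, v1, v2, v3⟩ := cov_of H hC1 hV.dd hV.siz hδ hδ1 (by positivity) hs hkv
  -- probabilities
  have hr1 : r₁ ≤ 2 * cc := by
    rw [hr₁]
    have e1 : 2 * (((Nc : ℝ) + 1) * (Nc + 1)) ≤ 4 * ((Nc : ℝ) + 1) ^ 2 := by
      have e2 : 0 ≤ ((Nc : ℝ) + 1) ^ 2 := by positivity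
      have e3 : ((Nc : ℝ) + 1) * (Nc + 1) = ((Nc : ℝ) + 1) ^ 2 := by ring
      rw [e3]
      linarith
    have e3 := mul_le_mul_of_nonneg_right e1 n5.le
    linarith
  have hb : ((d₀ : ℝ) + 1) * r₁ + (d₀ + 2) * (d₀ * c₁) ≤ (3 * D + 1) * cc := by
    have e1 : ((d₀ : ℝ) + 1) * r₁ ≤ D * (2 * cc) := by
      rw [← hD]
      exact mul_le_mul_of_nonneg_left hr1 (by linarith)
    have e2 : ((d₀ : ℝ) + 2) * (d₀ * c₁) ≤ (D + 1) * cc := by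
      have e3 : (d₀ : ℝ) + 2 = D + 1 := by linarith
      rw [e3]
      exact mul_le_mul_of_nonneg_left n7 (by linarith)
    have e4 : (3 * D + 1) * cc = D * (2 * cc) + (D + 1) * cc := by ring
    rw [e4]
    exact add_le_add e1 e2
  have hDc : cc ≤ D * cc := le_mul_of_one_le_left hcc0.le hD1
  have e3D : (3 * D + 1) * cc = 3 * (D * cc) + cc := by ring
  have hpa : ((d₀ : ℝ) + 1) * r₁ + (d₀ + 2) * (d₀ * c₁) ≤ c := by linarith
  have hpb : 2 * (((d₀ : ℝ) + 1) * r₁ + (d₀ + 2) * (d₀ * c₁)) + r₁ ≤ c := by linarith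
  -- radii
  have hηX : ε * h * (1 - θ) / 288 * X ≤ ε / 8 * X := by
    have h1 : ε * h * (1 - θ) ≤ ε * 1 * 1 := by
      refine mul_le_mul (mul_le_mul_of_nonneg_left hh1 hε.le) (by linarith) hθ'.le (by linarith)
    have h2 : ε * h * (1 - θ) / 288 ≤ ε / 8 := by linarith
    exact mul_le_mul_of_nonneg_right h2 hX0
  have hmr : θ * X - 1 ≤ m₀ := by
    rw [hm₀]
    have := Nat.lt_floor_add_one (θ * (X : ℝ))
    linarith
  obtain ⟨ru1, ru2⟩ := radius (m := m₀) (θ' := θ) hF hn2 hmr hηX hX8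
  obtain ⟨rv1, rv2⟩ := radius (m := X) (θ' := 1) hF hn2 (by linarith) hηX hX8
  have hdn : ∀ w, 0 ≤ dbl p ln w := fun w => by
    unfold dbl
    exact glue_nonneg H.law.nonneg H.law.nonneg w
  have h2m : (0 : ℝ) ≤ 1 / 2 ^ m₀ := by positivity
  have h2X : (0 : ℝ) ≤ 1 / 2 ^ X := by positivity
  refine ⟨Mu, Mv, fun b i => (u1 b i).trans ru2, fun b i => (v1 b i).trans rv2, ⟨?_, ?_⟩,
    ⟨?_, ?_⟩⟩
  · refine le_trans (Pe_mono' H.law.nonneg (G' := fun ω => ¬ |(du' ω : ℝ) / 2 ^ X -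
      ∑ i, Mu (B ω) i * Xv X ec ω i| ≤ Fd d₀ (C + 1) δ * (2 ^ n / 2 ^ m₀)) ?_)
      (u2.trans hpa)
    intro ω a h2 h3
    apply h2
    have e1 : |(du ω : ℝ) / 2 ^ X - (du' ω : ℝ) / 2 ^ X| ≤ 1 / 2 ^ m₀ := by
      rw [← sub_div, abs_div, abs_of_pos (by positivity : (0 : ℝ) < 2 ^ X),
        div_le_iff₀ (by positivity)]
      refine (hη ω a).trans ?_
      rw [← hm₀]
      have hmX : m₀ ≤ X := by
        have : (m₀ : ℝ) ≤ X := by
          rw [hm₀]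
          refine (Nat.floor_le (by positivity)).trans ?_
          exact mul_le_of_le_one_left hX0 hθ1.le
        exact_mod_cast this
      rw [div_mul_eq_mul_div, one_mul, le_div_iff₀ (by positivity), ← pow_add]
      exact pow_le_pow_right₀ (by norm_num) (by omega)
    have e2 : |(du ω : ℝ) / 2 ^ X - ∑ i, Mu (B ω) i * Xv X ec ω i| ≤
        |(du ω : ℝ) / 2 ^ X - (du' ω : ℝ) / 2 ^ X| +
        |(du' ω : ℝ) / 2 ^ X - ∑ i, Mu (B ω) i * Xv X ec ω i| := abs_sub_le _ _ _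
    linarith
  · refine le_trans (Pe_mono' hdn (G' := fun w => ¬ ∀ i, |Mu (B w.1) i - Mu (B w.2) i| ≤
      Fd d₀ (C + 1) δ * (2 ^ n / 2 ^ m₀)) ?_) (u3.trans hpb)
    intro w _ h2 h3
    exact h2 fun i => (h3 i).trans (by linarith)
  · refine le_trans (Pe_mono' H.law.nonneg (G' := fun ω => ¬ |(dv ω : ℝ) / 2 ^ X -
      ∑ i, Mv (B ω) i * Xv X ec ω i| ≤ Fd d₀ (C + 1) δ * (2 ^ n / 2 ^ X)) ?_)
      (v2.trans hpa)
    intro ω _ h2 h3
    exact h2 (h3.trans (by linarith))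
  · refine le_trans (Pe_mono' hdn (G' := fun w => ¬ ∀ i, |Mv (B w.1) i - Mv (B w.2) i| ≤
      Fd d₀ (C + 1) δ * (2 ^ n / 2 ^ X)) ?_) (v3.trans hpb)
    intro w _ h2 h3
    exact h2 fun i => (h3 i).trans (by linarith)

end Pool.CHN
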